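import Mathlib
import Pool.Agent.R175.TriGeo

/-!
# Regular triangles and squares with sides of length one
-/

set_option autoImplicit false

namespace Pool.Agent.R175.TriSq

open Set Complex ComplexConjugate Pool.Agent.R175.TriGeo

theorem r3_lo : 1.732 < r3 := by
  have := r3_sq
  have := r3_pos
  nlinarith

theorem r3_hi : r3 < 1.7321 := by
  have := r3_sq
  have := r3_pos
  nlinarith

/-- The triangle with corners `a`, `a + u`, `a + ζ u` (counterclockwise), where `ζ = exp (π i / 3)`; it is
regular with sides of length one if `‖u‖ = 1`. -/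
def tri (a u : ℂ) : Set ℂ := convexHull ℝ {a, a + u, a + ζ * u}

/-- The square with corners `a`, `a + u`, `a + u + i u`, `a + i u` (counterclockwise); its sides have length one
if `‖u‖ = 1`. -/
def sq (a u : ℂ) : Set ℂ := convexHull ℝ {a, a + u, a + u + I * u, a + I * u}

/-- `T` is a regular triangle with sides of length one. -/
def IsTri (T : Set ℂ) : Prop := ∃ a u, ‖u‖ = 1 ∧ T = tri a u

/-- `T` is a square with sides of length one. -/
def IsSq (T : Set ℂ) : Prop := ∃ a u, ‖u‖ = 1 ∧ T = sq a u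

/-- The side `[a, a + u]` of the triangle or square `T`, which lies to the left of it. -/
def Tile (a u : ℂ) (T : Set ℂ) : Prop := T = tri a u ∨ T = sq a u

/-- `v` is a corner of the tile `T`: listing the corners of `T` can start at `v`. -/
def IsCorner (T : Set ℂ) (v : ℂ) : Prop := ∃ u, ‖u‖ = 1 ∧ (T = tri v u ∨ T = sq v u)

/-- `e` is a side of the tile `T`: listing the corners of `T` can start with the side `e`. -/
def IsSide (T : Set ℂ) (e : Set ℂ) : Prop :=
  ∃ a u, ‖u‖ = 1 ∧ (T = tri a u ∨ T = sq a u) ∧ e = segment ℝ a (a + u)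

theorem ne_zero_of_norm {u : ℂ} (hu : ‖u‖ = 1) : u ≠ 0 := by
  rintro rfl; simp at hu

/-! ### The tiles by inequalities -/

theorem zeta_re : ζ.re = 1 / 2 := rfl
theorem zeta_im : ζ.im = r3 / 2 := rfl

/-- Membership in the triangle. -/
theorem mem_tri {a u : ℂ} (hu : u ≠ 0) (w : ℂ) :
    a + w * u ∈ tri a u ↔ 0 ≤ w.im ∧ r3 * w.im ≤ 3 * w.re ∧ r3 * w.im ≤ 3 * (1 - w.re) := by
  have h3 := r3_sq
  have h0 := r3_pos
  unfold tri
  rw [convexHull_insert (by simp), convexHull_pair, mem_convexJoin]
  constructor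
  · rintro ⟨x, hx, y, hy, hz⟩
    rw [mem_singleton_iff] at hx
    subst hx
    rw [segment_eq_image] at hy hz
    obtain ⟨t, ⟨ht0, ht1⟩, rfl⟩ := hy
    obtain ⟨s, ⟨hs0, hs1⟩, hz⟩ := hz
    have hw : w = s * (1 - t) + s * t * ζ := by
      have h1 : (w - (s * (1 - t) + s * t * ζ)) * u = 0 := by
        simp only [Complex.real_smul] at hz
        push_cast at hz
        linear_combination -hz
      exact sub_eq_zero.1 ((mul_eq_zero.1 h1).resolve_right hu)
    have e1 : w.im = s * t * (r3 / 2) := by rw [hw]; simp [zeta_im, zeta_re]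
    have e2 : w.re = s * (1 - t) + s * t / 2 := by rw [hw]; simp [zeta_im, zeta_re]; ring
    have hst : 0 ≤ s * t := mul_nonneg hs0 ht0
    have hst1 : 0 ≤ s * (1 - t) := mul_nonneg hs0 (by linarith)
    rw [e1, e2]
    refine ⟨by positivity, ?_, ?_⟩
    · nlinarith
    · nlinarith
  · rintro ⟨h1, h2, h3'⟩
    -- w = α + β ζ
    obtain ⟨β, hβ⟩ : ∃ β : ℝ, β = 2 * w.im / r3 := ⟨_, rfl⟩
    obtain ⟨α, hα⟩ : ∃ α : ℝ, α = w.re - β / 2 := ⟨_, rfl⟩
    have hβr : β * r3 = 2 * w.im := by rw [hβ]; field_simp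
    have hw : w = α + β * ζ := by
      apply Complex.ext
      · simp [zeta_re, zeta_im]; rw [hα]; ring
      · simp [zeta_re, zeta_im]; linarith
    have hβ0 : 0 ≤ β := by rw [hβ]; positivity
    have hk : r3 * w.im = 3 * (β / 2) := by
      have : r3 * (2 * w.im) = r3 * r3 * β := by rw [← hβr]; ring
      rw [h3] at this; linarith
    have hα0 : 0 ≤ α := by rw [hα]; linarith
    have hαβ : α + β ≤ 1 := by rw [hα]; linarith
    by_cases hs : α + β = 0
    · have ha : α = 0 := by linarith
      have hb : β = 0 := by linarith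
      refine ⟨a, rfl, a + u, left_mem_segment ℝ _ _, ?_⟩
      have : a + w * u = a := by rw [hw, ha, hb]; simp
      rw [this]
      exact left_mem_segment ℝ _ _
    · have hpos : 0 < α + β := lt_of_le_of_ne (by linarith) (Ne.symm hs)
      refine ⟨a, rfl, (1 - β / (α + β)) • (a + u) + (β / (α + β)) • (a + ζ * u), ?_, ?_⟩
      · rw [segment_eq_image]
        exact ⟨β / (α + β), ⟨by positivity, (div_le_one hpos).2 (by linarith)⟩, rfl⟩
      rw [segment_eq_image]
      refine ⟨α + β, ⟨hpos.le, hαβ⟩, ?_⟩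
      simp only [Complex.real_smul]
      have hne : ((α : ℂ) + β) ≠ 0 := by
        intro h
        apply hs
        have := congrArg Complex.re h
        simpa using this
      rw [hw]
      push_cast
      field_simp
      ring

theorem mem_sq {a u : ℂ} (hu : u ≠ 0) (w : ℂ) :
    a + w * u ∈ sq a u ↔ 0 ≤ w.re ∧ w.re ≤ 1 ∧ 0 ≤ w.im ∧ w.im ≤ 1 := by
  unfold sq
  constructor
  · intro h
    have hsub : convexHull ℝ {a, a + u, a + u + I * u, a + I * u} ⊆
        {z | 0 ≤ ((z - a) / u).re ∧ ((z - a) / u).re ≤ 1 ∧ 0 ≤ ((z - a) / u).im ∧ ((z - a) / u).im ≤ 1} := by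
      apply convexHull_min
      · rintro z (rfl | rfl | rfl | rfl)
        · simp
        · have : (a + u - a) / u = 1 := by field_simp; ring
          rw [mem_ofPred_eq, this]; simp
        · have : (a + u + I * u - a) / u = 1 + I := by field_simp; ring
          rw [mem_ofPred_eq, this]; simp
        · have : (a + I * u - a) / u = I := by field_simp; ring
          rw [mem_ofPred_eq, this]; simp
      · intro x hx y hy s t hs ht hst
        rw [mem_ofPred_eq] at *
        have e : (s • x + t • y - a) / u = s * ((x - a) / u) + t * ((y - a) / u) := by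
          have : (a : ℂ) = (s + t) * a := by rw [← Complex.ofReal_add, hst]; simp
          simp only [Complex.real_smul]
          field_simp
          linear_combination -this
        obtain ⟨x1, x2, x3, x4⟩ := hx
        obtain ⟨y1, y2, y3, y4⟩ := hy
        rw [e]
        simp only [Complex.add_re, Complex.add_im, Complex.re_ofReal_mul, Complex.im_ofReal_mul]
        have ht' : t = 1 - s := by linarith
        subst ht'
        refine ⟨by positivity, ?_, by positivity, ?_⟩
        · nlinarith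
        · nlinarith
    have := hsub h
    rw [mem_ofPred_eq] at this
    have e : (a + w * u - a) / u = w := by field_simp; ring
    rw [e] at this
    exact this
  · rintro ⟨h1, h2, h3, h4⟩
    have hc : Convex ℝ (convexHull ℝ {a, a + u, a + u + I * u, a + I * u}) := convex_convexHull ℝ _
    have m0 : a ∈ convexHull ℝ {a, a + u, a + u + I * u, a + I * u} := subset_convexHull ℝ _ (by simp)
    have m1 : a + u ∈ convexHull ℝ {a, a + u, a + u + I * u, a + I * u} := subset_convexHull ℝ _ (by simp)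
    have m2 : a + u + I * u ∈ convexHull ℝ {a, a + u, a + u + I * u, a + I * u} :=
      subset_convexHull ℝ _ (by simp)
    have m3 : a + I * u ∈ convexHull ℝ {a, a + u, a + u + I * u, a + I * u} := subset_convexHull ℝ _ (by simp)
    have p1 := hc m0 m1 (by linarith : 0 ≤ 1 - w.re) h1 (by ring)
    have p2 := hc m3 m2 (by linarith : 0 ≤ 1 - w.re) h1 (by ring)
    have p3 := hc p1 p2 (by linarith : 0 ≤ 1 - w.im) h3 (by ring)
    convert p3 using 1
    simp only [Complex.real_smul]
    push_cast
    have : w = w.re + w.im * I := (Complex.re_add_im w).symm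
    conv_lhs => rw [this]
    ring

theorem coord {a u : ℂ} (hu : u ≠ 0) (z : ℂ) : z = a + (z - a) / u * u := by
  field_simp; ring

/-! ### Rotations of the descriptions -/

theorem zeta_sq' : ζ * ζ = ζ - 1 := zeta_sq

theorem tri_rot (a u : ℂ) : tri a u = tri (a + u) ((ζ - 1) * u) := by
  unfold tri
  have e1 : a + u + (ζ - 1) * u = a + ζ * u := by ring
  have e2 : a + u + ζ * ((ζ - 1) * u) = a := by linear_combination u * zeta_sq
  rw [e1, e2]
  congr 1
  ext z; simp only [mem_insert_iff, mem_singleton_iff]; tauto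

theorem tri_rot' (a u : ℂ) : tri a u = tri (a + ζ * u) (-ζ * u) := by
  unfold tri
  have e1 : a + ζ * u + -ζ * u = a := by ring
  have e2 : a + ζ * u + ζ * (-ζ * u) = a + u := by linear_combination (-u) * zeta_sq
  rw [e1, e2]
  congr 1
  ext z; simp only [mem_insert_iff, mem_singleton_iff]; tauto

theorem sq_rot (a u : ℂ) : sq a u = sq (a + u) (I * u) := by
  unfold sq
  have e1 : a + u + I * (I * u) = a := by linear_combination u * I_mul_I
  have e2 : a + u + I * u + I * (I * u) = a + I * u := by linear_combination u * I_mul_I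
  rw [e1, e2]
  congr 1
  ext z; simp only [mem_insert_iff, mem_singleton_iff]; tauto

theorem sq_rot2 (a u : ℂ) : sq a u = sq (a + u + I * u) (-u) := by
  rw [sq_rot, sq_rot (a + u)]
  congr 1
  linear_combination u * I_mul_I

theorem sq_rot3 (a u : ℂ) : sq a u = sq (a + I * u) (-I * u) := by
  rw [sq_rot2, sq_rot]
  congr 1
  · ring
  · ring

/-! ### Basic facts about a tile -/

theorem tile_low {a u : ℂ} {T : Set ℂ} (hu : ‖u‖ = 1) (hT : Tile a u T) {w : ℂ} (h : a + w * u ∈ T) : 0 ≤ w.im := by
  have hu0 := ne_zero_of_norm hu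
  rcases hT with rfl | rfl
  · exact ((mem_tri hu0 w).1 h).1
  · exact ((mem_sq hu0 w).1 h).2.2.1

theorem tile_line {a u : ℂ} {T : Set ℂ} (hu : ‖u‖ = 1) (hT : Tile a u T) {w : ℂ} (h : a + w * u ∈ T)
    (h0 : w.im = 0) : 0 ≤ w.re ∧ w.re ≤ 1 := by
  have hu0 := ne_zero_of_norm hu
  rcases hT with rfl | rfl
  · have := (mem_tri hu0 w).1 h
    rw [h0, mul_zero] at this
    exact ⟨by linarith [this.2.1], by linarith [this.2.2]⟩
  · have := (mem_sq hu0 w).1 h
    exact ⟨this.1, this.2.1⟩

theorem tile_side {a u : ℂ} {T : Set ℂ} (hu : ‖u‖ = 1) (hT : Tile a u T) {x : ℝ} (h0 : 0 ≤ x) (h1 : x ≤ 1) :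
    a + x * u ∈ T := by
  have hu0 := ne_zero_of_norm hu
  rcases hT with rfl | rfl
  · rw [mem_tri hu0]; simp; exact ⟨h0, h1⟩
  · rw [mem_sq hu0]; simp; exact ⟨h0, h1⟩

theorem tile_pointed {a u : ℂ} {T : Set ℂ} (hu : ‖u‖ = 1) (hT : Tile a u T) {w : ℂ} (h : a + w * u ∈ T)
    (h' : a - w * u ∈ T) : w = 0 := by
  have hu0 := ne_zero_of_norm hu
  have e : a - w * u = a + (-w) * u := by ring
  rw [e] at h'
  have hp := r3_pos
  rcases hT with rfl | rfl
  · have h1 := (mem_tri hu0 w).1 h
    have h2 := (mem_tri hu0 (-w)).1 h'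
    simp at h2
    have i0 : w.im = 0 := by linarith [h1.1, h2.1]
    rw [i0, mul_zero] at h1 h2
    apply Complex.ext
    · simp; linarith [h1.2.1, h2.2.1]
    · simp [i0]
  · have h1 := (mem_sq hu0 w).1 h
    have h2 := (mem_sq hu0 (-w)).1 h'
    simp at h2
    apply Complex.ext
    · simp; linarith [h1.1, h2.1]
    · simp; linarith [h1.2.2.1, h2.2.2.1]

theorem tile_mid {a u : ℂ} {T : Set ℂ} (hu : ‖u‖ = 1) (hT : Tile a u T) {ε : ℝ} (h0 : 0 ≤ ε) (h1 : ε ≤ 1 / 2) :
    a + (1 / 2 + ε * I) * u ∈ T := by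
  have hu0 := ne_zero_of_norm hu
  have hp := r3_pos
  have hp1 := r3_lt
  rcases hT with rfl | rfl
  · rw [mem_tri hu0]
    have e1 : (1 / 2 + (ε : ℂ) * I).im = ε := by simp
    have e2 : (1 / 2 + (ε : ℂ) * I).re = 1 / 2 := by simp
    rw [e1, e2]
    refine ⟨h0, ?_, ?_⟩ <;> nlinarith
  · rw [mem_sq hu0]
    have e1 : (1 / 2 + (ε : ℂ) * I).im = ε := by simp
    have e2 : (1 / 2 + (ε : ℂ) * I).re = 1 / 2 := by simp
    rw [e1, e2]
    refine ⟨?_, ?_, h0, ?_⟩ <;> linarith

/-- A side through the midpoint of another side is that side. -/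
theorem side_unique {a u p d : ℂ} {T : Set ℂ} (hu : ‖u‖ = 1) (hd : ‖d‖ = 1) (hT : Tile a u T) (hT' : Tile p d T)
    {x : ℝ} (hx : p + d / 2 = a + x * u) : a = p ∧ u = d := by
  have hu0 := ne_zero_of_norm hu
  obtain ⟨δ, hδ⟩ : ∃ δ, δ = d / u := ⟨_, rfl⟩
  have hdu : d = δ * u := by rw [hδ]; field_simp
  have hn : ‖δ‖ = 1 := by rw [hδ, norm_div, hu, hd, div_one]
  have hp : p = a + (x - δ / 2) * u := by
    rw [hdu] at hx; linear_combination hx
  have hq : p + d = a + (x + δ / 2) * u := by
    rw [hp, hdu]; ring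
  have m1 : p ∈ T := by
    have := tile_side hd hT' (x := 0) le_rfl zero_le_one
    simpa using this
  have m2 : p + d ∈ T := by
    have := tile_side hd hT' (x := 1) zero_le_one le_rfl
    simpa using this
  rw [hp] at m1
  rw [hq] at m2
  have l1 := tile_low hu hT m1
  have l2 := tile_low hu hT m2
  simp at l1 l2
  have i0 : δ.im = 0 := by linarith
  have hsq : δ.re * δ.re = 1 := by
    have := Complex.normSq_eq_norm_sq δ
    rw [hn, Complex.normSq_apply, i0] at this
    linarith
  have hre : δ.re = 1 := by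
    rcases mul_self_eq_one_iff.1 hsq with h | h
    · exact h
    · exfalso
      have m3 := tile_mid hd hT' (ε := 1 / 4) (by norm_num) (by norm_num)
      have e : p + (1 / 2 + ((1 / 4 : ℝ) : ℂ) * I) * d = a + (x + ((1 / 4 : ℝ) : ℂ) * I * δ) * u := by
        rw [hp, hdu]; ring
      rw [e] at m3
      have := tile_low hu hT m3
      simp [h, i0] at this
      linarith
  have hδ1 : δ = 1 := Complex.ext hre i0
  rw [hδ1] at m1 m2 hdu hp
  have k1 := tile_line hu hT m1 (by simp)
  have k2 := tile_line hu hT m2 (by simp)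
  simp at k1 k2
  have hx2 : x = 1 / 2 := by
    norm_num at k1 k2
    linarith [k1.1, k2.2]
  refine ⟨?_, by rw [hdu, one_mul]⟩
  rw [hp, hx2]; push_cast; ring

theorem mid_not_corner {p d : ℂ} {T : Set ℂ} (hd : ‖d‖ = 1) (hT : Tile p d T) : ¬ IsCorner T (p + d / 2) := by
  rintro ⟨u, hu, hT'⟩
  have hu0 := ne_zero_of_norm hu
  have m1 : p ∈ T := by
    have := tile_side hd hT (x := 0) le_rfl zero_le_one
    simpa using this
  have m2 : p + d ∈ T := by
    have := tile_side hd hT (x := 1) zero_le_one le_rfl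
    simpa using this
  have e1 : p + d = p + d / 2 + (d / 2 / u) * u := by field_simp; ring
  have e2 : p = p + d / 2 - (d / 2 / u) * u := by field_simp; ring
  rw [e1] at m2
  have m1' : p + d / 2 - (d / 2 / u) * u ∈ T := by rw [← e2]; exact m1
  have := tile_pointed hu hT' m2 m1'
  have hd0 := ne_zero_of_norm hd
  have h2 : d / 2 / u ≠ 0 := div_ne_zero (div_ne_zero hd0 (by norm_num)) hu0
  exact h2 this

theorem tile_closed {a u : ℂ} {T : Set ℂ} (hT : Tile a u T) : IsClosed T := by
  rcases hT with rfl | rfl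
  · exact ((Set.toFinite _).isCompact_convexHull (𝕜 := ℝ)).isClosed
  · exact ((Set.toFinite _).isCompact_convexHull (𝕜 := ℝ)).isClosed

theorem tile_convex {a u : ℂ} {T : Set ℂ} (hT : Tile a u T) : Convex ℝ T := by
  rcases hT with rfl | rfl
  · exact convex_convexHull ℝ _
  · exact convex_convexHull ℝ _

end Pool.Agent.R175.TriSq
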