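import Mathlib
import Pool.Agent.R175.TriSq.Basic

/-!
# Edge-to-edge families of triangles and squares
-/

set_option autoImplicit false

namespace Pool.Agent.R175.TriSq

open Set Complex ComplexConjugate Pool.Agent.R175.TriGeo Topology

/-- A family of regular triangles and squares with sides of length one placed edge-to-edge: two different tiles
meet in a set of zero area, and they are disjoint, or meet in one common corner, or meet in one common side. -/
structure IsArrangement (F : Set (Set ℂ)) : Prop where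
  tiles : ∀ T ∈ F, IsTri T ∨ IsSq T
  area : ∀ S ∈ F, ∀ T ∈ F, S ≠ T → MeasureTheory.volume (S ∩ T) = 0
  edge : ∀ S ∈ F, ∀ T ∈ F, S ≠ T → S ∩ T = ∅ ∨ (∃ v, IsCorner S v ∧ IsCorner T v ∧ S ∩ T = {v}) ∨
    (∃ e, IsSide S e ∧ IsSide T e ∧ S ∩ T = e)

theorem tile_of {T : Set ℂ} (h : IsTri T ∨ IsSq T) : ∃ a u, ‖u‖ = 1 ∧ Tile a u T := by
  rcases h with ⟨a, u, hu, hT⟩ | ⟨a, u, hu, hT⟩
  · exact ⟨a, u, hu, Or.inl hT⟩
  · exact ⟨a, u, hu, Or.inr hT⟩

theorem div_cont (a u : ℂ) : Continuous fun z : ℂ => (z - a) / u := by fun_prop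

theorem tri_int {a u : ℂ} (hu : u ≠ 0) {w : ℂ} (h1 : 0 < w.im) (h2 : r3 * w.im < 3 * w.re)
    (h3 : r3 * w.im < 3 * (1 - w.re)) : a + w * u ∈ interior (tri a u) := by
  rw [mem_interior]
  refine ⟨{z | 0 < ((z - a) / u).im ∧ r3 * ((z - a) / u).im < 3 * ((z - a) / u).re ∧
    r3 * ((z - a) / u).im < 3 * (1 - ((z - a) / u).re)}, ?_, ?_, ?_⟩
  · rintro z ⟨a1, a2, a3⟩
    rw [coord hu z (a := a), mem_tri hu]
    exact ⟨a1.le, a2.le, a3.le⟩
  · have c1 : Continuous fun z : ℂ => ((z - a) / u).im := Complex.continuous_im.comp (div_cont a u)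
    have c2 : Continuous fun z : ℂ => ((z - a) / u).re := Complex.continuous_re.comp (div_cont a u)
    apply IsOpen.inter (isOpen_lt continuous_const c1)
    exact IsOpen.inter (isOpen_lt (continuous_const.mul c1) (continuous_const.mul c2))
      (isOpen_lt (continuous_const.mul c1) (continuous_const.mul (continuous_const.sub c2)))
  · have e : (a + w * u - a) / u = w := by field_simp; ring
    rw [mem_ofPred_eq, e]
    exact ⟨h1, h2, h3⟩

theorem sq_int {a u : ℂ} (hu : u ≠ 0) {w : ℂ} (h1 : 0 < w.re) (h2 : w.re < 1) (h3 : 0 < w.im)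
    (h4 : w.im < 1) : a + w * u ∈ interior (sq a u) := by
  rw [mem_interior]
  refine ⟨{z | 0 < ((z - a) / u).re ∧ ((z - a) / u).re < 1 ∧ 0 < ((z - a) / u).im ∧ ((z - a) / u).im < 1},
    ?_, ?_, ?_⟩
  · rintro z ⟨a1, a2, a3, a4⟩
    rw [coord hu z (a := a), mem_sq hu]
    exact ⟨a1.le, a2.le, a3.le, a4.le⟩
  · have c1 : Continuous fun z : ℂ => ((z - a) / u).im := Complex.continuous_im.comp (div_cont a u)
    have c2 : Continuous fun z : ℂ => ((z - a) / u).re := Complex.continuous_re.comp (div_cont a u)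
    apply IsOpen.inter (isOpen_lt continuous_const c2)
    apply IsOpen.inter (isOpen_lt c2 continuous_const)
    exact IsOpen.inter (isOpen_lt continuous_const c1) (isOpen_lt c1 continuous_const)
  · have e : (a + w * u - a) / u = w := by field_simp; ring
    rw [mem_ofPred_eq, e]
    exact ⟨h1, h2, h3, h4⟩

theorem tile_int_ne {T : Set ℂ} (h : IsTri T ∨ IsSq T) : (interior T).Nonempty := by
  have h0 := r3_lt
  have h1 := r3_pos
  rcases h with ⟨a, u, hu, rfl⟩ | ⟨a, u, hu, rfl⟩
  · refine ⟨_, tri_int (ne_zero_of_norm hu) (w := ⟨1 / 2, 1 / 4⟩) ?_ ?_ ?_⟩ <;> simp only [] <;> linarith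
  · refine ⟨_, sq_int (ne_zero_of_norm hu) (w := ⟨1 / 2, 1 / 2⟩) ?_ ?_ ?_ ?_⟩ <;> norm_num

theorem tile_closure {T : Set ℂ} (h : IsTri T ∨ IsSq T) : closure (interior T) = T := by
  obtain ⟨a, u, hu, hT⟩ := tile_of h
  rw [(tile_convex hT).closure_interior_eq_closure_of_nonempty_interior (tile_int_ne h), (tile_closed hT).closure_eq]

theorem tile_isClosed {T : Set ℂ} (h : IsTri T ∨ IsSq T) : IsClosed T := by
  obtain ⟨a, u, hu, hT⟩ := tile_of h
  exact tile_closed hT

theorem no_overlap {Q : Set (Set ℂ)} (hQ : IsArrangement Q) {S T : Set ℂ} (hS : S ∈ Q) (hT : T ∈ Q) {z : ℂ}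
    (h1 : z ∈ interior S) (h2 : z ∈ interior T) : S = T := by
  by_contra hne
  have h := hQ.area S hS T hT hne
  have h3 : (0 : ENNReal) < MeasureTheory.volume (interior S ∩ interior T) :=
    (isOpen_interior.inter isOpen_interior).measure_pos _ ⟨z, h1, h2⟩
  have h4 : MeasureTheory.volume (interior S ∩ interior T) ≤ MeasureTheory.volume (S ∩ T) :=
    MeasureTheory.measure_mono (inter_subset_inter interior_subset interior_subset)
  rw [h] at h4
  exact absurd h3 (not_lt.2 h4)

/-- Two tiles, one of which contains an interior point of the other, are equal. -/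
theorem eq_of_int {Q : Set (Set ℂ)} (hQ : IsArrangement Q) {S T : Set ℂ} (hS : S ∈ Q) (hT : T ∈ Q) {z : ℂ}
    (h1 : z ∈ S) (h2 : z ∈ interior T) : S = T := by
  rw [← tile_closure (hQ.tiles S hS)] at h1
  obtain ⟨y, hy1, hy2⟩ := mem_closure_iff.1 h1 (interior T) isOpen_interior h2
  exact no_overlap hQ hS hT hy2 hy1

theorem near {Q : Set (Set ℂ)} (hQ : IsArrangement Q) (hfin : Q.Finite) (v : ℂ) :
    ∀ᶠ z in 𝓝 v, ∀ T ∈ Q, z ∈ T → v ∈ T := by
  rw [Filter.eventually_all_finite hfin]
  intro T hT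
  by_cases hv : v ∈ T
  · exact Filter.Eventually.of_forall fun z _ => hv
  · filter_upwards [(tile_isClosed (hQ.tiles T hT)).isOpen_compl.mem_nhds hv] with z hz h
    exact absurd h hz

theorem segment_ends {a u p d : ℂ} (hu : ‖u‖ = 1) (hd : ‖d‖ = 1)
    (h : segment ℝ p (p + d) = segment ℝ a (a + u)) : (a = p ∧ u = d) ∨ (a = p + d ∧ u = -d) := by
  have h1 : p ∈ segment ℝ a (a + u) := by rw [← h]; exact left_mem_segment ℝ _ _
  have h2 : p + d ∈ segment ℝ a (a + u) := by rw [← h]; exact right_mem_segment ℝ _ _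
  rw [segment_eq_image'] at h1 h2
  obtain ⟨x, ⟨hx0, hx1⟩, hx⟩ := h1
  obtain ⟨y, ⟨hy0, hy1⟩, hy⟩ := h2
  simp only [add_sub_cancel_left, Complex.real_smul] at hx hy
  have hdu : d = (y - x) * u := by linear_combination hx - hy
  have hn : |y - x| = 1 := by
    have : ‖d‖ = |y - x| * ‖u‖ := by
      rw [hdu, norm_mul, ← Complex.ofReal_sub, Complex.norm_real, Real.norm_eq_abs]
    rw [hd, hu, mul_one] at this
    exact this.symm
  rcases abs_cases (y - x) with ⟨h3, h4⟩ | ⟨h3, h4⟩
  · left
    have e1 : x = 0 := by linarith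
    have e2 : y = 1 := by linarith
    refine ⟨?_, ?_⟩
    · rw [← hx, e1]; simp
    · rw [hdu, e1, e2]; simp
  · right
    have e1 : x = 1 := by linarith
    have e2 : y = 0 := by linarith
    refine ⟨?_, ?_⟩
    · rw [← hy, e2]; simp
    · rw [hdu, e1, e2]; simp

/-- The tile on the other side of a side whose midpoint is an interior point. -/
theorem across {Q : Set (Set ℂ)} (hQ : IsArrangement Q) (hfin : Q.Finite) {S : Set ℂ} (hS : S ∈ Q) {p d : ℂ}
    (hd : ‖d‖ = 1) (hSt : Tile p d S) (hint : p + d / 2 ∈ interior (⋃₀ Q)) : ∃ T ∈ Q, Tile (p + d) (-d) T := by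
  have ev := (near hQ hfin (p + d / 2)).and (mem_interior_iff_mem_nhds.1 hint)
  have ht : Filter.Tendsto (fun ε : ℝ => p + d / 2 + (-(ε : ℂ) * I) * d) (𝓝[>] 0) (𝓝 (p + d / 2)) := by
    have h2 : Filter.Tendsto (fun ε : ℝ => p + d / 2 + (-(ε : ℂ) * I) * d) (𝓝 0)
        (𝓝 (p + d / 2 + (-((0 : ℝ) : ℂ) * I) * d)) := by
      apply Continuous.tendsto
      fun_prop
    simp only [Complex.ofReal_zero, neg_zero, zero_mul, add_zero] at h2
    exact h2.mono_left nhdsWithin_le_nhds
  have ev2 := ht.eventually ev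
  have ev3 : ∀ᶠ ε : ℝ in 𝓝[>] 0, 0 < ε := self_mem_nhdsWithin
  obtain ⟨ε, ⟨h1, h2⟩, hε⟩ := (ev2.and ev3).exists
  obtain ⟨T, hT, hzT⟩ := h2
  have hcT := h1 T hT hzT
  have hd0 := ne_zero_of_norm hd
  have hcS : p + d / 2 ∈ S := by
    have := tile_side hd hSt (x := 1 / 2) (by norm_num) (by norm_num)
    have e : p + ((1 / 2 : ℝ) : ℂ) * d = p + d / 2 := by push_cast; ring
    rwa [e] at this
  have hlow : ∀ {A : Set ℂ}, Tile p d A → p + d / 2 + (-(ε : ℂ) * I) * d ∉ A := by
    intro A hA hmem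
    have e : p + d / 2 + (-(ε : ℂ) * I) * d = p + (1 / 2 + (-(ε : ℂ) * I)) * d := by ring
    rw [e] at hmem
    have := tile_low hd hA hmem
    simp at this
    linarith
  have hne : S ≠ T := by
    rintro rfl
    exact hlow hSt hzT
  rcases hQ.edge S hS T hT hne with h | ⟨v, hv1, hv2, h⟩ | ⟨e, ⟨a, u, hu, ht1, rfl⟩, ⟨a', u', hu', ht2, he⟩, h⟩
  · exfalso
    have : p + d / 2 ∈ S ∩ T := ⟨hcS, hcT⟩
    rw [h] at this
    exact this
  · exfalso
    have : p + d / 2 ∈ S ∩ T := ⟨hcS, hcT⟩
    rw [h, mem_singleton_iff] at this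
    rw [← this] at hv1
    exact mid_not_corner hd hSt hv1
  · have hc : p + d / 2 ∈ segment ℝ a (a + u) := by rw [← h]; exact ⟨hcS, hcT⟩
    rw [segment_eq_image'] at hc
    obtain ⟨x, -, hx⟩ := hc
    simp only [add_sub_cancel_left, Complex.real_smul] at hx
    obtain ⟨rfl, rfl⟩ := side_unique hu hd ht1 hSt hx.symm
    rcases segment_ends hu' hu he with ⟨rfl, rfl⟩ | ⟨rfl, rfl⟩
    · exact absurd hzT (hlow ht2)
    · exact ⟨T, hT, ht2⟩

/-! ### Tiles at a common corner -/

theorem im_zero {δ : ℂ} (hn : ‖δ‖ = 1) (h0 : δ.im = 0) : δ.re = 1 ∨ δ.re = -1 := by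
  have hsq : δ.re * δ.re = 1 := by
    have := Complex.normSq_eq_norm_sq δ
    rw [hn, Complex.normSq_apply, h0] at this
    linarith
  exact mul_self_eq_one_iff.1 hsq

theorem unit_inv {δ : ℂ} (hn : ‖δ‖ = 1) : δ⁻¹ = conj δ := by
  rw [Complex.inv_def, Complex.normSq_eq_norm_sq, hn]; simp

theorem tile_end {a u : ℂ} {T : Set ℂ} (hu : ‖u‖ = 1) (hT : Tile a u T) : a ∈ T ∧ a + u ∈ T := by
  have h0 := tile_side hu hT (x := 0) le_rfl zero_le_one
  have h1 := tile_side hu hT (x := 1) zero_le_one le_rfl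
  exact ⟨by simpa using h0, by simpa using h1⟩

theorem tile_dir {v x y : ℂ} {T : Set ℂ} (hx : ‖x‖ = 1) (hy : ‖y‖ = 1) (h1 : Tile v x T) (h2 : Tile v y T) :
    x = y := by
  have hx0 := ne_zero_of_norm hx
  have hy0 := ne_zero_of_norm hy
  obtain ⟨δ, hδ⟩ : ∃ δ, δ = y / x := ⟨_, rfl⟩
  have hyx : y = δ * x := by rw [hδ]; field_simp
  have hn : ‖δ‖ = 1 := by rw [hδ, norm_div, hx, hy, div_one]
  have hδ0 := ne_zero_of_norm hn
  have hxy : x = conj δ * y := by
    rw [← unit_inv hn, hyx]; field_simp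
  have m1 : v + δ * x ∈ T := by rw [← hyx]; exact (tile_end hy h2).2
  have m2 : v + conj δ * y ∈ T := by rw [← hxy]; exact (tile_end hx h1).2
  have l1 := tile_low hx h1 m1
  have l2 := tile_low hy h2 m2
  rw [Complex.conj_im] at l2
  have i0 : δ.im = 0 := by linarith
  have l3 := tile_line hx h1 m1 i0
  rcases im_zero hn i0 with h | h
  · have : δ = 1 := Complex.ext h i0
    rw [hyx, this, one_mul]
  · rw [h] at l3; linarith [l3.1]

theorem tri_ne_sq' {v x y : ℂ} (hx : ‖x‖ = 1) (hy : ‖y‖ = 1) : tri v x ≠ sq v y := by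
  intro he
  have hx0 := ne_zero_of_norm hx
  have hy0 := ne_zero_of_norm hy
  obtain ⟨δ, hδ⟩ : ∃ δ, δ = y / x := ⟨_, rfl⟩
  have hyx : y = δ * x := by rw [hδ]; field_simp
  have hn : ‖δ‖ = 1 := by rw [hδ, norm_div, hx, hy, div_one]
  have m1 : v + δ * x ∈ tri v x := by rw [he, ← hyx]; exact (tile_end hy (Or.inr rfl)).2
  have m2 : v + (I * δ) * x ∈ tri v x := by
    have : v + (I * δ) * x = v + I * y := by rw [hyx]; ring
    rw [this, he, mem_sq hy0]; simp
  rw [mem_tri hx0] at m1 m2
  simp at m2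
  have hp := r3_pos
  have hre : δ.re = 0 := by nlinarith [m1.1, m2.1, m2.2.1]
  have him : δ.im = 0 := by nlinarith [m1.1, m2.1, m2.2.1, m1.2.1]
  have : δ = 0 := Complex.ext hre him
  rw [this] at hn; simp at hn

/-- Where a point of a tile lies. -/
theorem tile_class {T : Set ℂ} (hT : IsTri T ∨ IsSq T) {z : ℂ} (hz : z ∈ T) : z ∈ interior T ∨
    (∃ (p d : ℂ) (x : ℝ), ‖d‖ = 1 ∧ Tile p d T ∧ 0 < x ∧ x < 1 ∧ z = p + x * d) ∨ IsCorner T z := by
  have hp := r3_pos
  have h33 := r3_sq
  have hζ := zeta_norm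
  rcases hT with ⟨a, u, hu, rfl⟩ | ⟨a, u, hu, rfl⟩
  · have hu0 := ne_zero_of_norm hu
    obtain ⟨w, rfl⟩ : ∃ w, z = a + w * u := ⟨_, coord hu0 z⟩
    obtain ⟨h1, h2, h3⟩ := (mem_tri hu0 w).1 hz
    rcases lt_or_eq_of_le h1 with h1 | h1
    · rcases lt_or_eq_of_le h2 with h2 | h2
      · rcases lt_or_eq_of_le h3 with h3 | h3
        · exact Or.inl (tri_int hu0 h1 h2 h3)
        · right
          have hd : ‖(ζ - 1) * u‖ = 1 := by
            rw [norm_mul, hu, mul_one, ← zeta_sq, norm_mul, hζ, mul_one]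
          have hx1 : w.re < 1 := by nlinarith
          have hx0 : 1 / 2 ≤ w.re := by nlinarith
          have e : a + w * u = a + u + (((2 * (1 - w.re) : ℝ) : ℂ)) * ((ζ - 1) * u) := by
            have : w = 1 + ((2 * (1 - w.re) : ℝ) : ℂ) * (ζ - 1) := by
              apply Complex.ext
              · simp [zeta_re, zeta_im]; ring
              · simp [zeta_re, zeta_im]; nlinarith
            conv_lhs => rw [this]
            ring
          rcases lt_or_eq_of_le hx0 with hx0 | hx0
          · left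
            refine ⟨a + u, (ζ - 1) * u, 2 * (1 - w.re), hd, Or.inl (tri_rot a u), by linarith, by linarith, e⟩
          · right
            refine ⟨-ζ * u, by rw [norm_mul, norm_neg, hζ, hu, mul_one], Or.inl ?_⟩
            rw [e, ← hx0, tri_rot']
            congr 1
            push_cast; ring
      · right
        have hx1 : w.re ≤ 1 / 2 := by nlinarith
        have hx0 : 0 < w.re := by nlinarith
        have hd : ‖-ζ * u‖ = 1 := by rw [norm_mul, norm_neg, hζ, hu, mul_one]
        have e : a + w * u = a + ζ * u + (((1 - 2 * w.re : ℝ) : ℂ)) * (-ζ * u) := by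
          have : w = ζ - ((1 - 2 * w.re : ℝ) : ℂ) * ζ := by
            apply Complex.ext
            · simp [zeta_re, zeta_im]; ring
            · simp [zeta_re, zeta_im]; nlinarith
          conv_lhs => rw [this]
          ring
        rcases lt_or_eq_of_le hx1 with hx1 | hx1
        · left
          exact ⟨_, _, 1 - 2 * w.re, hd, Or.inl (tri_rot' a u), by linarith, by linarith, e⟩
        · right
          refine ⟨-ζ * u, hd, Or.inl ?_⟩
          rw [e, hx1, tri_rot' a u]
          congr 1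
          push_cast; ring
    · right
      have hx0 : 0 ≤ w.re := by rw [← h1, mul_zero] at h2; linarith
      have hx1 : w.re ≤ 1 := by rw [← h1, mul_zero] at h3; linarith
      have hw : w = (w.re : ℂ) := Complex.ext (by simp) (by simp [← h1])
      rcases lt_or_eq_of_le hx0 with hx0 | hx0
      · rcases lt_or_eq_of_le hx1 with hx1 | hx1
        · left
          exact ⟨a, u, w.re, hu, Or.inl rfl, hx0, hx1, by rw [← hw]⟩
        · right
          refine ⟨(ζ - 1) * u, by rw [norm_mul, hu, mul_one, ← zeta_sq, norm_mul, hζ, mul_one], Or.inl ?_⟩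
          rw [hw, hx1, tri_rot a u]
          congr 1
          push_cast; ring
      · right
        refine ⟨u, hu, Or.inl ?_⟩
        rw [hw, ← hx0]
        congr 1
        simp
  · have hu0 := ne_zero_of_norm hu
    obtain ⟨w, rfl⟩ : ∃ w, z = a + w * u := ⟨_, coord hu0 z⟩
    obtain ⟨h1, h2, h3, h4⟩ := (mem_sq hu0 w).1 hz
    have hI : ‖I * u‖ = 1 := by rw [norm_mul, Complex.norm_I, hu, mul_one]
    have hI' : ‖-I * u‖ = 1 := by rw [norm_mul, norm_neg, Complex.norm_I, hu, mul_one]
    have hn : ‖-u‖ = 1 := by rw [norm_neg, hu]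
    rcases lt_or_eq_of_le h3 with h3 | h3
    · rcases lt_or_eq_of_le h4 with h4 | h4
      · rcases lt_or_eq_of_le h1 with h1 | h1
        · rcases lt_or_eq_of_le h2 with h2 | h2
          · exact Or.inl (sq_int hu0 h1 h2 h3 h4)
          · right; left
            refine ⟨a + u, I * u, w.im, hI, Or.inr (sq_rot a u), h3, h4, ?_⟩
            have : w = 1 + (w.im : ℂ) * I := Complex.ext (by simp [h2]) (by simp)
            conv_lhs => rw [this]
            ring
        · right; left
          refine ⟨a + I * u, -I * u, 1 - w.im, hI', Or.inr (sq_rot3 a u), by linarith, by linarith, ?_⟩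
          have : w = (w.im : ℂ) * I := Complex.ext (by simp [← h1]) (by simp)
          conv_lhs => rw [this]
          push_cast
          ring
      · right
        have : w = (w.re : ℂ) + I := Complex.ext (by simp) (by simp [h4])
        rcases lt_or_eq_of_le h1 with h1 | h1
        · rcases lt_or_eq_of_le h2 with h2 | h2
          · left
            refine ⟨a + u + I * u, -u, 1 - w.re, hn, Or.inr (sq_rot2 a u), by linarith, by linarith, ?_⟩
            conv_lhs => rw [this]
            push_cast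
            ring
          · right
            refine ⟨-u, hn, Or.inr ?_⟩
            rw [this, h2, sq_rot2 a u]
            congr 1
            push_cast; ring
        · right
          refine ⟨-I * u, hI', Or.inr ?_⟩
          rw [this, ← h1, sq_rot3 a u]
          congr 1
          push_cast; ring
    · right
      have : w = (w.re : ℂ) := Complex.ext (by simp) (by simp [← h3])
      rcases lt_or_eq_of_le h1 with h1 | h1
      · rcases lt_or_eq_of_le h2 with h2 | h2
        · left
          exact ⟨a, u, w.re, hu, Or.inr rfl, h1, h2, by rw [← this]⟩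
        · right
          refine ⟨I * u, hI, Or.inr ?_⟩
          rw [this, h2, sq_rot a u]
          congr 1
          push_cast; ring
      · right
        refine ⟨u, hu, Or.inr ?_⟩
        rw [this, ← h1]
        congr 1
        simp

theorem zeta_one_norm : ‖ζ - 1‖ = 1 := by
  rw [← zeta_sq, norm_mul, zeta_norm, one_mul]

theorem tri_diam {a u : ℂ} (hu : ‖u‖ = 1) {z z' : ℂ} (hz : z ∈ tri a u) (hz' : z' ∈ tri a u) :
    dist z z' ≤ 1 := by
  have hζ := zeta_norm
  have key : ∀ c ∈ ({a, a + u, a + ζ * u} : Set ℂ), tri a u ⊆ Metric.closedBall c 1 := by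
    intro c hc
    unfold tri
    apply convexHull_min _ (convex_closedBall c 1)
    rintro x hx
    rw [Metric.mem_closedBall, dist_eq_norm]
    rcases hc with rfl | rfl | rfl <;> rcases hx with rfl | rfl | rfl
    · simp
    · simp [hu]
    · simp [hζ, hu]
    · have : x - (x + u) = -u := by ring
      rw [this, norm_neg, hu]
    · simp
    · have : a + ζ * u - (a + u) = (ζ - 1) * u := by ring
      rw [this, norm_mul, zeta_one_norm, hu, one_mul]
    · have : x - (x + ζ * u) = -(ζ * u) := by ring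
      rw [this, norm_neg, norm_mul, hζ, hu, one_mul]
    · have : a + u - (a + ζ * u) = -((ζ - 1) * u) := by ring
      rw [this, norm_neg, norm_mul, zeta_one_norm, hu, one_mul]
    · simp
  have h2 : tri a u ⊆ Metric.closedBall z' 1 := by
    apply convexHull_min _ (convex_closedBall z' 1)
    intro c hc
    have := key c hc hz'
    rw [Metric.mem_closedBall] at this ⊢
    rw [dist_comm]; exact this
  exact h2 hz

/-- A triangle is not a square. -/
theorem tri_ne_sq {T : Set ℂ} (h : IsTri T) (h' : IsSq T) : False := by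
  obtain ⟨a, u, hu, rfl⟩ := h
  obtain ⟨v, y, hy, hT⟩ := h'
  have hy0 := ne_zero_of_norm hy
  have m1 : v ∈ tri a u := by rw [hT]; exact (tile_end hy (Or.inr rfl)).1
  have m2 : v + (1 + I) * y ∈ tri a u := by
    rw [hT, mem_sq hy0]; simp
  have h1 := tri_diam hu m2 m1
  rw [dist_eq_norm, add_sub_cancel_left, norm_mul, hy, mul_one] at h1
  have h2 : ‖(1 + I : ℂ)‖ ^ 2 = 2 := by
    rw [← Complex.normSq_eq_norm_sq, Complex.normSq_apply]; simp; norm_num
  nlinarith [norm_nonneg (1 + I : ℂ)]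

end Pool.Agent.R175.TriSq
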