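import Mathlib
import Pool.Agent.R175.TriSq.Arr

/-!
# Rows of squares and rows of triangles in a convex patch
-/

set_option autoImplicit false

namespace Pool.Agent.R175.TriSq

open Set Complex ComplexConjugate Pool.Agent.R175.TriGeo Topology

/-- At most three triangles and at most two squares meet at each corner. -/
structure Adm (Q : Set (Set ℂ)) : Prop where
  arr : IsArrangement Q
  fin : Q.Finite
  tri3 : ∀ v, (∃ T ∈ Q, IsCorner T v) → {T | T ∈ Q ∧ IsTri T ∧ v ∈ T}.encard ≤ 3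
  sq2 : ∀ v, (∃ T ∈ Q, IsCorner T v) → {T | T ∈ Q ∧ IsSq T ∧ v ∈ T}.encard ≤ 2

variable {Q : Set (Set ℂ)}

theorem mul_ne {u c c' : ℂ} (hu : u ≠ 0) (h : c ≠ c') : c * u ≠ c' * u := fun he => h (mul_right_cancel₀ hu he)

theorem no3sq (h : Adm Q) {u v : ℂ} (hu : ‖u‖ = 1) {x y z : ℂ} (hx : ‖x‖ = 1) (hy : ‖y‖ = 1) (hz : ‖z‖ = 1)
    (hxy : x ≠ y) (hxz : x ≠ z) (hyz : y ≠ z) (h1 : sq v (x * u) ∈ Q) (h2 : sq v (y * u) ∈ Q)
    (h3 : sq v (z * u) ∈ Q) : False := by
  have hu0 := ne_zero_of_norm hu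
  have nx : ‖x * u‖ = 1 := by rw [norm_mul, hx, hu, one_mul]
  have ny : ‖y * u‖ = 1 := by rw [norm_mul, hy, hu, one_mul]
  have nz : ‖z * u‖ = 1 := by rw [norm_mul, hz, hu, one_mul]
  have hne : ∀ {x y : ℂ}, ‖x * u‖ = 1 → ‖y * u‖ = 1 → x ≠ y → sq v (x * u) ≠ sq v (y * u) := by
    intro x y nx ny hxy he
    exact mul_ne hu0 hxy (tile_dir nx ny (T := sq v (x * u)) (Or.inr rfl) (Or.inr he))
  have hsub : ({sq v (x * u), sq v (y * u), sq v (z * u)} : Set (Set ℂ)) ⊆
      {T | T ∈ Q ∧ IsSq T ∧ v ∈ T} := by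
    rintro T (rfl | rfl | rfl)
    · exact ⟨h1, ⟨_, _, nx, rfl⟩, (tile_end nx (Or.inr rfl)).1⟩
    · exact ⟨h2, ⟨_, _, ny, rfl⟩, (tile_end ny (Or.inr rfl)).1⟩
    · exact ⟨h3, ⟨_, _, nz, rfl⟩, (tile_end nz (Or.inr rfl)).1⟩
  have hc : ({sq v (x * u), sq v (y * u), sq v (z * u)} : Set (Set ℂ)).encard = 3 := by
    rw [Set.encard_eq_three]
    exact ⟨_, _, _, hne nx ny hxy, hne nx nz hxz, hne ny nz hyz, rfl⟩
  have := (encard_le_encard hsub).trans (h.sq2 v ⟨_, h1, _, nx, Or.inr rfl⟩)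
  rw [hc] at this
  exact absurd this (by norm_num)

theorem no4tri (h : Adm Q) {u v : ℂ} (hu : ‖u‖ = 1) {x y z t : ℂ} (hx : ‖x‖ = 1) (hy : ‖y‖ = 1) (hz : ‖z‖ = 1)
    (ht : ‖t‖ = 1) (hxy : x ≠ y) (hxz : x ≠ z) (hxt : x ≠ t) (hyz : y ≠ z) (hyt : y ≠ t) (hzt : z ≠ t)
    (h1 : tri v (x * u) ∈ Q) (h2 : tri v (y * u) ∈ Q) (h3 : tri v (z * u) ∈ Q) (h4 : tri v (t * u) ∈ Q) :
    False := by
  have hu0 := ne_zero_of_norm hu
  have nx : ‖x * u‖ = 1 := by rw [norm_mul, hx, hu, one_mul]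
  have ny : ‖y * u‖ = 1 := by rw [norm_mul, hy, hu, one_mul]
  have nz : ‖z * u‖ = 1 := by rw [norm_mul, hz, hu, one_mul]
  have nt : ‖t * u‖ = 1 := by rw [norm_mul, ht, hu, one_mul]
  have hne : ∀ {x y : ℂ}, ‖x * u‖ = 1 → ‖y * u‖ = 1 → x ≠ y → tri v (x * u) ≠ tri v (y * u) := by
    intro x y nx ny hxy he
    exact mul_ne hu0 hxy (tile_dir nx ny (T := tri v (x * u)) (Or.inl rfl) (Or.inl he))
  have hsub : ({tri v (x * u), tri v (y * u), tri v (z * u), tri v (t * u)} : Set (Set ℂ)) ⊆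
      {T | T ∈ Q ∧ IsTri T ∧ v ∈ T} := by
    rintro T (rfl | rfl | rfl | rfl)
    · exact ⟨h1, ⟨_, _, nx, rfl⟩, (tile_end nx (Or.inl rfl)).1⟩
    · exact ⟨h2, ⟨_, _, ny, rfl⟩, (tile_end ny (Or.inl rfl)).1⟩
    · exact ⟨h3, ⟨_, _, nz, rfl⟩, (tile_end nz (Or.inl rfl)).1⟩
    · exact ⟨h4, ⟨_, _, nt, rfl⟩, (tile_end nt (Or.inl rfl)).1⟩
  have hc : ({tri v (x * u), tri v (y * u), tri v (z * u), tri v (t * u)} : Set (Set ℂ)).encard = 4 := by
    rw [encard_insert_of_notMem, encard_insert_of_notMem, encard_pair (hne nz nt hzt)]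
    · norm_num
    · rintro (he | he)
      · exact hne ny nz hyz he
      · exact hne ny nt hyt he
    · rintro (he | he | he)
      · exact hne nx ny hxy he
      · exact hne nx nz hxz he
      · exact hne nx nt hxt he
  have := (encard_le_encard hsub).trans (h.tri3 v ⟨_, h1, _, nx, Or.inl rfl⟩)
  rw [hc] at this
  exact absurd this (by norm_num)

theorem ne_re {x y : ℂ} (h : x.re ≠ y.re) : x ≠ y := fun he => h (by rw [he])
theorem ne_im {x y : ℂ} (h : x.im ≠ y.im) : x ≠ y := fun he => h (by rw [he])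

/-- A row of triangles lies on top of a row of squares. -/
theorem sq_to_tr (h : Adm Q) {n : ℕ} (hn : 2 ≤ n) {a u : ℂ} (hu : ‖u‖ = 1)
    (hrow : ∀ j : ℕ, j < n → sq (a + j * u) u ∈ Q)
    (hint : ∀ j : ℕ, j < n → a + I * u + j * u + u / 2 ∈ interior (⋃₀ Q)) :
    ∀ j : ℕ, j < n → tri (a + I * u + j * u) u ∈ Q := by
  intro j hj
  have hS := hrow j hj
  have hnu : ‖-u‖ = 1 := by rw [norm_neg, hu]
  have hI1 : ‖(-1 : ℂ)‖ = 1 := by simp
  have hI2 : ‖(-I : ℂ)‖ = 1 := by simp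
  obtain ⟨T, hT, ht⟩ := across h.arr h.fin hS (p := a + j * u + u + I * u) (d := -u) hnu
    (Or.inr (sq_rot2 _ _)) (by
      have := hint j hj
      have e : a + j * u + u + I * u + -u / 2 = a + I * u + j * u + u / 2 := by ring
      rw [e]; exact this)
  have e1 : a + j * u + u + I * u + -u = a + I * u + j * u := by ring
  rw [e1, neg_neg] at ht
  rcases ht with rfl | rfl
  · exact hT
  · exfalso
    rcases j with _ | i
    · have h2 := hrow 1 (by omega)
      refine no3sq h hu (v := a + I * u + u) (x := I) (y := -1) (z := -I) (by simp) hI1 hI2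
        (ne_re (by simp)) (ne_im (by simp; norm_num)) (ne_re (by simp)) ?_ ?_ ?_
      · have e : sq (a + I * u + ((0 : ℕ) : ℂ) * u) u = sq (a + I * u + u) (I * u) := by
          rw [sq_rot]; simp
        rw [← e]; exact hT
      · have e : sq (a + ((0 : ℕ) : ℂ) * u) u = sq (a + I * u + u) (-1 * u) := by
          rw [sq_rot2]; congr 1
          · push_cast; ring
          · ring
        rw [← e]; exact hS
      · have e : sq (a + ((1 : ℕ) : ℂ) * u) u = sq (a + I * u + u) (-I * u) := by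
          rw [sq_rot3]; congr 1
          push_cast; ring
        rw [← e]; exact h2
    · have h2 := hrow i (by omega)
      refine no3sq h hu (v := a + I * u + ((i + 1 : ℕ) : ℂ) * u) (x := 1) (y := -1) (z := -I) (by simp) hI1 hI2
        (ne_re (by simp; norm_num)) (ne_re (by simp)) (ne_re (by simp)) ?_ ?_ ?_
      · rw [one_mul]; exact hT
      · have e : sq (a + (i : ℂ) * u) u = sq (a + I * u + ((i + 1 : ℕ) : ℂ) * u) (-1 * u) := by
          rw [sq_rot2]; congr 1
          · push_cast; ring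
          · ring
        rw [← e]; exact h2
      · have e : sq (a + ((i + 1 : ℕ) : ℂ) * u) u = sq (a + I * u + ((i + 1 : ℕ) : ℂ) * u) (-I * u) := by
          rw [sq_rot3]; congr 1
          ring
        rw [← e]; exact hS

/-- A row of squares lies on top of a row of triangles. -/
theorem tr_to_sq (h : Adm Q) {n : ℕ} (hn : 3 ≤ n) {b u : ℂ} (hu : ‖u‖ = 1)
    (hrow : ∀ j : ℕ, j < n → tri (b + j * u) u ∈ Q)
    (hint1 : ∀ j : ℕ, j + 1 < n → b + j * u + u + (ζ - 1) * u / 2 ∈ interior (⋃₀ Q))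
    (hint2 : ∀ j : ℕ, j + 1 < n → b + ζ * u + j * u + u / 2 ∈ interior (⋃₀ Q)) :
    ∀ j : ℕ, j + 1 < n → sq (b + ζ * u + j * u) u ∈ Q := by
  have hp := r3_pos
  have h33 := r3_sq
  have hlo := r3_lo
  have hhi := r3_hi
  have hu0 := ne_zero_of_norm hu
  have n1 : ‖(-1 : ℂ)‖ = 1 := by simp
  have n2 : ‖(1 - ζ : ℂ)‖ = 1 := by
    have : (1 - ζ : ℂ) = -(ζ - 1) := by ring
    rw [this, norm_neg, zeta_one_norm]
  have n3 : ‖(-ζ : ℂ)‖ = 1 := by rw [norm_neg, zeta_norm]
  have inv : ∀ j : ℕ, j + 1 < n → tri (b + ζ * u + j * u) ((1 - ζ) * u) ∈ Q := by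
    intro j hj
    have hS := hrow j (by omega)
    have hd : ‖(ζ - 1) * u‖ = 1 := by rw [norm_mul, zeta_one_norm, hu, one_mul]
    obtain ⟨T, hT, ht⟩ := across h.arr h.fin hS (p := b + j * u + u) (d := (ζ - 1) * u) hd
      (Or.inl (tri_rot _ _)) (hint1 j hj)
    have e1 : b + j * u + u + (ζ - 1) * u = b + ζ * u + j * u := by ring
    have e2 : -((ζ - 1) * u) = (1 - ζ) * u := by ring
    rw [e1, e2] at ht
    rcases ht with rfl | rfl
    · exact hT
    · exfalso
      have hS' := hrow (j + 1) hj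
      have hd2 : ‖(1 - ζ) * u‖ = 1 := by rw [norm_mul, n2, hu, one_mul]
      have i1 : b + ((j + 1 : ℕ) : ℂ) * u + (⟨4 / 10, 35 / 100⟩ : ℂ) * u ∈ interior (tri (b + ((j + 1 : ℕ) : ℂ) * u) u) := by
        apply tri_int hu0 <;> simp only [] <;> linarith
      have i2 : b + ζ * u + j * u + (1 + ζ * ⟨4 / 10, 35 / 100⟩) * ((1 - ζ) * u) ∈
          interior (sq (b + ζ * u + j * u) ((1 - ζ) * u)) := by
        apply sq_int (ne_zero_of_norm hd2) <;> simp [zeta_re, zeta_im] <;> linarith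
      have e3 : b + ζ * u + j * u + (1 + ζ * ⟨4 / 10, 35 / 100⟩) * ((1 - ζ) * u) =
          b + ((j + 1 : ℕ) : ℂ) * u + (⟨4 / 10, 35 / 100⟩ : ℂ) * u := by
        push_cast
        linear_combination (-(⟨4 / 10, 35 / 100⟩ : ℂ) * u) * zeta_sq
      rw [e3] at i2
      have he := no_overlap h.arr hS' hT i1 i2
      exact tri_ne_sq ⟨_, _, hu, rfl⟩ ⟨_, _, hd2, he⟩
  have inv2 : ∀ j : ℕ, j + 1 < n → tri (b + ζ * u + j * u + u) (-u) ∈ Q := by
    intro j hj
    have := inv j hj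
    rw [tri_rot'] at this
    have e1 : b + ζ * u + j * u + ζ * ((1 - ζ) * u) = b + ζ * u + j * u + u := by
      linear_combination (-u) * zeta_sq
    have e2 : -ζ * ((1 - ζ) * u) = -u := by linear_combination u * zeta_sq
    rw [e1, e2] at this
    exact this
  intro j hj
  obtain ⟨T, hT, ht⟩ := across h.arr h.fin (inv2 j hj) (p := b + ζ * u + j * u + u) (d := -u)
    (by rw [norm_neg, hu]) (Or.inl rfl) (by
      have := hint2 j hj
      have e : b + ζ * u + j * u + u + -u / 2 = b + ζ * u + j * u + u / 2 := by ring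
      rw [e]; exact this)
  rw [add_neg_cancel_right, neg_neg] at ht
  rcases ht with rfl | rfl
  · exfalso
    rcases j with _ | i
    · have t1 : tri (b + ζ * u + u) ((ζ - 1) * u) ∈ Q := by
        have e : tri (b + ζ * u + ((0 : ℕ) : ℂ) * u) u = tri (b + ζ * u + u) ((ζ - 1) * u) := by
          rw [tri_rot]; congr 1
          push_cast; ring
        rw [← e]; exact hT
      have t2 : tri (b + ζ * u + u) (-1 * u) ∈ Q := by
        have := inv2 0 hj
        have e : b + ζ * u + ((0 : ℕ) : ℂ) * u + u = b + ζ * u + u := by push_cast; ring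
        rw [e] at this
        rw [neg_one_mul]; exact this
      have t3 : tri (b + ζ * u + u) (-ζ * u) ∈ Q := by
        have := hrow 1 (by omega)
        rw [tri_rot'] at this
        have e : b + ((1 : ℕ) : ℂ) * u + ζ * u = b + ζ * u + u := by push_cast; ring
        rw [e] at this
        exact this
      have t4 : tri (b + ζ * u + u) ((1 - ζ) * u) ∈ Q := by
        have := inv 1 (by omega)
        have e : b + ζ * u + ((1 : ℕ) : ℂ) * u = b + ζ * u + u := by push_cast; ring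
        rw [e] at this
        exact this
      refine no4tri h hu zeta_one_norm n1 n3 n2 ?_ ?_ ?_ ?_ ?_ ?_ t1 t2 t3 t4
      · exact ne_im (by simp [zeta_im]; positivity)
      · exact ne_im (by simp [zeta_im]; intro h; linarith)
      · exact ne_im (by simp [zeta_im]; intro h; linarith)
      · exact ne_im (by simp [zeta_im]; positivity)
      · exact ne_im (by simp [zeta_im]; positivity)
      · exact ne_re (by simp [zeta_re]; norm_num)
    · have t1 : tri (b + ζ * u + ((i + 1 : ℕ) : ℂ) * u) (1 * u) ∈ Q := by rw [one_mul]; exact hT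
      have t2 : tri (b + ζ * u + ((i + 1 : ℕ) : ℂ) * u) (-1 * u) ∈ Q := by
        have := inv2 i (by omega)
        have e : b + ζ * u + (i : ℂ) * u + u = b + ζ * u + ((i + 1 : ℕ) : ℂ) * u := by push_cast; ring
        rw [e] at this
        rw [neg_one_mul]; exact this
      have t3 : tri (b + ζ * u + ((i + 1 : ℕ) : ℂ) * u) (-ζ * u) ∈ Q := by
        have := hrow (i + 1) (by omega)
        rw [tri_rot'] at this
        have e : b + ((i + 1 : ℕ) : ℂ) * u + ζ * u = b + ζ * u + ((i + 1 : ℕ) : ℂ) * u := by ring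
        rw [e] at this
        exact this
      have t4 : tri (b + ζ * u + ((i + 1 : ℕ) : ℂ) * u) ((1 - ζ) * u) ∈ Q := inv (i + 1) hj
      refine no4tri h hu norm_one n1 n3 n2 ?_ ?_ ?_ ?_ ?_ ?_ t1 t2 t3 t4
      · exact ne_re (by simp; norm_num)
      · exact ne_im (by simp [zeta_im]; positivity)
      · exact ne_im (by simp [zeta_im]; positivity)
      · exact ne_im (by simp [zeta_im]; positivity)
      · exact ne_im (by simp [zeta_im]; positivity)
      · exact ne_re (by simp [zeta_re]; norm_num)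
  · exact hT

end Pool.Agent.R175.TriSq
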