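import Mathlib
import Pool.Agent.R175.TriSq.Rows

/-!
# From the boundary of a convex patch to its middle
-/

set_option autoImplicit false

namespace Pool.Agent.R175.TriSq

open Set Complex ComplexConjugate Pool.Agent.R175.TriGeo Topology

variable {Q : Set (Set ℂ)}

/-- The points of the triangle spanned by a segment in `K` and a deep point of `K` are interior to `K`. -/
theorem int_lemma {K : Set ℂ} (hK : Convex ℝ K) {f u : ℂ} {d c x0 x1 : ℝ} (hd : 0 < d) (hc : 0 < c)
    (hq : f + ((d : ℂ) * I) * u ∈ interior K) (h0 : -x0 < c * d) (h1 : x1 < c * d)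
    (hb : ∀ x : ℝ, x0 ≤ x → x ≤ x1 → f + (x : ℂ) * u ∈ K) {x y : ℝ} (hy : 0 < y)
    (hw0 : x0 + c * y ≤ x) (hw1 : x ≤ x1 - c * y) : f + ((x : ℂ) + (y : ℂ) * I) * u ∈ interior K := by
  have hyd : y < d := by
    have : 2 * (c * y) < 2 * (c * d) := by linarith
    have : c * y < c * d := by linarith
    exact lt_of_mul_lt_mul_left this hc.le
  obtain ⟨l, hl⟩ : ∃ l : ℝ, l = y / d := ⟨_, rfl⟩
  have hly : l * d = y := by rw [hl]; field_simp
  have hl0 : 0 < l := by rw [hl]; positivity
  have hl1 : l < 1 := by rw [hl]; exact (div_lt_one hd).2 hyd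
  have hl1' : 0 < 1 - l := by linarith
  obtain ⟨x', hx'⟩ : ∃ x' : ℝ, x' = x / (1 - l) := ⟨_, rfl⟩
  have hxx : x' * (1 - l) = x := by rw [hx']; field_simp
  have a0 : x0 ≤ x' := by
    rw [hx', le_div_iff₀ hl1']
    have : -x0 * l ≤ c * y := by
      rw [← hly]
      nlinarith
    nlinarith
  have a1 : x' ≤ x1 := by
    rw [hx', div_le_iff₀ hl1']
    have : x1 * l ≤ c * y := by
      rw [← hly]
      nlinarith
    nlinarith
  have := hK.combo_interior_self_mem_interior hq (hb x' a0 a1) hl0 hl1'.le (by ring)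
  convert this using 1
  simp only [Complex.real_smul]
  rw [← hxx, ← hly]
  push_cast
  ring

theorem c_pos : 0 < 2 - r3 := by linarith [r3_lt]
theorem c_mul : (2 - r3) * (1 + r3 / 2) = 1 / 2 := by
  have := r3_sq
  nlinarith

/-- Two squares near the top of the triangle. -/
theorem descend (h : Adm Q) (hK : Convex ℝ (⋃₀ Q)) {f u : ℂ} (hu : ‖u‖ = 1) {d x0 x1 : ℝ} (hd : 0 < d)
    (hq : f + ((d : ℂ) * I) * u ∈ interior (⋃₀ Q)) (h0 : -x0 < (2 - r3) * d) (h1 : x1 < (2 - r3) * d)
    (hb : ∀ x : ℝ, x0 ≤ x → x ≤ x1 → f + (x : ℂ) * u ∈ ⋃₀ Q) (m : ℕ) :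
    ∀ x y : ℝ, 0 ≤ y → x0 + (2 - r3) * y ≤ x → x + m + 2 ≤ x1 - (2 - r3) * y →
      (∀ j : ℕ, j < m + 2 → sq (f + ((x : ℂ) + (y : ℂ) * I) * u + j * u) u ∈ Q) →
      ∀ j : ℕ, j < 2 → sq (f + (((x + m / 2 : ℝ) : ℂ) + ((y + m * (1 + r3 / 2) : ℝ) : ℂ) * I) * u + j * u) u ∈ Q := by
  induction m with
  | zero =>
    intro x y hy hx0 hx1 hrow j hj
    have := hrow j (by omega)
    simpa using this
  | succ m ih =>
    intro x y hy hx0 hx1 hrow
    have hcp := c_pos
    have hcm := c_mul
    have hp := r3_pos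
    have hlo := r3_lo
    have hhi := r3_hi
    have hc1 : (2 - r3) < 1 / 2 := by linarith
    push_cast at hx1
    have key := @int_lemma (⋃₀ Q) hK f u d (2 - r3) x0 x1 hd hcp hq h0 h1 hb
    have s1 := sq_to_tr h (n := m + 3) (by omega) hu hrow (by
      intro j hj
      have hj' : (j : ℝ) ≤ m + 2 := by
        have : j ≤ m + 2 := by omega
        exact_mod_cast this
      have hj0 : (0 : ℝ) ≤ j := by positivity
      have := @key (x + j + 1 / 2) (y + 1) (by linarith) (by linarith) (by linarith)
      convert this using 1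
      push_cast
      ring)
    have s2 := tr_to_sq h (n := m + 3) (by omega) hu s1 (by
      intro j hj
      have hj' : (j : ℝ) ≤ m + 1 := by
        have : j ≤ m + 1 := by omega
        exact_mod_cast this
      have hj0 : (0 : ℝ) ≤ j := by positivity
      have := @key (x + j + 3 / 4) (y + 1 + r3 / 4) (by linarith) (by nlinarith) (by nlinarith)
      convert this using 1
      have hz : ζ = 1 / 2 + (r3 / 2 : ℂ) * I := by
        apply Complex.ext <;> simp [zeta_re, zeta_im]
      rw [hz]
      push_cast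
      ring) (by
      intro j hj
      have hj' : (j : ℝ) ≤ m + 1 := by
        have : j ≤ m + 1 := by omega
        exact_mod_cast this
      have hj0 : (0 : ℝ) ≤ j := by positivity
      have := @key (x + j + 1) (y + 1 + r3 / 2) (by linarith) (by nlinarith) (by nlinarith)
      convert this using 1
      have hz : ζ = 1 / 2 + (r3 / 2 : ℂ) * I := by
        apply Complex.ext <;> simp [zeta_re, zeta_im]
      rw [hz]
      push_cast
      ring)
    have s3 := ih (x + 1 / 2) (y + (1 + r3 / 2)) (by positivity) (by nlinarith) (by nlinarith) (by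
      intro j hj
      have := s2 j (by omega)
      convert this using 2
      have hz : ζ = 1 / 2 + (r3 / 2 : ℂ) * I := by
        apply Complex.ext <;> simp [zeta_re, zeta_im]
      rw [hz]
      push_cast
      ring)
    intro j hj
    have := s3 j hj
    convert this using 2
    push_cast
    ring

end Pool.Agent.R175.TriSq
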