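import Mathlib
import Pool.Agent.R175.TriSq.Rows

/-!
# The row of tiles along a supporting line of a convex patch
-/

set_option autoImplicit false

namespace Pool.Agent.R175.TriSq

open Set Complex ComplexConjugate Pool.Agent.R175.TriGeo Topology

/-- The line through `f` in the direction `u` supports `K`, and the disk of radius `d` touching it at `f` lies in
`K`. -/
structure Base (K : Set ℂ) (f u : ℂ) (d : ℝ) : Prop where
  hu : ‖u‖ = 1
  hd : 10 ≤ d
  conv : Convex ℝ K
  low : ∀ w : ℂ, f + w * u ∈ K → 0 ≤ w.im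
  ball : ∀ w : ℂ, ‖w - (d : ℂ) * I‖ < d → f + w * u ∈ interior K

variable {Q : Set (Set ℂ)} {f u : ℂ} {d : ℝ}

theorem ray {K : Set ℂ} (hB : Base K f u d) {x : ℝ} (hv : f + (x : ℂ) * u ∈ K) {e : ℂ} (he : ‖e‖ = 1)
    (h1 : |x| < d * e.im - x * e.re) (h2 : 1 / 2 ≤ d * e.im - x * e.re) :
    f + (x : ℂ) * u + e * u / 2 ∈ interior K := by
  obtain ⟨t, ht⟩ : ∃ t, t = d * e.im - x * e.re := ⟨_, rfl⟩
  rw [← ht] at h1 h2
  have hd := hB.hd
  have hee : e.re * e.re + e.im * e.im = 1 := by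
    have := Complex.normSq_eq_norm_sq e
    rw [he, Complex.normSq_apply] at this
    linarith
  have hxt : x * x < t * t := by
    have h3 := abs_nonneg x
    have : |x| * |x| < t * t := by nlinarith
    rwa [abs_mul_abs_self] at this
  have hfoot : ‖((x : ℂ) + (t : ℂ) * e) - (d : ℂ) * I‖ < d := by
    have hn : ‖((x : ℂ) + (t : ℂ) * e) - (d : ℂ) * I‖ ^ 2 < d ^ 2 := by
      rw [← Complex.normSq_eq_norm_sq, Complex.normSq_apply]
      simp
      have : (x + t * e.re) * (x + t * e.re) + (t * e.im - d) * (t * e.im - d) =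
          x * x + 2 * x * t * e.re + t * t * (e.re * e.re + e.im * e.im) - 2 * t * (d * e.im) + d * d := by ring
      rw [this, hee]
      have : d * e.im = t + x * e.re := by rw [ht]; ring
      rw [this]
      nlinarith
    exact lt_of_pow_lt_pow_left₀ 2 (by linarith) hn
  have hb := hB.ball _ hfoot
  have ht0 : 0 < t := by linarith
  obtain ⟨l, hl⟩ : ∃ l : ℝ, l = 1 / (2 * t) := ⟨_, rfl⟩
  have hlt : l * t = 1 / 2 := by rw [hl]; field_simp
  have hl0 : 0 < l := by rw [hl]; positivity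
  have hl1 : l ≤ 1 := by rw [hl, div_le_one (by positivity)]; linarith
  have := hB.conv.combo_interior_self_mem_interior hb hv hl0 (by linarith : 0 ≤ 1 - l) (by ring)
  convert this using 1
  simp only [Complex.real_smul]
  have hlt' : (l : ℂ) * (t : ℂ) = 1 / 2 := by
    rw [← Complex.ofReal_mul, hlt]; push_cast; ring
  push_cast
  linear_combination (-(e * u)) * hlt'

theorem low_right {K : Set ℂ} (hB : Base K f u d) {T : Set ℂ} (hTK : T ⊆ K) {x : ℝ} {e : ℂ} (he : ‖e‖ = 1)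
    (h : Tile (f + (x : ℂ) * u + e * u) (-(e * u)) T) : e.re ≤ e.im := by
  have hn : ‖-(e * u)‖ = 1 := by rw [norm_neg, norm_mul, he, hB.hu, one_mul]
  have := hTK (tile_mid hn h (ε := 1 / 2) (by norm_num) le_rfl)
  have e1 : f + (x : ℂ) * u + e * u + (1 / 2 + ((1 / 2 : ℝ) : ℂ) * I) * -(e * u) =
      f + ((x : ℂ) + (1 / 2 - ((1 / 2 : ℝ) : ℂ) * I) * e) * u := by ring
  rw [e1] at this
  have := hB.low _ this
  simp at this
  linarith

theorem low_left {K : Set ℂ} (hB : Base K f u d) {T : Set ℂ} (hTK : T ⊆ K) {x : ℝ} {e : ℂ} (he : ‖e‖ = 1)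
    (h : Tile (f + (x : ℂ) * u) (e * u) T) : -e.re ≤ e.im := by
  have hn : ‖e * u‖ = 1 := by rw [norm_mul, he, hB.hu, one_mul]
  have := hTK (tile_mid hn h (ε := 1 / 2) (by norm_num) le_rfl)
  have e1 : f + (x : ℂ) * u + (1 / 2 + ((1 / 2 : ℝ) : ℂ) * I) * (e * u) =
      f + ((x : ℂ) + (1 / 2 + ((1 / 2 : ℝ) : ℂ) * I) * e) * u := by ring
  rw [e1] at this
  have := hB.low _ this
  simp at this
  linarith

/-- `exp (π i / 6)`. -/
noncomputable def ρ : ℂ := ⟨r3 / 2, 1 / 2⟩

theorem rho_re : ρ.re = r3 / 2 := rfl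
theorem rho_im : ρ.im = 1 / 2 := rfl

theorem rho_norm : ‖ρ‖ = 1 := by
  have h : ‖ρ‖ ^ 2 = 1 := by
    rw [← Complex.normSq_eq_norm_sq, Complex.normSq_apply, rho_re, rho_im]
    have := r3_sq
    linarith
  have h0 := norm_nonneg ρ
  nlinarith

theorem zeta_rho : ζ * ρ = I := by
  have := r3_sq
  apply Complex.ext
  · simp [zeta_re, zeta_im, rho_re, rho_im]; ring
  · simp [zeta_re, zeta_im, rho_re, rho_im]; linarith

theorem I_rho : I * ρ = ζ - 1 := by
  apply Complex.ext
  · simp [zeta_re, rho_im]; norm_num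
  · simp [zeta_im, rho_re]

theorem rho_eq : ρ = I * (1 - ζ) := by
  linear_combination (-I) * I_rho + ρ * I_mul_I

theorem Izeta_norm : ‖I * ζ‖ = 1 := by rw [norm_mul, zeta_norm, Complex.norm_I, one_mul]

theorem mem_K {T : Set ℂ} (hT : T ∈ Q) {z : ℂ} (hz : z ∈ T) : z ∈ ⋃₀ Q := ⟨T, hT, hz⟩

theorem bound {x d : ℝ} (hd : 10 ≤ d) (_h0 : 0 ≤ x) (h1 : x < (2 - r3) * d) : x < 0.268 * d ∧ (2 - r3) * d ≤ 0.268 * d ∧
    r3 * x < (2 * r3 - 3) * d ∧ 1 < (2 - r3) * d := by
  have hlo := r3_lo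
  have hhi := r3_hi
  have hp := r3_pos
  have h33 := r3_sq
  refine ⟨by nlinarith, by nlinarith, ?_, by nlinarith⟩
  have : r3 * x < r3 * ((2 - r3) * d) := by nlinarith
  nlinarith

section
variable (h : Adm Q) (hB : Base (⋃₀ Q) f u d)
include h hB

theorem ext_right_sq {x : ℝ} (h0 : 0 ≤ x) (h1 : x < (2 - r3) * d) (hS : sq (f + (x : ℂ) * u - u) u ∈ Q) :
    sq (f + (x : ℂ) * u) u ∈ Q := by
  have hu := hB.hu
  have hd := hB.hd
  have hp := r3_pos
  have hlo := r3_lo
  have hhi := r3_hi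
  obtain ⟨b1, b2, b3, b4⟩ := bound hd h0 h1
  have hax : |x| = x := abs_of_nonneg h0
  have hIu : ‖I * u‖ = 1 := by rw [norm_mul, Complex.norm_I, hu, one_mul]
  have hρu : ‖ρ * u‖ = 1 := by rw [norm_mul, rho_norm, hu, one_mul]
  have hv : f + (x : ℂ) * u ∈ ⋃₀ Q := by
    have := (tile_end hu (T := sq (f + (x : ℂ) * u - u) u) (Or.inr rfl)).2
    rw [sub_add_cancel] at this
    exact mem_K hS this
  have hS1 : Tile (f + (x : ℂ) * u) (I * u) (sq (f + (x : ℂ) * u - u) u) := by
    right; rw [sq_rot, sub_add_cancel]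
  obtain ⟨T, hT, ht⟩ := across h.arr h.fin hS hIu hS1
    (ray hB hv Complex.norm_I (by rw [hax]; simp; linarith) (by simp; linarith))
  rcases ht with rfl | rfl
  · exfalso
    have hT1 : Tile (f + (x : ℂ) * u) (ρ * u) (tri (f + (x : ℂ) * u + I * u) (-(I * u))) := by
      left
      rw [tri_rot (f + (x : ℂ) * u + I * u)]
      congr 1
      · ring
      · linear_combination (-u) * rho_eq
    obtain ⟨T', hT', ht'⟩ := across h.arr h.fin hT hρu hT1
      (ray hB hv rho_norm (by rw [hax, rho_re, rho_im]; nlinarith) (by rw [rho_re, rho_im]; nlinarith))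
    have := low_right hB (fun z hz => mem_K hT' hz) rho_norm ht'
    rw [rho_re, rho_im] at this
    linarith
  · have : sq (f + (x : ℂ) * u + I * u) (-(I * u)) = sq (f + (x : ℂ) * u) u := by
      rw [sq_rot3 (f + (x : ℂ) * u) u, neg_mul]
    rw [this] at hT
    exact hT

theorem ext_left_sq {x : ℝ} (h0 : x ≤ 0) (h1 : -x < (2 - r3) * d) (hS : sq (f + (x : ℂ) * u) u ∈ Q) :
    sq (f + (x : ℂ) * u - u) u ∈ Q := by
  have hu := hB.hu
  have hd := hB.hd
  have hp := r3_pos
  have hlo := r3_lo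
  have hhi := r3_hi
  obtain ⟨b1, b2, b3, b4⟩ := bound hd (neg_nonneg.2 h0) h1
  have hax : |x| = -x := abs_of_nonpos h0
  have hIu : ‖-(I * u)‖ = 1 := by rw [norm_neg, norm_mul, Complex.norm_I, hu, one_mul]
  have hIζ : ‖I * ζ‖ = 1 := Izeta_norm
  have hIζu : ‖-(I * ζ * u)‖ = 1 := by rw [norm_neg, norm_mul, hIζ, hu, one_mul]
  have hv : f + (x : ℂ) * u ∈ ⋃₀ Q := mem_K hS (tile_end hu (Or.inr rfl)).1
  have hS1 : Tile (f + (x : ℂ) * u + I * u) (-(I * u)) (sq (f + (x : ℂ) * u) u) := by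
    right; rw [sq_rot3 (f + (x : ℂ) * u) u, neg_mul]
  obtain ⟨T, hT, ht⟩ := across h.arr h.fin hS hIu hS1 (by
    have := ray hB hv Complex.norm_I (by rw [hax]; simp; linarith) (by simp; linarith)
    convert this using 1
    ring)
  rw [neg_neg, add_neg_cancel_right] at ht
  rcases ht with rfl | rfl
  · exfalso
    have hT1 : Tile (f + (x : ℂ) * u + I * ζ * u) (-(I * ζ * u)) (tri (f + (x : ℂ) * u) (I * u)) := by
      left
      rw [tri_rot' (f + (x : ℂ) * u)]
      congr 1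
      · ring
      · ring
    obtain ⟨T', hT', ht'⟩ := across h.arr h.fin hT hIζu hT1 (by
      have := ray hB hv hIζ (by rw [hax]; simp [zeta_re, zeta_im]; nlinarith) (by simp [zeta_re, zeta_im]; nlinarith)
      convert this using 1
      ring)
    rw [neg_neg, add_neg_cancel_right] at ht'
    have := low_left hB (fun z hz => mem_K hT' hz) hIζ ht'
    simp [zeta_re, zeta_im] at this
    linarith
  · have : sq (f + (x : ℂ) * u) (I * u) = sq (f + (x : ℂ) * u - u) u := by
      rw [sq_rot (f + (x : ℂ) * u - u) u, sub_add_cancel]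
    rw [this] at hT
    exact hT

theorem ext_right_tri {x : ℝ} (h0 : 0 ≤ x) (h1 : x < (2 - r3) * d) (hS : tri (f + (x : ℂ) * u - u) u ∈ Q) :
    tri (f + (x : ℂ) * u) u ∈ Q := by
  have hu := hB.hu
  have hd := hB.hd
  have hp := r3_pos
  have hlo := r3_lo
  have hhi := r3_hi
  obtain ⟨b1, b2, b3, b4⟩ := bound hd h0 h1
  have hax : |x| = x := abs_of_nonneg h0
  have hn1 : ‖(ζ - 1) * u‖ = 1 := by rw [norm_mul, zeta_one_norm, hu, one_mul]
  have hn2 : ‖ζ * u‖ = 1 := by rw [norm_mul, zeta_norm, hu, one_mul]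
  have hρu : ‖ρ * u‖ = 1 := by rw [norm_mul, rho_norm, hu, one_mul]
  have hv : f + (x : ℂ) * u ∈ ⋃₀ Q := by
    have := (tile_end hu (T := tri (f + (x : ℂ) * u - u) u) (Or.inl rfl)).2
    rw [sub_add_cancel] at this
    exact mem_K hS this
  have hS1 : Tile (f + (x : ℂ) * u) ((ζ - 1) * u) (tri (f + (x : ℂ) * u - u) u) := by
    left; rw [tri_rot, sub_add_cancel]
  obtain ⟨T, hT, ht⟩ := across h.arr h.fin hS hn1 hS1
    (ray hB hv zeta_one_norm (by rw [hax]; simp [zeta_re, zeta_im]; nlinarith) (by simp [zeta_re, zeta_im]; nlinarith))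
  rcases ht with rfl | rfl
  · have hT1 : Tile (f + (x : ℂ) * u) (ζ * u) (tri (f + (x : ℂ) * u + (ζ - 1) * u) (-((ζ - 1) * u))) := by
      left
      rw [tri_rot (f + (x : ℂ) * u + (ζ - 1) * u)]
      congr 1
      · ring
      · linear_combination (-u) * zeta_sq
    obtain ⟨T', hT', ht'⟩ := across h.arr h.fin hT hn2 hT1
      (ray hB hv zeta_norm (by rw [hax, zeta_re, zeta_im]; nlinarith) (by rw [zeta_re, zeta_im]; nlinarith))
    rcases ht' with rfl | rfl
    · have : tri (f + (x : ℂ) * u + ζ * u) (-(ζ * u)) = tri (f + (x : ℂ) * u) u := by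
        rw [tri_rot' (f + (x : ℂ) * u) u, neg_mul]
      rw [this] at hT'
      exact hT'
    · exfalso
      have hne : -(ζ * u) ≠ 0 := ne_zero_of_norm (by rw [norm_neg]; exact hn2)
      have : f + (x : ℂ) * u + ζ * u + (1 + I) * -(ζ * u) ∈ ⋃₀ Q :=
        mem_K hT' ((mem_sq hne _).2 (by simp))
      have e1 : f + (x : ℂ) * u + ζ * u + (1 + I) * -(ζ * u) = f + ((x : ℂ) - I * ζ) * u := by ring
      rw [e1] at this
      have := hB.low _ this
      simp [zeta_re] at this
      linarith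
  · exfalso
    have hT1 : Tile (f + (x : ℂ) * u) (ρ * u) (sq (f + (x : ℂ) * u + (ζ - 1) * u) (-((ζ - 1) * u))) := by
      right
      rw [sq_rot (f + (x : ℂ) * u + (ζ - 1) * u)]
      congr 1
      · ring
      · linear_combination (-u) * rho_eq
    obtain ⟨T', hT', ht'⟩ := across h.arr h.fin hT hρu hT1
      (ray hB hv rho_norm (by rw [hax, rho_re, rho_im]; nlinarith) (by rw [rho_re, rho_im]; nlinarith))
    have := low_right hB (fun z hz => mem_K hT' hz) rho_norm ht'
    rw [rho_re, rho_im] at this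
    linarith

theorem ext_left_tri {x : ℝ} (h0 : x ≤ 0) (h1 : -x < (2 - r3) * d) (hS : tri (f + (x : ℂ) * u) u ∈ Q) :
    tri (f + (x : ℂ) * u - u) u ∈ Q := by
  have hu := hB.hu
  have hd := hB.hd
  have hp := r3_pos
  have hlo := r3_lo
  have hhi := r3_hi
  obtain ⟨b1, b2, b3, b4⟩ := bound hd (neg_nonneg.2 h0) h1
  have hax : |x| = -x := abs_of_nonpos h0
  have hn1 : ‖-((ζ - 1) * u)‖ = 1 := by rw [norm_neg, norm_mul, zeta_one_norm, hu, one_mul]
  have hn2 : ‖-(ζ * u)‖ = 1 := by rw [norm_neg, norm_mul, zeta_norm, hu, one_mul]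
  have hIζ : ‖I * ζ‖ = 1 := Izeta_norm
  have hIζu : ‖-(I * ζ * u)‖ = 1 := by rw [norm_neg, norm_mul, hIζ, hu, one_mul]
  have hv : f + (x : ℂ) * u ∈ ⋃₀ Q := mem_K hS (tile_end hu (Or.inl rfl)).1
  have hS1 : Tile (f + (x : ℂ) * u + ζ * u) (-(ζ * u)) (tri (f + (x : ℂ) * u) u) := by
    left; rw [tri_rot' (f + (x : ℂ) * u) u, neg_mul]
  obtain ⟨T, hT, ht⟩ := across h.arr h.fin hS hn2 hS1 (by
    have := ray hB hv zeta_norm (by rw [hax, zeta_re, zeta_im]; nlinarith) (by rw [zeta_re, zeta_im]; nlinarith)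
    convert this using 1
    ring)
  rw [neg_neg, add_neg_cancel_right] at ht
  rcases ht with rfl | rfl
  · have hT1 : Tile (f + (x : ℂ) * u + (ζ - 1) * u) (-((ζ - 1) * u)) (tri (f + (x : ℂ) * u) (ζ * u)) := by
      left
      rw [tri_rot' (f + (x : ℂ) * u) (ζ * u)]
      congr 1
      · linear_combination u * zeta_sq
      · linear_combination (-u) * zeta_sq
    obtain ⟨T', hT', ht'⟩ := across h.arr h.fin hT hn1 hT1 (by
      have := ray hB hv zeta_one_norm (by rw [hax]; simp [zeta_re, zeta_im]; nlinarith)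
        (by simp [zeta_re, zeta_im]; nlinarith)
      convert this using 1
      ring)
    rw [neg_neg, add_neg_cancel_right] at ht'
    rcases ht' with rfl | rfl
    · have : tri (f + (x : ℂ) * u) ((ζ - 1) * u) = tri (f + (x : ℂ) * u - u) u := by
        rw [tri_rot (f + (x : ℂ) * u - u) u, sub_add_cancel]
      rw [this] at hT'
      exact hT'
    · exfalso
      have hne : (ζ - 1) * u ≠ 0 := ne_zero_of_norm (by rw [norm_mul, zeta_one_norm, hu, one_mul])
      have : f + (x : ℂ) * u + I * ((ζ - 1) * u) ∈ ⋃₀ Q :=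
        mem_K hT' ((mem_sq hne _).2 (by simp))
      have e1 : f + (x : ℂ) * u + I * ((ζ - 1) * u) = f + ((x : ℂ) + I * (ζ - 1)) * u := by ring
      rw [e1] at this
      have := hB.low _ this
      simp [zeta_re] at this
      linarith
  · exfalso
    have hT1 : Tile (f + (x : ℂ) * u + I * ζ * u) (-(I * ζ * u)) (sq (f + (x : ℂ) * u) (ζ * u)) := by
      right
      rw [sq_rot3 (f + (x : ℂ) * u)]
      congr 1
      · ring
      · ring
    obtain ⟨T', hT', ht'⟩ := across h.arr h.fin hT hIζu hT1 (by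
      have := ray hB hv hIζ (by rw [hax]; simp [zeta_re, zeta_im]; nlinarith) (by simp [zeta_re, zeta_im]; nlinarith)
      convert this using 1
      ring)
    rw [neg_neg, add_neg_cancel_right] at ht'
    have := low_left hB (fun z hz => mem_K hT' hz) hIζ ht'
    simp [zeta_re, zeta_im] at this
    linarith

end

end Pool.Agent.R175.TriSq
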