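import Mathlib
import Pool.Agent.R175.TriSq.Descend
import Pool.Agent.R175.TriSq.Support

/-!
# A large convex patch has two adjacent squares near each deep point
-/

set_option autoImplicit false

namespace Pool.Agent.R175.TriSq

open Set Complex ComplexConjugate Pool.Agent.R175.TriGeo Topology

variable {Q : Set (Set ℂ)} {f u : ℂ} {d : ℝ}

theorem nat_below {y : ℝ} (hy : 0 < y) : ∃ M : ℕ, (M : ℝ) < y ∧ y ≤ M + 1 := by
  have h1 : 0 < ⌈y⌉₊ := Nat.ceil_pos.2 hy
  obtain ⟨M, hM⟩ : ∃ M, ⌈y⌉₊ = M + 1 := ⟨⌈y⌉₊ - 1, by omega⟩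
  refine ⟨M, ?_, ?_⟩
  · exact Nat.lt_ceil.1 (by omega)
  · have := Nat.le_ceil y
    rw [hM] at this
    exact_mod_cast this

theorem rows {G : ℂ → ℂ → Set ℂ} {X α : ℝ} (hX : 1 < X) (ha0 : 0 ≤ α) (ha1 : α < 1)
    (hr : ∀ x : ℝ, 0 ≤ x → x < X → G (f + (x : ℂ) * u - u) u ∈ Q → G (f + (x : ℂ) * u) u ∈ Q)
    (hl : ∀ x : ℝ, x ≤ 0 → -x < X → G (f + (x : ℂ) * u) u ∈ Q → G (f + (x : ℂ) * u - u) u ∈ Q)
    (h0 : G (f + ((-α : ℝ) : ℂ) * u) u ∈ Q) :
    ∃ M N : ℕ, (M : ℝ) < X - α ∧ X - α ≤ M + 1 ∧ (N : ℝ) < X + α ∧ X + α ≤ N + 1 ∧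
      ∀ j : ℕ, j < M + N → G (f + ((-(M : ℝ) - α + j : ℝ) : ℂ) * u) u ∈ Q := by
  obtain ⟨M, hM1, hM2⟩ := nat_below (y := X - α) (by linarith)
  obtain ⟨N, hN1, hN2⟩ := nat_below (y := X + α) (by linarith)
  have hright : ∀ k : ℕ, (k : ℝ) - α < X → G (f + ((k - α : ℝ) : ℂ) * u) u ∈ Q := by
    intro k
    induction k with
    | zero =>
      intro _
      have e : (((0 : ℕ) : ℝ) - α : ℝ) = -α := by push_cast; ring
      rw [e]; exact h0
    | succ k ih =>
      intro hk
      push_cast at hk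
      have := ih (by linarith)
      refine hr _ ?_ ?_ ?_
      · push_cast; linarith [(Nat.cast_nonneg k : (0 : ℝ) ≤ k)]
      · push_cast; linarith
      · convert this using 2
        push_cast; ring
  have hleft : ∀ k : ℕ, (k : ℝ) + α < X + 1 → G (f + ((-(k : ℝ) - α : ℝ) : ℂ) * u) u ∈ Q := by
    intro k
    induction k with
    | zero =>
      intro _
      have e : (-(((0 : ℕ) : ℝ)) - α : ℝ) = -α := by push_cast; ring
      rw [e]; exact h0
    | succ k ih =>
      intro hk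
      push_cast at hk
      have := ih (by linarith)
      have h2 := hl (-(k : ℝ) - α) (by linarith [(Nat.cast_nonneg k : (0 : ℝ) ≤ k)]) (by linarith) this
      convert h2 using 2
      push_cast; ring
  refine ⟨M, N, hM1, hM2, hN1, hN2, ?_⟩
  intro j hj
  rcases le_or_gt M j with hjM | hjM
  · obtain ⟨k, rfl⟩ := Nat.exists_eq_add_of_le hjM
    have hk : (k : ℝ) + 1 ≤ N := by
      have : k + 1 ≤ N := by omega
      exact_mod_cast this
    have := hright k (by linarith)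
    have e : (-(M : ℝ) - α + ((M + k : ℕ) : ℝ) : ℝ) = (k : ℝ) - α := by push_cast; ring
    rw [e]; exact this
  · obtain ⟨k, hk⟩ := Nat.exists_eq_add_of_le hjM.le
    have hk' : (k : ℝ) ≤ M := by
      have : k ≤ M := by omega
      exact_mod_cast this
    have := hleft k (by linarith)
    have e : (-(M : ℝ) - α + (j : ℝ) : ℝ) = -(k : ℝ) - α := by
      have : (M : ℝ) = j + k := by exact_mod_cast hk
      rw [this]; ring
    rw [e]; exact this

theorem base_seg {K : Set ℂ} (hK : Convex ℝ K) {x0 x1 : ℝ} (h0 : f + (x0 : ℂ) * u ∈ K) (h1 : f + (x1 : ℂ) * u ∈ K)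
    {x : ℝ} (hx0 : x0 ≤ x) (hx1 : x ≤ x1) : f + (x : ℂ) * u ∈ K := by
  rcases eq_or_lt_of_le (hx0.trans hx1) with he | hlt
  · have : x = x0 := by linarith
    rw [this]; exact h0
  · have hp : 0 < x1 - x0 := by linarith
    obtain ⟨l, hl⟩ : ∃ l : ℝ, l = (x - x0) / (x1 - x0) := ⟨_, rfl⟩
    have hl1 : l * (x1 - x0) = x - x0 := by rw [hl]; field_simp
    have a0 : 0 ≤ l := by rw [hl]; apply div_nonneg <;> linarith
    have a1 : l ≤ 1 := by rw [hl, div_le_one hp]; linarith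
    have := hK h0 h1 (by linarith : 0 ≤ 1 - l) a0 (by ring)
    convert this using 1
    simp only [Complex.real_smul]
    have : x = (1 - l) * x0 + l * x1 := by linarith
    rw [this]
    push_cast
    ring

theorem fin_two {x y : ℝ} (hu : ‖u‖ = 1) (hx0 : -3 / 2 ≤ x) (hx1 : x ≤ -1 / 2) (hy0 : d - 9 ≤ y) (hy1 : y ≤ d)
    (hs : ∀ j : ℕ, j < 2 → sq (f + ((x : ℂ) + (y : ℂ) * I) * u + j * u) u ∈ Q) :
    ∃ a : ℂ, sq a u ∈ Q ∧ sq (a + u) u ∈ Q ∧ dist (a + (1 / 2 + I / 2) * u) (f + ((d : ℂ) * I) * u) < 10 ∧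
      dist (a + u + (1 / 2 + I / 2) * u) (f + ((d : ℂ) * I) * u) < 10 := by
  have s0 := hs 0 (by norm_num)
  have s1 := hs 1 (by norm_num)
  rw [Nat.cast_zero, zero_mul, add_zero] at s0
  rw [Nat.cast_one, one_mul] at s1
  refine ⟨_, s0, s1, ?_, ?_⟩
  · rw [dist_eq_norm]
    have e : f + ((x : ℂ) + (y : ℂ) * I) * u + (1 / 2 + I / 2) * u - (f + ((d : ℂ) * I) * u) =
        (((x + 1 / 2 : ℝ) : ℂ) + ((y + 1 / 2 - d : ℝ) : ℂ) * I) * u := by push_cast; ring
    rw [e, norm_mul, hu, mul_one]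
    apply lt_of_pow_lt_pow_left₀ 2 (by norm_num)
    rw [← Complex.normSq_eq_norm_sq, Complex.normSq_add_mul_I]
    nlinarith
  · rw [dist_eq_norm]
    have e : f + ((x : ℂ) + (y : ℂ) * I) * u + u + (1 / 2 + I / 2) * u - (f + ((d : ℂ) * I) * u) =
        (((x + 3 / 2 : ℝ) : ℂ) + ((y + 1 / 2 - d : ℝ) : ℂ) * I) * u := by push_cast; ring
    rw [e, norm_mul, hu, mul_one]
    apply lt_of_pow_lt_pow_left₀ 2 (by norm_num)
    rw [← Complex.normSq_eq_norm_sq, Complex.normSq_add_mul_I]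
    nlinarith

/-- Two squares from a tile of the patch on the supporting line. -/
theorem from_base (h : Adm Q) (hB : Base (⋃₀ Q) f u d) {T : Set ℂ} (hT : T ∈ Q) {α : ℝ} (ha0 : 0 ≤ α)
    (ha1 : α < 1) (hTα : Tile (f + ((-α : ℝ) : ℂ) * u) u T) :
    ∃ a : ℂ, sq a u ∈ Q ∧ sq (a + u) u ∈ Q ∧ dist (a + (1 / 2 + I / 2) * u) (f + ((d : ℂ) * I) * u) < 10 ∧
      dist (a + u + (1 / 2 + I / 2) * u) (f + ((d : ℂ) * I) * u) < 10 := by
  have hu := hB.hu
  have hd := hB.hd
  have hp := r3_pos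
  have hlo := r3_lo
  have hhi := r3_hi
  have hcp := c_pos
  have hcm := c_mul
  have hd0 : 0 < d := by linarith
  have hX : 1 < (2 - r3) * d := by nlinarith
  have hX2 : 2.679 < (2 - r3) * d := by nlinarith
  have hqi : f + ((d : ℂ) * I) * u ∈ interior (⋃₀ Q) := hB.ball _ (by simp; exact hd0)
  have hXd : 2 * ((2 - r3) * d) * (1 + r3 / 2) = d := by
    have : 2 * ((2 - r3) * d) * (1 + r3 / 2) = 2 * d * ((2 - r3) * (1 + r3 / 2)) := by ring
    rw [this, hcm]; ring
  have hz : ζ = 1 / 2 + (r3 / 2 : ℂ) * I := by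
    apply Complex.ext <;> simp [zeta_re, zeta_im]
  -- common part
  have common : ∀ {G : ℂ → ℂ → Set ℂ}, (∀ a, Tile a u (G a u)) → ∀ {M N : ℕ}, (M : ℝ) < (2 - r3) * d - α →
      4 ≤ M + N →
      (∀ j : ℕ, j < M + N → G (f + ((-(M : ℝ) - α + j : ℝ) : ℂ) * u) u ∈ Q) →
      ∀ x : ℝ, -(M : ℝ) - α ≤ x → x ≤ (N : ℝ) - α → f + (x : ℂ) * u ∈ ⋃₀ Q := by
    intro G hG M N hM hMN hrow x hx0 hx1
    apply base_seg hB.conv _ _ hx0 hx1
    · have := hrow 0 (by omega)
      rw [Nat.cast_zero, add_zero] at this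
      exact mem_K this (tile_end hu (hG _)).1
    · have := hrow (M + N - 1) (by omega)
      have h2 := mem_K this (tile_end hu (hG _)).2
      convert h2 using 1
      have : ((M + N - 1 : ℕ) : ℝ) = M + N - 1 := by
        rw [Nat.cast_sub (by omega)]; push_cast; ring
      rw [this]; push_cast; ring
  have hcount : ∀ {M N : ℕ}, (2 - r3) * d - α ≤ (M : ℝ) + 1 → (2 - r3) * d + α ≤ (N : ℝ) + 1 → 4 ≤ M + N := by
    intro M N h1 h2
    have : (3 : ℝ) < M + N := by linarith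
    have : 3 < M + N := by exact_mod_cast this
    omega
  rcases hTα with rfl | rfl
  · obtain ⟨M, N, hM1, hM2, hN1, hN2, hrow⟩ := rows (G := tri) (f := f) (u := u) (Q := Q) hX ha0 ha1
      (fun x a b c => ext_right_tri h hB a b c) (fun x a b c => ext_left_tri h hB a b c) hT
    have h4 := hcount hM2 hN2
    have hseg := common (G := tri) (fun a => Or.inl rfl) hM1 h4 hrow
    obtain ⟨m, hm⟩ : ∃ m, M + N = m + 3 := ⟨M + N - 3, by omega⟩
    have hmr : (M : ℝ) + N = m + 3 := by exact_mod_cast hm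
    have key := @int_lemma (⋃₀ Q) hB.conv f u d (2 - r3) (-(M : ℝ) - α) ((N : ℝ) - α) hd0 hcp hqi
      (by linarith) (by linarith) hseg
    have s1 := tr_to_sq h (n := m + 3) (by omega) (b := f + ((-(M : ℝ) - α : ℝ) : ℂ) * u) hu (by
      intro j hj
      have := hrow j (by omega)
      convert this using 2
      push_cast; ring) (by
      intro j hj
      have hj' : (j : ℝ) ≤ m + 1 := by
        have : j ≤ m + 1 := by omega
        exact_mod_cast this
      have hj0 : (0 : ℝ) ≤ j := by positivity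
      have := @key (-(M : ℝ) - α + j + 3 / 4) (r3 / 4) (by positivity) (by nlinarith) (by nlinarith)
      convert this using 1
      rw [hz]
      push_cast
      ring) (by
      intro j hj
      have hj' : (j : ℝ) ≤ m + 1 := by
        have : j ≤ m + 1 := by omega
        exact_mod_cast this
      have hj0 : (0 : ℝ) ≤ j := by positivity
      have := @key (-(M : ℝ) - α + j + 1) (r3 / 2) (by positivity) (by nlinarith) (by nlinarith)
      convert this using 1
      rw [hz]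
      push_cast
      ring)
    have s2 := descend h hB.conv hu hd0 hqi (x0 := -(M : ℝ) - α) (x1 := (N : ℝ) - α) (by linarith) (by linarith) hseg m
      (-(M : ℝ) - α + 1 / 2) (r3 / 2) (by positivity) (by nlinarith) (by nlinarith) (by
      intro j hj
      have := s1 j (by omega)
      convert this using 2
      rw [hz]
      push_cast
      ring)
    have hm2 : (m : ℝ) * (1 + r3 / 2) = ((M : ℝ) + N - 3) * (1 + r3 / 2) := by rw [hmr]; ring
    refine fin_two hu ?_ ?_ ?_ ?_ s2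
    · linarith
    · linarith
    · rw [hm2]
      have : 0 ≤ ((M : ℝ) + N + 2 - 2 * ((2 - r3) * d)) * (1 + r3 / 2) := by
        apply mul_nonneg <;> linarith
      nlinarith
    · rw [hm2]
      have : 0 ≤ (2 * ((2 - r3) * d) - ((M : ℝ) + N)) * (1 + r3 / 2) := by
        apply mul_nonneg <;> linarith
      nlinarith
  · obtain ⟨M, N, hM1, hM2, hN1, hN2, hrow⟩ := rows (G := sq) (f := f) (u := u) (Q := Q) hX ha0 ha1
      (fun x a b c => ext_right_sq h hB a b c) (fun x a b c => ext_left_sq h hB a b c) hT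
    have h4 := hcount hM2 hN2
    have hseg := common (G := sq) (fun a => Or.inr rfl) hM1 h4 hrow
    obtain ⟨m, hm⟩ : ∃ m, M + N = m + 2 := ⟨M + N - 2, by omega⟩
    have hmr : (M : ℝ) + N = m + 2 := by exact_mod_cast hm
    have s2 := descend h hB.conv hu hd0 hqi (x0 := -(M : ℝ) - α) (x1 := (N : ℝ) - α) (by linarith) (by linarith) hseg m
      (-(M : ℝ) - α) 0 le_rfl (by linarith) (by linarith) (by
      intro j hj
      have := hrow j (by omega)
      convert this using 2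
      push_cast
      ring)
    have hm2 : (m : ℝ) * (1 + r3 / 2) = ((M : ℝ) + N - 2) * (1 + r3 / 2) := by rw [hmr]; ring
    refine fin_two hu ?_ ?_ ?_ ?_ s2
    · linarith
    · linarith
    · rw [hm2]
      have : 0 ≤ ((M : ℝ) + N + 2 - 2 * ((2 - r3) * d)) * (1 + r3 / 2) := by
        apply mul_nonneg <;> linarith
      nlinarith
    · rw [hm2]
      have : 0 ≤ (2 * ((2 - r3) * d) - ((M : ℝ) + N)) * (1 + r3 / 2) := by
        apply mul_nonneg <;> linarith
      nlinarith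

end Pool.Agent.R175.TriSq
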