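import Mathlib
import Pool.Agent.R175.TriSq.Middle

/-!
# The boundary point of a convex patch closest to a given point, and a tile there
-/

set_option autoImplicit false

namespace Pool.Agent.R175.TriSq

open Set Complex ComplexConjugate Pool.Agent.R175.TriGeo Topology

variable {Q : Set (Set ℂ)} {f u : ℂ} {d : ℝ}

theorem tile_compact {T : Set ℂ} (h : IsTri T ∨ IsSq T) : IsCompact T := by
  rcases h with ⟨a, u, hu, rfl⟩ | ⟨a, u, hu, rfl⟩
  · exact (Set.toFinite _).isCompact_convexHull (𝕜 := ℝ)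
  · exact (Set.toFinite _).isCompact_convexHull (𝕜 := ℝ)

theorem union_compact (h : Adm Q) : IsCompact (⋃₀ Q) :=
  h.fin.isCompact_sUnion fun T hT => tile_compact (h.arr.tiles T hT)

/-- A tile of the patch with its base on the supporting line. -/
theorem init_tile (h : Adm Q) (hB : Base (⋃₀ Q) f u d) (hf : f ∉ interior (⋃₀ Q)) :
    ∃ T ∈ Q, ∃ α : ℝ, 0 ≤ α ∧ α < 1 ∧ Tile (f + ((-α : ℝ) : ℂ) * u) u T := by
  have hu := hB.hu
  have hu0 := ne_zero_of_norm hu
  have hd := hB.hd
  have hd0 : 0 < d := by linarith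
  have hp := r3_pos
  -- points near `f`
  obtain ⟨g, hg⟩ : ∃ g : ℝ → ℂ, g = fun (t : ℝ) => f + ((t : ℂ) + ((t * t / d : ℝ) : ℂ) * I) * u := ⟨_, rfl⟩
  have hgc : Filter.Tendsto g (𝓝[>] 0) (𝓝 f) := by
    have h2 : Filter.Tendsto g (𝓝 0) (𝓝 (g 0)) := by
      apply Continuous.tendsto
      rw [hg]
      fun_prop
    have h3 : g 0 = f := by rw [hg]; simp
    rw [h3] at h2
    exact h2.mono_left nhdsWithin_le_nhds
  have hpos : ∀ᶠ t : ℝ in 𝓝[>] 0, 0 < t := self_mem_nhdsWithin
  have hlt : ∀ᶠ t : ℝ in 𝓝[>] 0, t < d :=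
    (nhdsWithin_le_nhds (s := Ioi (0 : ℝ))) (Iio_mem_nhds hd0)
  have hex : ∀ᶠ t : ℝ in 𝓝[>] 0, ∃ T ∈ Q, g t ∈ T := by
    filter_upwards [hpos, hlt] with t ht0 ht1
    have : g t ∈ interior (⋃₀ Q) := by
      rw [hg]
      apply hB.ball
      apply lt_of_pow_lt_pow_left₀ 2 (by linarith)
      have e : ((t : ℂ) + ((t * t / d : ℝ) : ℂ) * I) - (d : ℂ) * I = (t : ℂ) + ((t * t / d - d : ℝ) : ℂ) * I := by
        push_cast; ring
      rw [e, ← Complex.normSq_eq_norm_sq, Complex.normSq_add_mul_I]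
      have h1 : t * t / d * d = t * t := by field_simp
      have h2 : t * t / d < t := by
        rw [div_lt_iff₀ hd0]; nlinarith
      have h3 : 0 < t * t / d := by positivity
      nlinarith
    have h5 : g t ∈ ⋃₀ Q := interior_subset this
    exact h5
  have hfr : ∃ T ∈ Q, ∃ᶠ t : ℝ in 𝓝[>] 0, g t ∈ T := by
    by_contra hcon
    push Not at hcon
    have : ∀ᶠ t : ℝ in 𝓝[>] 0, ∀ T ∈ Q, g t ∉ T := by
      rw [Filter.eventually_all_finite h.fin]
      intro T hT
      exact hcon T hT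
    obtain ⟨t, ⟨T, hT, h1⟩, h2⟩ := (hex.and this).exists
    exact h2 T hT h1
  obtain ⟨T, hT, hfreq⟩ := hfr
  have hTt := h.arr.tiles T hT
  have hfT : f ∈ T := (tile_isClosed hTt).mem_of_frequently_of_tendsto hfreq hgc
  refine ⟨T, hT, ?_⟩
  have hsub : T ⊆ ⋃₀ Q := fun z hz => mem_K hT hz
  rcases tile_class hTt hfT with h1 | ⟨p, e, x, he, hTp, hx0, hx1, hfx⟩ | ⟨e, he, hTe⟩
  · exact absurd (interior_mono hsub h1) hf
  · obtain ⟨δ, hδ⟩ : ∃ δ, δ = e / u := ⟨_, rfl⟩
    have heu : e = δ * u := by rw [hδ]; field_simp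
    have hn : ‖δ‖ = 1 := by rw [hδ, norm_div, hu, he, div_one]
    have hpe : p = f + (-(x : ℂ) * δ) * u := by rw [hfx, heu]; ring
    have m1 : f + (-(x : ℂ) * δ) * u ∈ ⋃₀ Q := by
      rw [← hpe]; exact hsub (tile_end he hTp).1
    have m2 : f + ((1 - (x : ℂ)) * δ) * u ∈ ⋃₀ Q := by
      have := hsub (tile_end he hTp).2
      rw [hpe, heu] at this
      convert this using 1
      ring
    have l1 := hB.low _ m1
    have l2 := hB.low _ m2
    simp at l1 l2
    have i0 : δ.im = 0 := by nlinarith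
    rcases im_zero hn i0 with hre | hre
    · have hδ1 : δ = 1 := Complex.ext hre i0
      refine ⟨x, hx0.le, hx1, ?_⟩
      rw [hδ1, one_mul] at heu
      rw [hδ1, mul_one] at hpe
      rw [← heu, ← heu] at *
      convert hTp using 1
      rw [hpe]; push_cast; ring
    · exfalso
      have hδ1 : δ = -1 := Complex.ext (by simp [hre]) (by simp [i0])
      have m3 := hsub (tile_mid he hTp (ε := 1 / 2) (by norm_num) le_rfl)
      have e1 : p + (1 / 2 + ((1 / 2 : ℝ) : ℂ) * I) * e = f + ((x : ℂ) - (1 / 2 + ((1 / 2 : ℝ) : ℂ) * I)) * u := by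
        rw [hpe, heu, hδ1]; ring
      rw [e1] at m3
      have := hB.low _ m3
      simp at this
      linarith
  · obtain ⟨δ, hδ⟩ : ∃ δ, δ = e / u := ⟨_, rfl⟩
    have heu : e = δ * u := by rw [hδ]; field_simp
    have hn : ‖δ‖ = 1 := by rw [hδ, norm_div, hu, he, div_one]
    have hδ0 := ne_zero_of_norm hn
    have m1 : f + δ * u ∈ ⋃₀ Q := by
      rw [← heu]; exact hsub (tile_end he hTe).2
    have l1 := hB.low _ m1
    have hre1 : δ.re ≤ 1 := by
      have := Complex.abs_re_le_norm δ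
      rw [hn] at this
      exact (abs_le.1 this).2
    have l2 : δ.im ≤ 0 := by
      by_contra hcon
      push Not at hcon
      have hev : ∀ᶠ t : ℝ in 𝓝[>] 0, t / d < δ.im := by
        have h3 : Filter.Tendsto (fun t : ℝ => t / d) (𝓝[>] 0) (𝓝 0) := by
          have h4 : Filter.Tendsto (fun t : ℝ => t / d) (𝓝 0) (𝓝 (0 / d)) := by
            apply Continuous.tendsto; fun_prop
          rw [zero_div] at h4
          exact h4.mono_left nhdsWithin_le_nhds
        exact h3.eventually (Iio_mem_nhds hcon)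
      obtain ⟨t, ht, hb1, hb2⟩ := (hfreq.and_eventually (hpos.and hev)).exists
      have e1 : g t = f + (((t : ℂ) + ((t * t / d : ℝ) : ℂ) * I) * conj δ) * e := by
        have hcd : conj δ * δ = 1 := by
          rw [← unit_inv hn]; field_simp
        rw [hg, heu]
        simp only []
        linear_combination (-((t : ℂ) + ((t * t / d : ℝ) : ℂ) * I) * u) * hcd
      rw [e1] at ht
      have := tile_low he hTe ht
      simp at this
      have e2 : t * t / d = t * (t / d) := by ring
      rw [e2] at this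
      have h5 : t * (t / d) * δ.re ≤ t * (t / d) := by
        have : 0 ≤ t * (t / d) := by positivity
        nlinarith
      have h6 : t * δ.im ≤ t * (t / d) := by linarith
      have := le_of_mul_le_mul_left h6 hb1
      linarith
    have i0 : δ.im = 0 := le_antisymm l2 l1
    rcases im_zero hn i0 with hre | hre
    · have hδ1 : δ = 1 := Complex.ext hre i0
      refine ⟨0, le_rfl, by norm_num, ?_⟩
      rw [hδ1, one_mul] at heu
      subst heu
      have e0 : f + ((-(0 : ℝ) : ℝ) : ℂ) * e = f := by simp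
      rw [e0]; exact hTe
    · exfalso
      have hδ1 : δ = -1 := Complex.ext (by simp [hre]) (by simp [i0])
      have m3 := hsub (tile_mid he hTe (ε := 1 / 2) (by norm_num) le_rfl)
      have e1 : f + (1 / 2 + ((1 / 2 : ℝ) : ℂ) * I) * e = f + (-(1 / 2 + ((1 / 2 : ℝ) : ℂ) * I)) * u := by
        rw [heu, hδ1]; ring
      rw [e1] at m3
      have := hB.low _ m3
      simp at this
      linarith

/-- A convex patch that contains a disk of radius 10 has two adjacent squares in this disk. -/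
theorem two_squares (h : Adm Q) (hK : Convex ℝ (⋃₀ Q)) {q : ℂ} (hq : Metric.ball q 10 ⊆ ⋃₀ Q) :
    ∃ a u : ℂ, ‖u‖ = 1 ∧ sq a u ∈ Q ∧ sq (a + u) u ∈ Q ∧ dist (a + (1 / 2 + I / 2) * u) q < 10 ∧
      dist (a + u + (1 / 2 + I / 2) * u) q < 10 := by
  have hc := union_compact h
  have hcl := hc.isClosed
  have hqK : q ∈ ⋃₀ Q := hq (Metric.mem_ball_self (by norm_num))
  have hne : (frontier (⋃₀ Q)).Nonempty := by
    rw [nonempty_frontier_iff]
    refine ⟨⟨q, hqK⟩, ?_⟩
    intro huniv
    have := hc.ne_univ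
    exact this huniv
  obtain ⟨f, hf, hfd⟩ := isClosed_frontier.exists_infDist_eq_dist hne q
  obtain ⟨d, hd⟩ : ∃ d, d = dist q f := ⟨_, rfl⟩
  rw [← hd] at hfd
  have hfi : f ∉ interior (⋃₀ Q) := by
    rw [hcl.frontier_eq] at hf
    exact hf.2
  have hfK : f ∈ ⋃₀ Q := hcl.frontier_subset hf
  have hd10 : 10 ≤ d := by
    by_contra hcon
    push Not at hcon
    apply hfi
    refine interior_maximal hq Metric.isOpen_ball ?_
    rw [Metric.mem_ball, dist_comm, ← hd]
    exact hcon
  have hd0 : 0 < d := by linarith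
  have hballK : Metric.ball q d ⊆ interior (⋃₀ Q) := by
    apply interior_maximal _ Metric.isOpen_ball
    intro z hz
    by_contra hzK
    have hpc : IsPreconnected (Metric.ball q d) := (convex_ball q d).isPreconnected
    have hcov : Metric.ball q d ⊆ interior (⋃₀ Q) ∪ (⋃₀ Q)ᶜ := by
      intro y hy
      by_cases hyK : y ∈ ⋃₀ Q
      · left
        by_contra hyi
        have hy2 : y ∈ frontier (⋃₀ Q) := by rw [hcl.frontier_eq]; exact ⟨hyK, hyi⟩
        have h1 := Metric.infDist_le_dist_of_mem (x := q) hy2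
        rw [hfd] at h1
        rw [Metric.mem_ball, dist_comm] at hy
        linarith
      · right; exact hyK
    have hqi : q ∈ interior (⋃₀ Q) := interior_maximal hq Metric.isOpen_ball (Metric.mem_ball_self (by norm_num))
    obtain ⟨y, -, hy1, hy2⟩ := hpc _ _ isOpen_interior hcl.isOpen_compl hcov ⟨q, Metric.mem_ball_self hd0, hqi⟩
      ⟨z, hz, hzK⟩
    exact hy2 (interior_subset hy1)
  obtain ⟨u, hudef⟩ : ∃ u : ℂ, u = (q - f) / ((d : ℂ) * I) := ⟨_, rfl⟩
  have hdC : (d : ℂ) ≠ 0 := by exact_mod_cast hd0.ne'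
  have hqf : q = f + ((d : ℂ) * I) * u := by
    rw [hudef]
    have := I_ne_zero
    field_simp
    ring
  have hu : ‖u‖ = 1 := by
    rw [hudef, norm_div, norm_mul, Complex.norm_I, mul_one, Complex.norm_real, Real.norm_eq_abs, abs_of_pos hd0,
      ← dist_eq_norm, ← hd]
    field_simp
  have hball : ∀ w : ℂ, ‖w - (d : ℂ) * I‖ < d → f + w * u ∈ interior (⋃₀ Q) := by
    intro w hw
    apply hballK
    rw [Metric.mem_ball, dist_eq_norm, hqf]
    have e : f + w * u - (f + (d : ℂ) * I * u) = (w - (d : ℂ) * I) * u := by ring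
    rw [e, norm_mul, hu, mul_one]
    exact hw
  have hlow : ∀ w : ℂ, f + w * u ∈ ⋃₀ Q → 0 ≤ w.im := by
    intro w hw
    by_contra hcon
    push Not at hcon
    apply hfi
    obtain ⟨r, hr⟩ : ∃ r, r = Complex.normSq w := ⟨_, rfl⟩
    have hw0 : w ≠ 0 := by rintro rfl; simp at hcon
    have hr0 : 0 < r := by rw [hr]; exact Complex.normSq_pos.2 hw0
    obtain ⟨s, hs⟩ : ∃ s : ℝ, s = -(d * w.im) / r := ⟨_, rfl⟩
    have hsr : s * r = -(d * w.im) := by rw [hs]; field_simp
    have hs0 : 0 < s := by rw [hs]; apply div_pos _ hr0; nlinarith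
    have h1 := hball (-(s : ℂ) * w) (by
      apply lt_of_pow_lt_pow_left₀ 2 hd0.le
      rw [← Complex.normSq_eq_norm_sq, Complex.normSq_apply]
      simp
      rw [Complex.normSq_apply] at hr
      have e : -(s * w.re) * -(s * w.re) + (-(s * w.im) - d) * (-(s * w.im) - d) =
          s * (s * (w.re * w.re + w.im * w.im)) + 2 * s * (d * w.im) + d * d := by ring
      have e' : s * w.re * (s * w.re) + (-(s * w.im) - d) * (-(s * w.im) - d) =
          s * (s * (w.re * w.re + w.im * w.im)) + 2 * s * (d * w.im) + d * d := by ring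
      rw [← hr, hsr] at e'
      rw [e']
      nlinarith [mul_pos hs0 (mul_pos hd0 (neg_pos.2 hcon))])
    have hs1 : 0 < 1 + s := by linarith
    have hsC : (1 + (s : ℂ)) ≠ 0 := by exact_mod_cast hs1.ne'
    have := hK.combo_interior_self_mem_interior h1 hw (a := 1 / (1 + s)) (b := s / (1 + s)) (by positivity)
      (by positivity) (by field_simp)
    convert this using 1
    simp only [Complex.real_smul]
    push_cast
    field_simp
    ring
  have hB : Base (⋃₀ Q) f u d := ⟨hu, hd10, hK, hlow, hball⟩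
  obtain ⟨T, hT, α, ha0, ha1, hTα⟩ := init_tile h hB hfi
  obtain ⟨a, h1, h2, h3, h4⟩ := from_base h hB hT ha0 ha1 hTα
  rw [← hqf] at h3 h4
  exact ⟨a, u, hu, h1, h2, h3, h4⟩

end Pool.Agent.R175.TriSq
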