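import Mathlib
import Pool.Agent.R175.TriSq.Arr

/-!
# Edge-to-edge from the condition on the corners
-/

set_option autoImplicit false

namespace Pool.Agent.R175.TriSq

open Set Complex ComplexConjugate Pool.Agent.R175.TriGeo Topology

theorem bary {a u : ℂ} (hu : u ≠ 0) (α β : ℝ) :
    a + ((α : ℂ) + (β : ℂ) * ζ) * u ∈ tri a u ↔ 0 ≤ α ∧ 0 ≤ β ∧ α + β ≤ 1 := by
  have hp := r3_pos
  have h3 := r3_sq
  rw [mem_tri hu]
  simp only [add_im, ofReal_im, re_ofReal_mul, im_ofReal_mul, add_re, ofReal_re, zeta_re, zeta_im, zero_add]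
  have e : r3 * (β * (r3 / 2)) = 3 * (β / 2) := by
    have : r3 * (β * (r3 / 2)) = r3 * r3 * (β / 2) := by ring
    rw [this, h3]
  rw [e]
  constructor
  · rintro ⟨h1, h2, h3⟩
    have : 0 ≤ β := by
      by_contra hc
      push Not at hc
      nlinarith
    exact ⟨by linarith, this, by linarith⟩
  · rintro ⟨h1, h2, h3⟩
    exact ⟨by positivity, by linarith, by linarith⟩

theorem bary_exists (w : ℂ) : ∃ α β : ℝ, w = (α : ℂ) + (β : ℂ) * ζ := by
  have hp := r3_pos
  refine ⟨w.re - w.im / r3, 2 * w.im / r3, ?_⟩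
  apply Complex.ext
  · simp [zeta_re]; ring
  · simp [zeta_im]; field_simp

theorem corner_mem {T : Set ℂ} {v : ℂ} (h : IsCorner T v) : v ∈ T := by
  obtain ⟨u, hu, hT⟩ := h
  exact (tile_end hu hT).1

theorem corner_end {T : Set ℂ} {p d : ℂ} (hd : ‖d‖ = 1) (h : Tile p d T) : IsCorner T (p + d) := by
  rcases h with h | h
  · refine ⟨(ζ - 1) * d, by rw [norm_mul, zeta_one_norm, hd, one_mul], Or.inl ?_⟩
    rw [h, tri_rot]
  · refine ⟨I * d, by rw [norm_mul, Complex.norm_I, hd, one_mul], Or.inr ?_⟩
    rw [h, sq_rot]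

theorem side_not_corner {p d : ℂ} {T : Set ℂ} (hd : ‖d‖ = 1) (hT : Tile p d T) {x : ℝ} (h0 : 0 < x) (h1 : x < 1) :
    ¬ IsCorner T (p + x * d) := by
  rintro ⟨u, hu, hT'⟩
  have hu0 := ne_zero_of_norm hu
  have hd0 := ne_zero_of_norm hd
  obtain ⟨ε, hε0, hε1, hε2⟩ : ∃ ε : ℝ, 0 < ε ∧ ε ≤ x ∧ ε ≤ 1 - x :=
    ⟨min x (1 - x), lt_min h0 (by linarith), min_le_left _ _, min_le_right _ _⟩
  have m1 := tile_side hd hT (x := x + ε) (by linarith) (by linarith)
  have m2 := tile_side hd hT (x := x - ε) (by linarith) (by linarith)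
  have e1 : p + ((x + ε : ℝ) : ℂ) * d = p + x * d + (ε * d / u) * u := by push_cast; field_simp; ring
  have e2 : p + ((x - ε : ℝ) : ℂ) * d = p + x * d - (ε * d / u) * u := by push_cast; field_simp; ring
  rw [e1] at m1
  rw [e2] at m2
  have := tile_pointed hu hT' m1 m2
  have hεC : (ε : ℂ) ≠ 0 := by exact_mod_cast hε0.ne'
  exact div_ne_zero (mul_ne_zero hεC hd0) hu0 this

theorem clm_mul (φ : ℂ →L[ℝ] ℝ) (x y : ℝ) (d : ℂ) : φ (((x : ℂ) + (y : ℂ) * I) * d) = x * φ d + y * φ (I * d) := by
  have e : ((x : ℂ) + (y : ℂ) * I) * d = x • d + y • (I * d) := by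
    simp only [Complex.real_smul]; ring
  rw [e, map_add, map_smul, map_smul, smul_eq_mul, smul_eq_mul]

theorem clm_zeta (φ : ℂ →L[ℝ] ℝ) (x y : ℝ) (d : ℂ) : φ (((x : ℂ) + (y : ℂ) * ζ) * d) = x * φ d + y * φ (ζ * d) := by
  have e : ((x : ℂ) + (y : ℂ) * ζ) * d = x • d + y • (ζ * d) := by
    simp only [Complex.real_smul]; ring
  rw [e, map_add, map_smul, map_smul, smul_eq_mul, smul_eq_mul]

/-- The part of a tile on a supporting line through one of its corners. -/
theorem face_corner {T : Set ℂ} {φ : ℂ →L[ℝ] ℝ} {c : ℝ} (hle : ∀ z ∈ T, φ z ≤ c) (hlt : ∃ z ∈ T, φ z < c) {v : ℂ}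
    (hv : IsCorner T v) (hφv : φ v = c) :
    T ∩ {z | φ z = c} = {v} ∨ ∃ p d, ‖d‖ = 1 ∧ Tile p d T ∧ T ∩ {z | φ z = c} = segment ℝ p (p + d) := by
  obtain ⟨u, hu, hT⟩ := hv
  have hu0 := ne_zero_of_norm hu
  obtain ⟨z0, hz0, hz0c⟩ := hlt
  -- a common form of both cases
  obtain ⟨g, hg, hgn, hmem, hside, hopp⟩ : ∃ g : ℂ, (∀ x y : ℝ, φ (((x : ℂ) + (y : ℂ) * g) * u) = x * φ u + y * φ (g * u)) ∧
      ‖g‖ = 1 ∧ (∀ z ∈ T, ∃ x y : ℝ, 0 ≤ x ∧ x ≤ 1 ∧ 0 ≤ y ∧ y ≤ 1 ∧ z = v + ((x : ℂ) + (y : ℂ) * g) * u) ∧
      Tile v u T ∧ Tile (v + g * u) (-(g * u)) T := by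
    rcases hT with rfl | rfl
    · refine ⟨ζ, fun x y => clm_zeta φ x y u, zeta_norm, ?_, Or.inl rfl, Or.inl ?_⟩
      · intro z hz
        obtain ⟨x, y, hxy⟩ := bary_exists ((z - v) / u)
        rw [coord hu0 z (a := v), hxy] at hz ⊢
        obtain ⟨h1, h2, h3⟩ := (bary hu0 x y).1 hz
        exact ⟨x, y, h1, by linarith, h2, by linarith, rfl⟩
      · rw [tri_rot' v u, neg_mul]
    · refine ⟨I, fun x y => clm_mul φ x y u, Complex.norm_I, ?_, Or.inr rfl, Or.inr ?_⟩
      · intro z hz
        rw [coord hu0 z (a := v)] at hz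
        obtain ⟨h1, h2, h3, h4⟩ := (mem_sq hu0 _).1 hz
        refine ⟨_, _, h1, h2, h3, h4, ?_⟩
        rw [Complex.re_add_im, ← coord hu0]
      · rw [sq_rot3 v u, neg_mul]
  have hval : ∀ x y : ℝ, φ (v + ((x : ℂ) + (y : ℂ) * g) * u) = c + x * φ u + y * φ (g * u) := by
    intro x y
    rw [map_add, hg, hφv]; ring
  have hA : φ u ≤ 0 := by
    have := hle _ (tile_end hu hside).2
    rw [map_add, hφv] at this
    linarith
  have hB : φ (g * u) ≤ 0 := by
    have hn : ‖-(g * u)‖ = 1 := by rw [norm_neg, norm_mul, hgn, hu, one_mul]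
    have := hle _ (tile_end hn hopp).1
    rw [map_add, hφv] at this
    linarith
  have hvT : v ∈ T := (tile_end hu hside).1
  rcases lt_or_eq_of_le hA with hA | hA
  · rcases lt_or_eq_of_le hB with hB | hB
    · left
      ext z
      simp only [mem_inter_iff, mem_ofPred_eq, mem_singleton_iff]
      constructor
      · rintro ⟨hz, hzc⟩
        obtain ⟨x, y, h1, h2, h3, h4, rfl⟩ := hmem z hz
        rw [hval] at hzc
        have hx : x = 0 := by
          by_contra hne
          have : 0 < x := lt_of_le_of_ne h1 (Ne.symm hne)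
          nlinarith
        have hy : y = 0 := by
          by_contra hne
          have : 0 < y := lt_of_le_of_ne h3 (Ne.symm hne)
          nlinarith
        rw [hx, hy]; simp
      · rintro rfl
        exact ⟨hvT, hφv⟩
    · right
      have hn : ‖-(g * u)‖ = 1 := by rw [norm_neg, norm_mul, hgn, hu, one_mul]
      refine ⟨v + g * u, -(g * u), hn, hopp, ?_⟩
      rw [add_neg_cancel_right, segment_symm]
      ext z
      simp only [mem_inter_iff, mem_ofPred_eq]
      rw [segment_eq_image']
      constructor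
      · rintro ⟨hz, hzc⟩
        obtain ⟨x, y, h1, h2, h3, h4, rfl⟩ := hmem z hz
        rw [hval, hB] at hzc
        have hx : x = 0 := by
          by_contra hne
          have : 0 < x := lt_of_le_of_ne h1 (Ne.symm hne)
          nlinarith
        refine ⟨y, ⟨h3, h4⟩, ?_⟩
        rw [hx]; simp only [Complex.real_smul]; push_cast; ring
      · rintro ⟨y, ⟨h3, h4⟩, rfl⟩
        have e : v + y • (v + g * u - v) = v + (((0 : ℝ) : ℂ) + (y : ℂ) * g) * u := by
          simp only [Complex.real_smul]; push_cast; ring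
        constructor
        · have := tile_side hn hopp (x := 1 - y) (by linarith) (by linarith)
          convert this using 1
          simp only [Complex.real_smul]; push_cast; ring
        · change φ (v + y • (v + g * u - v)) = c
          rw [e, hval, hB]; ring
  · rcases lt_or_eq_of_le hB with hB | hB
    · right
      refine ⟨v, u, hu, hside, ?_⟩
      ext z
      simp only [mem_inter_iff, mem_ofPred_eq]
      rw [segment_eq_image']
      constructor
      · rintro ⟨hz, hzc⟩
        obtain ⟨x, y, h1, h2, h3, h4, rfl⟩ := hmem z hz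
        rw [hval, hA] at hzc
        have hy : y = 0 := by
          by_contra hne
          have : 0 < y := lt_of_le_of_ne h3 (Ne.symm hne)
          nlinarith
        refine ⟨x, ⟨h1, h2⟩, ?_⟩
        rw [hy]; simp only [Complex.real_smul]; push_cast; ring
      · rintro ⟨x, ⟨h3, h4⟩, rfl⟩
        have e : v + x • (v + u - v) = v + ((x : ℂ) + ((0 : ℝ) : ℂ) * g) * u := by
          simp only [Complex.real_smul]; push_cast; ring
        constructor
        · have := tile_side hu hside (x := x) h3 h4
          convert this using 1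
          simp only [Complex.real_smul]; push_cast; ring
        · change φ (v + x • (v + u - v)) = c
          rw [e, hval, hA]; ring
    · exfalso
      obtain ⟨x, y, h1, h2, h3, h4, rfl⟩ := hmem z0 hz0
      rw [hval, hA, hB] at hz0c
      simp at hz0c

theorem face_none {T : Set ℂ} (hT : IsTri T ∨ IsSq T) {φ : ℂ →L[ℝ] ℝ} {c : ℝ} (hle : ∀ z ∈ T, φ z ≤ c)
    (hno : ∀ v, IsCorner T v → φ v ≠ c) : T ∩ {z | φ z = c} = ∅ := by
  have hlt : T ⊆ {z | φ z < c} := by
    have hconv : Convex ℝ {z | φ z < c} := by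
      have := (convex_Iio c).linear_preimage (φ : ℂ →ₗ[ℝ] ℝ)
      exact this
    have hcor : ∀ v, IsCorner T v → φ v < c := fun v hv => lt_of_le_of_ne (hle v (corner_mem hv)) (hno v hv)
    rcases hT with ⟨a, u, hu, rfl⟩ | ⟨a, u, hu, rfl⟩
    · have h0 := hcor a ⟨u, hu, Or.inl rfl⟩
      have h1 := hcor (a + u) (corner_end hu (Or.inl rfl))
      have h2 := hcor (a + ζ * u) ⟨-ζ * u, by rw [norm_mul, norm_neg, zeta_norm, hu, one_mul], Or.inl (tri_rot' a u)⟩
      apply convexHull_min _ hconv
      rintro z (rfl | rfl | rfl)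
      · exact h0
      · exact h1
      · exact h2
    · have h0 := hcor a ⟨u, hu, Or.inr rfl⟩
      have h1 := hcor (a + u) (corner_end hu (Or.inr rfl))
      have h2 := hcor (a + u + I * u) ⟨-u, by rw [norm_neg, hu], Or.inr (sq_rot2 a u)⟩
      have h3 := hcor (a + I * u) ⟨-I * u, by rw [norm_mul, norm_neg, Complex.norm_I, hu, one_mul],
        Or.inr (sq_rot3 a u)⟩
      apply convexHull_min _ hconv
      rintro z (rfl | rfl | rfl | rfl)
      · exact h0
      · exact h1
      · exact h2
      · exact h3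
  ext z
  simp only [mem_inter_iff, mem_ofPred_eq, mem_empty_iff_false, iff_false, not_and]
  intro hz h
  have := hlt hz
  rw [mem_ofPred_eq] at this
  linarith

theorem face {T : Set ℂ} (hT : IsTri T ∨ IsSq T) {φ : ℂ →L[ℝ] ℝ} {c : ℝ} (hle : ∀ z ∈ T, φ z ≤ c)
    (hlt : ∃ z ∈ T, φ z < c) : T ∩ {z | φ z = c} = ∅ ∨ (∃ v, IsCorner T v ∧ T ∩ {z | φ z = c} = {v}) ∨
      ∃ p d, ‖d‖ = 1 ∧ Tile p d T ∧ T ∩ {z | φ z = c} = segment ℝ p (p + d) := by
  by_cases h : ∃ v, IsCorner T v ∧ φ v = c
  · obtain ⟨v, hv, hvc⟩ := h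
    rcases face_corner hle hlt hv hvc with h1 | h1
    · exact Or.inr (Or.inl ⟨v, hv, h1⟩)
    · exact Or.inr (Or.inr h1)
  · left
    apply face_none hT hle
    intro v hv hvc
    exact h ⟨v, hv, hvc⟩

theorem tile_conv {T : Set ℂ} (h : IsTri T ∨ IsSq T) : Convex ℝ T := by
  obtain ⟨a, u, hu, hT⟩ := tile_of h
  exact tile_convex hT

theorem edge_gen {S T : Set ℂ} (hS : IsTri S ∨ IsSq S) (hT : IsTri T ∨ IsSq T)
    (hint : Disjoint (interior S) (interior T)) (h1 : ∀ v, IsCorner S v → v ∈ T → IsCorner T v)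
    (h2 : ∀ v, IsCorner T v → v ∈ S → IsCorner S v) : S ∩ T = ∅ ∨
      (∃ v, IsCorner S v ∧ IsCorner T v ∧ S ∩ T = {v}) ∨ (∃ e, IsSide S e ∧ IsSide T e ∧ S ∩ T = e) := by
  obtain ⟨φ, c, hφS, hφT⟩ := geometric_hahn_banach_open_open (tile_conv hS).interior isOpen_interior
    (tile_conv hT).interior isOpen_interior hint
  obtain ⟨s0, hs0⟩ := tile_int_ne hS
  obtain ⟨t0, ht0⟩ := tile_int_ne hT
  have hleS : ∀ z ∈ S, φ z ≤ c := by
    intro z hz
    rw [← tile_closure hS] at hz
    have : closure (interior S) ⊆ {z | φ z ≤ c} := by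
      apply closure_minimal
      · intro y hy; exact (hφS y hy).le
      · exact isClosed_le φ.continuous continuous_const
    exact this hz
  have hleT : ∀ z ∈ T, c ≤ φ z := by
    intro z hz
    rw [← tile_closure hT] at hz
    have : closure (interior T) ⊆ {z | c ≤ φ z} := by
      apply closure_minimal
      · intro y hy; exact (hφT y hy).le
      · exact isClosed_le continuous_const φ.continuous
    exact this hz
  have hST : S ∩ T = (S ∩ {z | φ z = c}) ∩ (T ∩ {z | φ z = c}) := by
    ext z
    simp only [mem_inter_iff, mem_ofPred_eq]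
    constructor
    · rintro ⟨hz1, hz2⟩
      have := le_antisymm (hleS z hz1) (hleT z hz2)
      exact ⟨⟨hz1, this⟩, hz2, this⟩
    · rintro ⟨⟨hz1, -⟩, hz2, -⟩
      exact ⟨hz1, hz2⟩
  have fS := face hS hleS ⟨s0, interior_subset hs0, hφS s0 hs0⟩
  have fT' := face hT (φ := -φ) (c := -c) (by
    intro z hz
    have := hleT z hz
    simp only [neg_apply]
    linarith) ⟨t0, interior_subset ht0, by
      have := hφT t0 ht0
      simp only [neg_apply]
      linarith⟩
  have hset : {z : ℂ | (-φ) z = -c} = {z | φ z = c} := by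
    ext z
    simp only [neg_apply, mem_ofPred_eq, neg_inj]
  rw [hset] at fT'
  rcases fS with fS | ⟨v, hv, fS⟩ | ⟨p, d, hd, hpd, fS⟩
  · left; rw [hST, fS, empty_inter]
  · by_cases hvT : v ∈ T
    · right; left
      refine ⟨v, hv, h1 v hv hvT, ?_⟩
      rw [hST, fS]
      ext z
      simp only [mem_inter_iff, mem_singleton_iff, mem_ofPred_eq]
      constructor
      · rintro ⟨h, -⟩; exact h
      · rintro rfl
        refine ⟨rfl, hvT, ?_⟩
        have : z ∈ S ∩ {z | φ z = c} := by rw [fS]; rfl
        exact this.2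
    · left
      rw [hST, fS]
      ext z
      simp only [mem_inter_iff, mem_singleton_iff, mem_ofPred_eq, mem_empty_iff_false, iff_false]
      rintro ⟨rfl, h, -⟩
      exact hvT h
  · rcases fT' with fT | ⟨v, hv, fT⟩ | ⟨p', d', hd', hpd', fT⟩
    · left; rw [hST, fT, inter_empty]
    · by_cases hvS : v ∈ S
      · right; left
        refine ⟨v, h2 v hv hvS, hv, ?_⟩
        rw [hST, fT]
        ext z
        simp only [mem_inter_iff, mem_singleton_iff, mem_ofPred_eq]
        constructor
        · rintro ⟨-, h⟩; exact h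
        · rintro rfl
          refine ⟨⟨hvS, ?_⟩, rfl⟩
          have : z ∈ T ∩ {z | φ z = c} := by rw [fT]; rfl
          exact this.2
      · left
        rw [hST, fT]
        ext z
        simp only [mem_inter_iff, mem_singleton_iff, mem_ofPred_eq, mem_empty_iff_false, iff_false]
        rintro ⟨⟨h, -⟩, rfl⟩
        exact hvS h
    · have hd0 := ne_zero_of_norm hd
      have hpc : φ p = c := by
        have : p ∈ S ∩ {z | φ z = c} := by rw [fS]; exact left_mem_segment ℝ _ _
        exact this.2
      have hpdc : φ (p + d) = c := by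
        have : p + d ∈ S ∩ {z | φ z = c} := by rw [fS]; exact right_mem_segment ℝ _ _
        exact this.2
      have hpc' : φ p' = c := by
        have : p' ∈ T ∩ {z | φ z = c} := by rw [fT]; exact left_mem_segment ℝ _ _
        exact this.2
      have hpdc' : φ (p' + d') = c := by
        have : p' + d' ∈ T ∩ {z | φ z = c} := by rw [fT]; exact right_mem_segment ℝ _ _
        exact this.2
      have hφd : φ d = 0 := by rw [map_add, hpc] at hpdc; linarith
      have hφd' : φ d' = 0 := by rw [map_add, hpc'] at hpdc'; linarith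
      have hφId : φ (I * d) < 0 := by
        have hle := hleS _ (tile_mid hd hpd (ε := 1 / 2) (by norm_num) le_rfl)
        have e : (1 / 2 + ((1 / 2 : ℝ) : ℂ) * I) * d = (((1 / 2 : ℝ) : ℂ) + ((1 / 2 : ℝ) : ℂ) * I) * d := by
          push_cast; ring
        rw [map_add, hpc, e, clm_mul, hφd] at hle
        have hle' : φ (I * d) ≤ 0 := by linarith
        refine lt_of_le_of_ne hle' ?_
        intro h0
        have hzero : ∀ z, φ z = 0 := by
          intro z
          have e1 : z = (((z / d).re : ℂ) + ((z / d).im : ℂ) * I) * d := by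
            rw [Complex.re_add_im]; field_simp
          rw [e1, clm_mul, hφd, h0]; ring
        have := hφS s0 hs0
        have h3 := hφT t0 ht0
        rw [hzero] at this h3
        linarith
      have hreal : ∀ z, φ z = 0 → ∃ t : ℝ, z = (t : ℂ) * d := by
        intro z hz
        have e1 : z = (((z / d).re : ℂ) + ((z / d).im : ℂ) * I) * d := by
          rw [Complex.re_add_im]; field_simp
        rw [e1, clm_mul, hφd] at hz
        have him : (z / d).im = 0 := by
          have : (z / d).im * φ (I * d) = 0 := by linarith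
          rcases mul_eq_zero.1 this with h | h
          · exact h
          · linarith
        refine ⟨(z / d).re, ?_⟩
        rw [him] at e1
        simpa using e1
      obtain ⟨x, hx⟩ := hreal d' hφd'
      have hxn : |x| = 1 := by
        have : ‖d'‖ = |x| * ‖d‖ := by rw [hx, norm_mul, Complex.norm_real, Real.norm_eq_abs]
        rw [hd, hd', mul_one] at this
        exact this.symm
      have hφId' : 0 ≤ φ (I * d') := by
        have hle := hleT _ (tile_mid hd' hpd' (ε := 1 / 2) (by norm_num) le_rfl)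
        have e : (1 / 2 + ((1 / 2 : ℝ) : ℂ) * I) * d' = (((1 / 2 : ℝ) : ℂ) + ((1 / 2 : ℝ) : ℂ) * I) * d' := by
          push_cast; ring
        rw [map_add, hpc', e, clm_mul, hφd'] at hle
        linarith
      have hxm : x = -1 := by
        have e : I * d' = (((0 : ℝ) : ℂ) + (x : ℂ) * I) * d := by rw [hx]; push_cast; ring
        rw [e, clm_mul, hφd] at hφId'
        rcases abs_cases x with ⟨h3, h4⟩ | ⟨h3, h4⟩
        · exfalso
          have : x = 1 := by linarith
          rw [this] at hφId'
          linarith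
        · linarith
      have hd'd : d' = -d := by rw [hx, hxm]; push_cast; ring
      subst hd'd
      obtain ⟨t, ht⟩ := hreal (p' - p) (by rw [map_sub, hpc, hpc']; ring)
      have hp' : p' = p + t * d := by rw [← ht]; ring
      have hA : ∀ z, z ∈ segment ℝ p (p + d) ↔ ∃ y : ℝ, 0 ≤ y ∧ y ≤ 1 ∧ z = p + y * d := by
        intro z
        rw [segment_eq_image']
        constructor
        · rintro ⟨y, ⟨h3, h4⟩, rfl⟩
          exact ⟨y, h3, h4, by simp only [Complex.real_smul]; ring⟩
        · rintro ⟨y, h3, h4, rfl⟩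
          exact ⟨y, ⟨h3, h4⟩, by simp only [Complex.real_smul]; ring⟩
      have hB : ∀ z, z ∈ segment ℝ p' (p' + -d) ↔ ∃ y : ℝ, t - 1 ≤ y ∧ y ≤ t ∧ z = p + y * d := by
        intro z
        rw [segment_eq_image']
        constructor
        · rintro ⟨y, ⟨h3, h4⟩, rfl⟩
          refine ⟨t - y, by linarith, by linarith, ?_⟩
          rw [hp']; simp only [Complex.real_smul]; push_cast; ring
        · rintro ⟨y, h3, h4, rfl⟩
          refine ⟨t - y, ⟨by linarith, by linarith⟩, ?_⟩
          rw [hp']; simp only [Complex.real_smul]; push_cast; ring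
      have hinj : ∀ y y' : ℝ, p + (y : ℂ) * d = p + (y' : ℂ) * d → y = y' := by
        intro y y' h
        have : (y : ℂ) = y' := mul_right_cancel₀ hd0 (add_left_cancel h)
        exact_mod_cast this
      have hSTmem : ∀ z, z ∈ S ∩ T ↔ ∃ y : ℝ, 0 ≤ y ∧ y ≤ 1 ∧ t - 1 ≤ y ∧ y ≤ t ∧ z = p + y * d := by
        intro z
        rw [hST, fS, fT]
        constructor
        · rintro ⟨hz1, hz2⟩
          obtain ⟨y, a1, a2, rfl⟩ := (hA z).1 hz1
          obtain ⟨y', b1, b2, hb⟩ := (hB _).1 hz2
          have := hinj _ _ hb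
          subst this
          exact ⟨y, a1, a2, b1, b2, rfl⟩
        · rintro ⟨y, a1, a2, b1, b2, rfl⟩
          exact ⟨(hA _).2 ⟨y, a1, a2, rfl⟩, (hB _).2 ⟨y, b1, b2, rfl⟩⟩
      have hcT1 : IsCorner T p' := ⟨-d, hd', hpd'⟩
      have hcT2 : IsCorner T (p' + -d) := corner_end hd' hpd'
      rcases lt_trichotomy t 0 with h3 | h3 | h3
      · left
        ext z
        rw [hSTmem]
        simp only [mem_empty_iff_false, iff_false]
        rintro ⟨y, a1, a2, b1, b2, -⟩
        linarith
      · right; left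
        subst h3
        have hpp : p' = p := by rw [hp']; simp
        rw [hpp] at hcT1
        refine ⟨p, ⟨d, hd, hpd⟩, hcT1, ?_⟩
        ext z
        rw [hSTmem, mem_singleton_iff]
        constructor
        · rintro ⟨y, a1, a2, b1, b2, rfl⟩
          have : y = 0 := le_antisymm b2 a1
          rw [this]; simp
        · rintro rfl
          exact ⟨0, le_rfl, zero_le_one, by norm_num, le_rfl, by simp⟩
      · rcases lt_trichotomy t 1 with h4 | h4 | h4
        · exfalso
          have hmS : p' ∈ S := by rw [hp']; exact tile_side hd hpd h3.le h4.le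
          have := h2 p' hcT1 hmS
          rw [hp'] at this
          exact side_not_corner hd hpd h3 h4 this
        · right; right
          subst h4
          refine ⟨segment ℝ p (p + d), ⟨p, d, hd, hpd, rfl⟩, ⟨p', -d, hd', hpd', ?_⟩, ?_⟩
          · have : p' = p + d := by rw [hp']; push_cast; ring
            rw [this, add_neg_cancel_right, segment_symm]
          · ext z
            rw [hSTmem, hA]
            constructor
            · rintro ⟨y, a1, a2, b1, b2, rfl⟩
              exact ⟨y, a1, a2, rfl⟩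
            · rintro ⟨y, a1, a2, rfl⟩
              exact ⟨y, a1, a2, by linarith, a2, rfl⟩
        · rcases lt_trichotomy t 2 with h5 | h5 | h5
          · exfalso
            have e : p' + -d = p + ((t - 1 : ℝ) : ℂ) * d := by rw [hp']; push_cast; ring
            have hmS : p' + -d ∈ S := by rw [e]; exact tile_side hd hpd (by linarith) (by linarith)
            have := h2 _ hcT2 hmS
            rw [e] at this
            exact side_not_corner hd hpd (by linarith) (by linarith) this
          · right; left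
            subst h5
            have hpp : p' + -d = p + d := by rw [hp']; push_cast; ring
            rw [hpp] at hcT2
            refine ⟨p + d, corner_end hd hpd, hcT2, ?_⟩
            ext z
            rw [hSTmem, mem_singleton_iff]
            constructor
            · rintro ⟨y, a1, a2, b1, b2, rfl⟩
              have : y = 1 := by linarith
              rw [this]; simp
            · rintro rfl
              exact ⟨1, zero_le_one, le_rfl, by norm_num, by norm_num, by simp⟩
          · left
            ext z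
            rw [hSTmem]
            simp only [mem_empty_iff_false, iff_false]
            rintro ⟨y, a1, a2, b1, b2, -⟩
            linarith

end Pool.Agent.R175.TriSq
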