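import Mathlib
import Pool.Agent.R175.TriSq.Edge
import Pool.Agent.R175.TriSq.Support

/-!
# The snub square tiling as the image of a grid
-/

set_option autoImplicit false

namespace Pool.Agent.R175.TriSq

open Set Complex ComplexConjugate Pool.Agent.R175.TriGeo Topology

/-- The even integers. -/
def evens : Set ℝ := range fun k : ℤ => ((2 * k : ℤ) : ℝ)

/-- The distance to the even integers. -/
noncomputable def τ (s : ℝ) : ℝ := Metric.infDist s evens

theorem tau_lip (s t : ℝ) : |τ s - τ t| ≤ |s - t| := by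
  have h := Metric.lipschitz_infDist_pt evens
  have := h.dist_le_mul s t
  simp only [Real.dist_eq, NNReal.coe_one, one_mul] at this
  exact this

theorem evens_nonempty : evens.Nonempty := ⟨_, 0, rfl⟩

theorem tau_even {m : ℤ} (hm : Even m) {s : ℝ} (h0 : (m : ℝ) ≤ s) (h1 : s ≤ m + 1) : τ s = s - m := by
  obtain ⟨k, rfl⟩ := hm
  apply le_antisymm
  · have hmem : (((k + k : ℤ)) : ℝ) ∈ evens := ⟨k, by push_cast; ring⟩
    have := Metric.infDist_le_dist_of_mem (x := s) hmem
    rw [Real.dist_eq, abs_of_nonneg (by linarith)] at this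
    exact this
  · rw [τ, Metric.le_infDist evens_nonempty]
    rintro _ ⟨j, rfl⟩
    rw [Real.dist_eq]
    rcases le_or_gt j k with hj | hj
    · have : (j : ℝ) ≤ k := by exact_mod_cast hj
      push_cast at h0 h1 ⊢
      rw [abs_of_nonneg (by linarith)]
      linarith
    · have : (k : ℝ) + 1 ≤ j := by exact_mod_cast hj
      push_cast at h0 h1 ⊢
      rw [abs_of_nonpos (by linarith)]
      linarith

theorem tau_odd {m : ℤ} (hm : Odd m) {s : ℝ} (h0 : (m : ℝ) ≤ s) (h1 : s ≤ m + 1) : τ s = 1 - (s - m) := by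
  obtain ⟨k, rfl⟩ := hm
  apply le_antisymm
  · have hmem : (((2 * (k + 1) : ℤ)) : ℝ) ∈ evens := ⟨k + 1, rfl⟩
    have := Metric.infDist_le_dist_of_mem (x := s) hmem
    push_cast at h0 h1 this ⊢
    rw [Real.dist_eq, abs_of_nonpos (by linarith)] at this
    change Metric.infDist s evens ≤ _
    linarith
  · rw [τ, Metric.le_infDist evens_nonempty]
    rintro _ ⟨j, rfl⟩
    rw [Real.dist_eq]
    rcases le_or_gt j k with hj | hj
    · have : (j : ℝ) ≤ k := by exact_mod_cast hj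
      push_cast at h0 h1 ⊢
      rw [abs_of_nonneg (by linarith)]
      linarith
    · have : (k : ℝ) + 1 ≤ j := by exact_mod_cast hj
      push_cast at h0 h1 ⊢
      rw [abs_of_nonpos (by linarith)]
      linarith

/-- The bending of the grid. -/
noncomputable def Ψ (z : ℂ) : ℂ := z + (-((2 - r3 : ℝ) : ℂ) * I) * ((τ z.re : ℂ) + (τ z.im : ℂ) * I)

theorem psi_sub (z w : ℂ) : ‖(Ψ z - Ψ w) - (z - w)‖ ≤ (2 - r3) * ‖z - w‖ := by
  have hc := r3_lt
  have e : (Ψ z - Ψ w) - (z - w) = (-((2 - r3 : ℝ) : ℂ) * I) *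
      (((τ z.re - τ w.re : ℝ) : ℂ) + ((τ z.im - τ w.im : ℝ) : ℂ) * I) := by
    unfold Ψ; push_cast; ring
  rw [e, norm_mul, norm_mul, norm_neg, Complex.norm_I, mul_one, Complex.norm_real, Real.norm_eq_abs,
    abs_of_pos (by linarith : 0 < 2 - r3)]
  apply mul_le_mul_of_nonneg_left _ (by linarith)
  apply le_of_sq_le_sq _ (norm_nonneg _)
  rw [← Complex.normSq_eq_norm_sq, ← Complex.normSq_eq_norm_sq, Complex.normSq_add_mul_I, Complex.normSq_apply]
  have h1 := tau_lip z.re w.re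
  have h2 := tau_lip z.im w.im
  have h3 := sq_le_sq.2 h1
  have h4 := sq_le_sq.2 h2
  simp only [Complex.sub_re, Complex.sub_im]
  nlinarith

theorem psi_approx : ApproximatesLinearOn Ψ ((ContinuousLinearEquiv.refl ℝ ℂ : ℂ ≃L[ℝ] ℂ) : ℂ →L[ℝ] ℂ) univ
    (⟨2 - r3, by linarith [r3_lt]⟩ : NNReal) := by
  intro z _ w _
  exact psi_sub z w

theorem c_lt_one : 2 - r3 < 1 := by linarith [one_lt_r3]

/-- The bending of the grid as a homeomorphism. -/
noncomputable def Ψh : ℂ ≃ₜ ℂ := psi_approx.toHomeomorph Ψ (Or.inr (by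
  have h : ‖((ContinuousLinearEquiv.refl ℝ ℂ).symm : ℂ →L[ℝ] ℂ)‖₊ ≤ 1 := by
    apply ContinuousLinearMap.opNNNorm_le_bound
    intro x
    simp
  have h1 : (1 : NNReal) ≤ ‖((ContinuousLinearEquiv.refl ℝ ℂ).symm : ℂ →L[ℝ] ℂ)‖₊⁻¹ := by
    rw [le_inv_comm₀ zero_lt_one]
    · rw [inv_one]; exact h
    · rw [nnnorm_pos]
      intro h0
      have := congrArg (fun L : ℂ →L[ℝ] ℂ => L 1) h0
      simp at this
  refine lt_of_lt_of_le ?_ h1
  exact_mod_cast c_lt_one))

/-- The scaling factor. -/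
noncomputable def κ : ℂ := (1 + ρ) / 2

theorem kappa_ne : κ ≠ 0 := by
  intro h
  have := congrArg Complex.re h
  have hp := r3_pos
  simp [κ, rho_re] at this
  linarith

/-- The map that takes the grid with some diagonals to the snub square tiling. -/
noncomputable def Θ : ℂ ≃ₜ ℂ := Ψh.trans (Homeomorph.mulLeft₀ κ kappa_ne)

theorem theta_apply (z : ℂ) : Θ z = κ * Ψ z := rfl

theorem kappa_one : κ * (1 - ((2 - r3 : ℝ) : ℂ) * I) = 1 := by
  have h3 := r3_sq
  apply Complex.ext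
  · simp [κ, rho_re, rho_im]; nlinarith
  · simp [κ, rho_re, rho_im]; nlinarith

theorem kappa_rho : κ * (1 + ((2 - r3 : ℝ) : ℂ) * I) = ρ := by
  have h3 := r3_sq
  apply Complex.ext
  · simp [κ, rho_re, rho_im]; nlinarith
  · simp [κ, rho_re, rho_im]; nlinarith

/-- The vertices. -/
noncomputable def P (m n : ℤ) : ℂ := Θ ((m : ℂ) + (n : ℂ) * I)

theorem tau_int_even {m : ℤ} (hm : Even m) : τ m = 0 := by
  rw [tau_even hm le_rfl (by linarith)]; ring

theorem tau_int_odd {m : ℤ} (hm : Odd m) : τ m = 1 := by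
  rw [tau_odd hm le_rfl (by linarith)]; ring

theorem P_eq (m n : ℤ) : P m n = κ * ((m : ℂ) + (n : ℂ) * I + (-((2 - r3 : ℝ) : ℂ) * I) * ((τ m : ℂ) + (τ n : ℂ) * I)) := by
  unfold P
  rw [theta_apply, Ψ]
  simp

theorem theta_ee {m n : ℤ} (hm : Even m) (hn : Even n) {x y : ℝ} (hx0 : 0 ≤ x) (hx1 : x ≤ 1) (hy0 : 0 ≤ y)
    (hy1 : y ≤ 1) : Θ (((m + x : ℝ) : ℂ) + ((n + y : ℝ) : ℂ) * I) = P m n + ((x : ℂ) + (y : ℂ) * I) * 1 := by
  rw [P_eq, theta_apply, Ψ, tau_int_even hm, tau_int_even hn]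
  have e1 : (((m + x : ℝ) : ℂ) + ((n + y : ℝ) : ℂ) * I).re = m + x := by simp
  have e2 : (((m + x : ℝ) : ℂ) + ((n + y : ℝ) : ℂ) * I).im = n + y := by simp
  rw [e1, e2, tau_even hm (by linarith) (by linarith), tau_even hn (by linarith) (by linarith)]
  push_cast
  have h := kappa_one
  push_cast at h
  linear_combination ((x : ℂ) + (y : ℂ) * I) * h

theorem theta_oo {m n : ℤ} (hm : Odd m) (hn : Odd n) {x y : ℝ} (hx0 : 0 ≤ x) (hx1 : x ≤ 1) (hy0 : 0 ≤ y)
    (hy1 : y ≤ 1) : Θ (((m + x : ℝ) : ℂ) + ((n + y : ℝ) : ℂ) * I) = P m n + ((x : ℂ) + (y : ℂ) * I) * ρ := by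
  rw [P_eq, theta_apply, Ψ, tau_int_odd hm, tau_int_odd hn]
  have e1 : (((m + x : ℝ) : ℂ) + ((n + y : ℝ) : ℂ) * I).re = m + x := by simp
  have e2 : (((m + x : ℝ) : ℂ) + ((n + y : ℝ) : ℂ) * I).im = n + y := by simp
  rw [e1, e2, tau_odd hm (by linarith) (by linarith), tau_odd hn (by linarith) (by linarith)]
  push_cast
  have h := kappa_rho
  push_cast at h
  linear_combination ((x : ℂ) + (y : ℂ) * I) * h

theorem theta_eo {m n : ℤ} (hm : Even m) (hn : Odd n) {x y : ℝ} (hx0 : 0 ≤ x) (hx1 : x ≤ 1) (hy0 : 0 ≤ y)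
    (hy1 : y ≤ 1) : Θ (((m + x : ℝ) : ℂ) + ((n + y : ℝ) : ℂ) * I) = P m n + ((x : ℂ) + (y : ℂ) * (ζ - 1)) := by
  rw [P_eq, theta_apply, Ψ, tau_int_even hm, tau_int_odd hn]
  have e1 : (((m + x : ℝ) : ℂ) + ((n + y : ℝ) : ℂ) * I).re = m + x := by simp
  have e2 : (((m + x : ℝ) : ℂ) + ((n + y : ℝ) : ℂ) * I).im = n + y := by simp
  rw [e1, e2, tau_even hm (by linarith) (by linarith), tau_odd hn (by linarith) (by linarith), ← I_rho]
  push_cast
  have h := kappa_one
  have h' := kappa_rho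
  push_cast at h h'
  linear_combination (x : ℂ) * h + (y : ℂ) * I * h'

theorem theta_oe {m n : ℤ} (hm : Odd m) (hn : Even n) {x y : ℝ} (hx0 : 0 ≤ x) (hx1 : x ≤ 1) (hy0 : 0 ≤ y)
    (hy1 : y ≤ 1) : Θ (((m + x : ℝ) : ℂ) + ((n + y : ℝ) : ℂ) * I) = P m n + ((x : ℂ) + (y : ℂ) * ζ) * ρ := by
  rw [P_eq, theta_apply, Ψ, tau_int_odd hm, tau_int_even hn]
  have e1 : (((m + x : ℝ) : ℂ) + ((n + y : ℝ) : ℂ) * I).re = m + x := by simp
  have e2 : (((m + x : ℝ) : ℂ) + ((n + y : ℝ) : ℂ) * I).im = n + y := by simp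
  rw [e1, e2, tau_odd hm (by linarith) (by linarith), tau_even hn (by linarith) (by linarith)]
  push_cast
  have h := kappa_one
  have h' := kappa_rho
  push_cast at h h'
  linear_combination (x : ℂ) * h' + (y : ℂ) * I * h - (y : ℂ) * zeta_rho

/-- The region of the grid with diagonals. -/
def Reg (m n : ℤ) (h : Bool) : Set ℂ := {z | (m : ℝ) ≤ z.re ∧ z.re ≤ m + 1 ∧ (n : ℝ) ≤ z.im ∧ z.im ≤ n + 1 ∧
  (Even m → Odd n → (h = true → z.im - n ≤ z.re - m) ∧ (h = false → z.re - m ≤ z.im - n)) ∧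
  (Odd m → Even n → (h = true → (z.re - m) + (z.im - n) ≤ 1) ∧ (h = false → 1 ≤ (z.re - m) + (z.im - n)))}

/-- The tiles of the snub square tiling. -/
noncomputable def tile (m n : ℤ) (h : Bool) : Set ℂ := Θ '' Reg m n h

theorem cell_coord {m n : ℤ} (z : ℂ) : z = ((m + (z.re - m) : ℝ) : ℂ) + ((n + (z.im - n) : ℝ) : ℂ) * I := by
  apply Complex.ext <;> simp

theorem not_even_odd {m : ℤ} (h : Even m) (h' : Odd m) : False := (Int.not_even_iff_odd.2 h') h

theorem tile_ee {m n : ℤ} (hm : Even m) (hn : Even n) (h : Bool) : tile m n h = sq (P m n) 1 := by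
  ext z
  constructor
  · rintro ⟨w, ⟨h1, h2, h3, h4, -⟩, rfl⟩
    rw [cell_coord (m := m) (n := n) w, theta_ee hm hn (by linarith) (by linarith) (by linarith) (by linarith),
      mem_sq one_ne_zero]
    simp
    exact ⟨by linarith, by linarith, by linarith, by linarith⟩
  · intro hz
    obtain ⟨w, hw⟩ : ∃ w, w = (z - P m n) / 1 := ⟨_, rfl⟩
    have hzw := coord one_ne_zero z (a := P m n)
    rw [← hw] at hzw
    rw [hzw, mem_sq one_ne_zero] at hz
    obtain ⟨h1, h2, h3, h4⟩ := hz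
    refine ⟨_, ?_, (theta_ee hm hn h1 h2 h3 h4).trans ?_⟩
    · refine ⟨by simp [h1], by simp [h2], by simp [h3], by simp [h4], fun _ h6 => ?_, fun h5 _ => ?_⟩
      · exact (not_even_odd hn h6).elim
      · exact (not_even_odd hm h5).elim
    · rw [Complex.re_add_im]; exact hzw.symm

theorem tile_oo {m n : ℤ} (hm : Odd m) (hn : Odd n) (h : Bool) : tile m n h = sq (P m n) ρ := by
  have hρ := ne_zero_of_norm rho_norm
  ext z
  constructor
  · rintro ⟨w, ⟨h1, h2, h3, h4, -⟩, rfl⟩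
    rw [cell_coord (m := m) (n := n) w, theta_oo hm hn (by linarith) (by linarith) (by linarith) (by linarith),
      mem_sq hρ]
    simp
    exact ⟨by linarith, by linarith, by linarith, by linarith⟩
  · intro hz
    rw [coord hρ z (a := P m n), mem_sq hρ] at hz
    obtain ⟨h1, h2, h3, h4⟩ := hz
    refine ⟨_, ?_, (theta_oo hm hn h1 h2 h3 h4).trans ?_⟩
    · refine ⟨by simp [h1], by simp [h2], by simp [h3], by simp [h4], fun h5 _ => ?_, fun _ h6 => ?_⟩
      · exact (not_even_odd h5 hm).elim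
      · exact (not_even_odd h6 hn).elim
    · rw [Complex.re_add_im]; field_simp; ring

theorem tile_eo_true {m n : ℤ} (hm : Even m) (hn : Odd n) : tile m n true = tri (P m n) 1 := by
  ext z
  constructor
  · rintro ⟨w, ⟨h1, h2, h3, h4, h5, -⟩, rfl⟩
    have h6 := (h5 hm hn).1 rfl
    rw [cell_coord (m := m) (n := n) w, theta_eo hm hn (by linarith) (by linarith) (by linarith) (by linarith)]
    have e : P m n + (((w.re - m : ℝ) : ℂ) + ((w.im - n : ℝ) : ℂ) * (ζ - 1)) =
        P m n + ((((w.re - m) - (w.im - n) : ℝ) : ℂ) + ((w.im - n : ℝ) : ℂ) * ζ) * 1 := by push_cast; ring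
    rw [e, bary one_ne_zero]
    exact ⟨by linarith, by linarith, by linarith⟩
  · intro hz
    obtain ⟨x, y, hxy⟩ := bary_exists ((z - P m n) / 1)
    rw [coord one_ne_zero z (a := P m n), hxy, bary one_ne_zero] at hz
    obtain ⟨h1, h2, h3⟩ := hz
    refine ⟨_, ?_, (theta_eo hm hn (x := x + y) (y := y) (by linarith) (by linarith) (by linarith) (by linarith)).trans ?_⟩
    · refine ⟨by simp; linarith, by simp; linarith, by simp; linarith, by simp; linarith, fun _ _ => ⟨fun _ => ?_, fun h => ?_⟩,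
        fun h5 _ => ?_⟩
      · simp; linarith
      · cases h
      · exact (not_even_odd hm h5).elim
    · rw [div_one] at hxy
      push_cast
      linear_combination -hxy

theorem tile_eo_false {m n : ℤ} (hm : Even m) (hn : Odd n) : tile m n false = tri (P m n) ζ := by
  have hζ := ne_zero_of_norm zeta_norm
  ext z
  constructor
  · rintro ⟨w, ⟨h1, h2, h3, h4, h5, -⟩, rfl⟩
    have h6 := (h5 hm hn).2 rfl
    rw [cell_coord (m := m) (n := n) w, theta_eo hm hn (by linarith) (by linarith) (by linarith) (by linarith)]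
    have e : P m n + (((w.re - m : ℝ) : ℂ) + ((w.im - n : ℝ) : ℂ) * (ζ - 1)) =
        P m n + (((w.re - m : ℝ) : ℂ) + (((w.im - n) - (w.re - m) : ℝ) : ℂ) * ζ) * ζ := by
      push_cast
      linear_combination (-(((w.im : ℂ) - n) - (w.re - m))) * zeta_sq
    rw [e, bary hζ]
    exact ⟨by linarith, by linarith, by linarith⟩
  · intro hz
    obtain ⟨x, y, hxy⟩ := bary_exists ((z - P m n) / ζ)
    rw [coord hζ z (a := P m n), hxy, bary hζ] at hz
    obtain ⟨h1, h2, h3⟩ := hz
    refine ⟨_, ?_, (theta_eo hm hn (x := x) (y := x + y) (by linarith) (by linarith) (by linarith) (by linarith)).trans ?_⟩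
    · refine ⟨by simp; linarith, by simp; linarith, by simp; linarith, by simp; linarith, fun _ _ => ⟨fun h => ?_, fun _ => ?_⟩,
        fun h5 _ => ?_⟩
      · cases h
      · simp; linarith
      · exact (not_even_odd hm h5).elim
    · have hzz : z = P m n + ((x : ℂ) + (y : ℂ) * ζ) * ζ := by rw [← hxy]; exact coord hζ z
      rw [hzz]
      push_cast
      linear_combination (-(y : ℂ)) * zeta_sq

theorem tile_oe_true {m n : ℤ} (hm : Odd m) (hn : Even n) : tile m n true = tri (P m n) ρ := by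
  have hρ := ne_zero_of_norm rho_norm
  ext z
  constructor
  · rintro ⟨w, ⟨h1, h2, h3, h4, -, h5⟩, rfl⟩
    have h6 := (h5 hm hn).1 rfl
    rw [cell_coord (m := m) (n := n) w, theta_oe hm hn (by linarith) (by linarith) (by linarith) (by linarith),
      bary hρ]
    exact ⟨by linarith, by linarith, by linarith⟩
  · intro hz
    obtain ⟨x, y, hxy⟩ := bary_exists ((z - P m n) / ρ)
    rw [coord hρ z (a := P m n), hxy, bary hρ] at hz
    obtain ⟨h1, h2, h3⟩ := hz
    refine ⟨_, ?_, (theta_oe hm hn (x := x) (y := y) (by linarith) (by linarith) (by linarith) (by linarith)).trans ?_⟩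
    · refine ⟨by simp; linarith, by simp; linarith, by simp; linarith, by simp; linarith, fun h5 _ => ?_,
        fun _ _ => ⟨fun _ => ?_, fun h => ?_⟩⟩
      · exact (not_even_odd h5 hm).elim
      · simp; linarith
      · cases h
    · rw [← hxy]; exact (coord hρ z).symm

theorem tile_oe_false {m n : ℤ} (hm : Odd m) (hn : Even n) : tile m n false = tri (P m n + ρ + I) (-ρ) := by
  have hρ := ne_zero_of_norm rho_norm
  have hρ' : -ρ ≠ 0 := neg_ne_zero.2 hρ
  ext z
  constructor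
  · rintro ⟨w, ⟨h1, h2, h3, h4, -, h5⟩, rfl⟩
    have h6 := (h5 hm hn).2 rfl
    rw [cell_coord (m := m) (n := n) w, theta_oe hm hn (by linarith) (by linarith) (by linarith) (by linarith)]
    have e : P m n + (((w.re - m : ℝ) : ℂ) + ((w.im - n : ℝ) : ℂ) * ζ) * ρ =
        P m n + ρ + I + (((1 - (w.re - m) : ℝ) : ℂ) + ((1 - (w.im - n) : ℝ) : ℂ) * ζ) * -ρ := by
      push_cast
      linear_combination zeta_rho
    rw [e, bary hρ']
    exact ⟨by linarith, by linarith, by linarith⟩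
  · intro hz
    obtain ⟨x, y, hxy⟩ := bary_exists ((z - (P m n + ρ + I)) / -ρ)
    rw [coord hρ' z (a := P m n + ρ + I), hxy, bary hρ'] at hz
    obtain ⟨h1, h2, h3⟩ := hz
    refine ⟨_, ?_, (theta_oe hm hn (x := 1 - x) (y := 1 - y) (by linarith) (by linarith) (by linarith) (by linarith)).trans ?_⟩
    · refine ⟨by simp; linarith, by simp; linarith, by simp; linarith, by simp; linarith, fun h5 _ => ?_,
        fun _ _ => ⟨fun h => ?_, fun _ => ?_⟩⟩
      · exact (not_even_odd h5 hm).elim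
      · cases h
      · simp; linarith
    · have hzz : z = P m n + ρ + I + ((x : ℂ) + (y : ℂ) * ζ) * -ρ := by rw [← hxy]; exact coord hρ' z
      rw [hzz]
      push_cast
      linear_combination zeta_rho

end Pool.Agent.R175.TriSq
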