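import Mathlib
import Pool.Agent.R175.TriSq.Snub

/-!
# The tiles around a vertex of the snub square tiling
-/

set_option autoImplicit false

namespace Pool.Agent.R175.TriSq

open Set Complex ComplexConjugate Pool.Agent.R175.TriGeo Topology

theorem P_right_even {m : ℤ} (hm : Even m) (n : ℤ) : P (m + 1) n = P m n + 1 := by
  rw [P_eq, P_eq, tau_int_even hm, tau_int_odd hm.add_one]
  have h := kappa_one
  push_cast at h ⊢
  linear_combination h

theorem P_right_odd {m : ℤ} (hm : Odd m) (n : ℤ) : P (m + 1) n = P m n + ρ := by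
  rw [P_eq, P_eq, tau_int_odd hm, tau_int_even hm.add_one]
  have h := kappa_rho
  push_cast at h ⊢
  linear_combination h

theorem P_up_even (m : ℤ) {n : ℤ} (hn : Even n) : P m (n + 1) = P m n + I := by
  rw [P_eq, P_eq, tau_int_even hn, tau_int_odd hn.add_one]
  have h := kappa_one
  push_cast at h ⊢
  linear_combination I * h

theorem P_up_odd (m : ℤ) {n : ℤ} (hn : Odd n) : P m (n + 1) = P m n + I * ρ := by
  rw [P_eq, P_eq, tau_int_odd hn, tau_int_even hn.add_one]
  have h := kappa_rho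
  push_cast at h ⊢
  linear_combination I * h

/-- The snub square tiling. -/
def snub : Set (Set ℂ) := {T | ∃ (m n : ℤ) (h : Bool), T = tile m n h}

theorem mem_tile {m n : ℤ} {h : Bool} {z : ℂ} : Θ z ∈ tile m n h ↔ z ∈ Reg m n h :=
  Θ.injective.mem_set_image

theorem vertex_mem {a b m n : ℤ} {h : Bool} (hv : P a b ∈ tile m n h) : (m = a ∨ m = a - 1) ∧ (n = b ∨ n = b - 1) ∧
    (Even m → Odd n → (h = true → b - n ≤ a - m) ∧ (h = false → a - m ≤ b - n)) ∧
    (Odd m → Even n → (h = true → (a - m) + (b - n) ≤ 1) ∧ (h = false → 1 ≤ (a - m) + (b - n))) := by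
  obtain ⟨h1, h2, h3, h4, h5, h6⟩ := mem_tile.1 hv
  simp only [add_re, intCast_re, mul_re, I_re, mul_zero, intCast_im, I_im, mul_one, sub_self, add_zero, add_im, mul_im,
    zero_add] at h1 h2 h3 h4 h5 h6
  refine ⟨?_, ?_, fun e o => ⟨fun ht => ?_, fun hf => ?_⟩, fun o e => ⟨fun ht => ?_, fun hf => ?_⟩⟩
  · have i1 : m ≤ a := by exact_mod_cast h1
    have i2 : a ≤ m + 1 := by exact_mod_cast h2
    omega
  · have i1 : n ≤ b := by exact_mod_cast h3
    have i2 : b ≤ n + 1 := by exact_mod_cast h4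
    omega
  · have := (h5 e o).1 ht
    exact_mod_cast this
  · have := (h5 e o).2 hf
    exact_mod_cast this
  · have := (h6 o e).1 ht
    exact_mod_cast this
  · have := (h6 o e).2 hf
    exact_mod_cast this

theorem n1 : ‖(-1 : ℂ)‖ = 1 := by simp
theorem nI : ‖(-I : ℂ)‖ = 1 := by simp
theorem nζ1 : ‖(1 - ζ : ℂ)‖ = 1 := by
  have : (1 - ζ : ℂ) = -(ζ - 1) := by ring
  rw [this, norm_neg, zeta_one_norm]
theorem nζ : ‖(-ζ : ℂ)‖ = 1 := by rw [norm_neg, zeta_norm]
theorem nρ : ‖(-ρ : ℂ)‖ = 1 := by rw [norm_neg, rho_norm]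
theorem nIρ : ‖(I * ρ : ℂ)‖ = 1 := by rw [norm_mul, Complex.norm_I, rho_norm, one_mul]
theorem nIρ' : ‖(-I * ρ : ℂ)‖ = 1 := by rw [norm_mul, nI, rho_norm, one_mul]
theorem nζρ : ‖((ζ - 1) * ρ : ℂ)‖ = 1 := by rw [norm_mul, zeta_one_norm, rho_norm, one_mul]
theorem nζρ' : ‖((1 - ζ) * ρ : ℂ)‖ = 1 := by rw [norm_mul, nζ1, rho_norm, one_mul]

theorem tri_first {a u v x : ℂ} (h1 : a + u = v) (h2 : (ζ - 1) * u = x) : tri a u = tri v x := by
  rw [tri_rot, h1, h2]

theorem tri_second {a u v x : ℂ} (h1 : a + ζ * u = v) (h2 : -ζ * u = x) : tri a u = tri v x := by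
  rw [tri_rot', h1, h2]

theorem sq_first {a u v x : ℂ} (h1 : a + u = v) (h2 : I * u = x) : sq a u = sq v x := by
  rw [sq_rot, h1, h2]

theorem sq_second {a u v x : ℂ} (h1 : a + u + I * u = v) (h2 : -u = x) : sq a u = sq v x := by
  rw [sq_rot2, h1, h2]

theorem sq_third {a u v x : ℂ} (h1 : a + I * u = v) (h2 : -I * u = x) : sq a u = sq v x := by
  rw [sq_rot3, h1, h2]

/-- The five tiles at a vertex. -/
def Five (v : ℂ) : Prop := ∃ x1 x2 x3 y1 y2 : ℂ, (‖x1‖ = 1 ∧ ‖x2‖ = 1 ∧ ‖x3‖ = 1 ∧ ‖y1‖ = 1 ∧ ‖y2‖ = 1) ∧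
  (x1 ≠ x2 ∧ x1 ≠ x3 ∧ x2 ≠ x3 ∧ y1 ≠ y2) ∧
  (∀ T ∈ snub, v ∈ T → T = tri v x1 ∨ T = tri v x2 ∨ T = tri v x3 ∨ T = sq v y1 ∨ T = sq v y2) ∧
  (tri v x1 ∈ snub ∧ tri v x2 ∈ snub ∧ tri v x3 ∈ snub ∧ sq v y1 ∈ snub ∧ sq v y2 ∈ snub)

theorem star_ee {a b : ℤ} (ha : Even a) (hb : Even b) : Five (P a b) := by
  have hlo := r3_lo
  have ha' : Odd (a - 1) := ha.sub_odd odd_one
  have hb' : Odd (b - 1) := hb.sub_odd odd_one
  have p1 := P_right_odd ha' b
  have p2 := P_up_odd a hb'
  have p3 := P_right_odd ha' (b - 1)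
  rw [sub_add_cancel] at p1 p2 p3
  have E1 : ∀ h, tile a b h = sq (P a b) 1 := fun h => tile_ee ha hb h
  have E2 : tile (a - 1) b true = tri (P a b) ((ζ - 1) * ρ) := by
    rw [tile_oe_true ha' hb]; exact tri_first p1.symm rfl
  have E3 : tile (a - 1) b false = tri (P a b) I := by
    rw [tile_oe_false ha' hb]
    apply tri_second
    · rw [p1]; linear_combination -zeta_rho
    · linear_combination zeta_rho
  have E4 : tile a (b - 1) false = tri (P a b) (1 - ζ) := by
    rw [tile_eo_false ha hb']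
    apply tri_second
    · rw [p2]; linear_combination zeta_sq - I_rho
    · linear_combination -zeta_sq
  have E5 : ∀ h, tile (a - 1) (b - 1) h = sq (P a b) (-ρ) := by
    intro h
    rw [tile_oo ha' hb']
    apply sq_second
    · rw [p2, p3]
    · rfl
  refine ⟨(ζ - 1) * ρ, I, 1 - ζ, 1, -ρ, ⟨nζρ, Complex.norm_I, nζ1, norm_one, nρ⟩, ⟨?_, ?_, ?_, ?_⟩, ?_,
    ⟨_, _, _, E2.symm⟩, ⟨_, _, _, E3.symm⟩, ⟨_, _, _, E4.symm⟩, ⟨_, _, true, (E1 _).symm⟩, ⟨_, _, true, (E5 _).symm⟩⟩
  · exact ne_re (by simp [zeta_re, zeta_im, rho_re, rho_im]; intro h; linarith)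
  · exact ne_re (by simp [zeta_re, zeta_im, rho_re, rho_im]; intro h; linarith)
  · exact ne_re (by simp [zeta_re]; norm_num)
  · exact ne_re (by simp [rho_re]; intro h; linarith)
  · rintro T ⟨m, n, h, rfl⟩ hv
    obtain ⟨hm, hn, h1, h2⟩ := vertex_mem hv
    rcases hm with rfl | rfl <;> rcases hn with rfl | rfl
    · right; right; right; left; exact E1 h
    · cases h
      · right; right; left; exact E4
      · exfalso
        have := (h1 ha hb').1 rfl
        omega
    · cases h
      · right; left; exact E3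
      · left; exact E2
    · right; right; right; right; exact E5 h

theorem star_oe {a b : ℤ} (ha : Odd a) (hb : Even b) : Five (P a b) := by
  have hlo := r3_lo
  have hp := r3_pos
  have ha' : Even (a - 1) := ha.sub_odd odd_one
  have hb' : Odd (b - 1) := hb.sub_odd odd_one
  have p1 := P_right_even ha' b
  have p2 := P_up_odd a hb'
  have p3 := P_right_even ha' (b - 1)
  rw [sub_add_cancel] at p1 p2 p3
  have E1 : tile a b true = tri (P a b) ρ := tile_oe_true ha hb
  have E2 : ∀ h, tile (a - 1) b h = sq (P a b) I := by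
    intro h
    rw [tile_ee ha' hb]; exact sq_first p1.symm (mul_one I)
  have E3 : ∀ h, tile a (b - 1) h = sq (P a b) (-I * ρ) := by
    intro h
    rw [tile_oo ha hb']; exact sq_third p2.symm rfl
  have E4 : tile (a - 1) (b - 1) true = tri (P a b) (-ζ) := by
    rw [tile_eo_true ha' hb']
    apply tri_second
    · rw [p2, p3]; linear_combination -I_rho
    · ring
  have E5 : tile (a - 1) (b - 1) false = tri (P a b) (-1) := by
    rw [tile_eo_false ha' hb']
    apply tri_first
    · rw [p2, p3]; linear_combination -I_rho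
    · linear_combination zeta_sq
  refine ⟨ρ, -ζ, -1, I, -I * ρ, ⟨rho_norm, nζ, n1, Complex.norm_I, nIρ'⟩, ⟨?_, ?_, ?_, ?_⟩, ?_,
    ⟨_, _, _, E1.symm⟩, ⟨_, _, _, E4.symm⟩, ⟨_, _, _, E5.symm⟩, ⟨_, _, true, (E2 _).symm⟩, ⟨_, _, true, (E3 _).symm⟩⟩
  · exact ne_re (by simp [zeta_re, rho_re]; intro h; linarith)
  · exact ne_re (by simp [rho_re]; intro h; linarith)
  · exact ne_re (by simp [zeta_re])
  · exact ne_re (by simp [rho_im])
  · rintro T ⟨m, n, h, rfl⟩ hv
    obtain ⟨hm, hn, h1, h2⟩ := vertex_mem hv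
    rcases hm with rfl | rfl <;> rcases hn with rfl | rfl
    · cases h
      · exfalso
        have := (h2 ha hb).2 rfl
        omega
      · left; exact E1
    · right; right; right; right; exact E3 h
    · right; right; right; left; exact E2 h
    · cases h
      · right; right; left; exact E5
      · right; left; exact E4

theorem star_eo {a b : ℤ} (ha : Even a) (hb : Odd b) : Five (P a b) := by
  have hlo := r3_lo
  have hp := r3_pos
  have ha' : Odd (a - 1) := ha.sub_odd odd_one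
  have hb' : Even (b - 1) := hb.sub_odd odd_one
  have p1 := P_right_odd ha' b
  have p2 := P_up_even a hb'
  have p3 := P_right_odd ha' (b - 1)
  rw [sub_add_cancel] at p1 p2 p3
  have E1 : tile a b true = tri (P a b) 1 := tile_eo_true ha hb
  have E2 : tile a b false = tri (P a b) ζ := tile_eo_false ha hb
  have E3 : ∀ h, tile (a - 1) b h = sq (P a b) (I * ρ) := by
    intro h
    rw [tile_oo ha' hb]; exact sq_first p1.symm rfl
  have E4 : ∀ h, tile a (b - 1) h = sq (P a b) (-I) := by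
    intro h
    rw [tile_ee ha hb']; exact sq_third (by rw [p2]; ring) (by ring)
  have E5 : tile (a - 1) (b - 1) false = tri (P a b) (-ρ) := by
    rw [tile_oe_false ha' hb', p2, p3]
  refine ⟨1, ζ, -ρ, I * ρ, -I, ⟨norm_one, zeta_norm, nρ, nIρ, nI⟩, ⟨?_, ?_, ?_, ?_⟩, ?_,
    ⟨_, _, _, E1.symm⟩, ⟨_, _, _, E2.symm⟩, ⟨_, _, _, E5.symm⟩, ⟨_, _, true, (E3 _).symm⟩, ⟨_, _, true, (E4 _).symm⟩⟩
  · exact ne_re (by simp [zeta_re])
  · exact ne_re (by simp [rho_re]; intro h; linarith)
  · exact ne_re (by simp [zeta_re, rho_re]; intro h; linarith)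
  · exact ne_re (by simp [rho_im])
  · rintro T ⟨m, n, h, rfl⟩ hv
    obtain ⟨hm, hn, h1, h2⟩ := vertex_mem hv
    rcases hm with rfl | rfl <;> rcases hn with rfl | rfl
    · cases h
      · right; left; exact E2
      · left; exact E1
    · right; right; right; right; exact E4 h
    · right; right; right; left; exact E3 h
    · cases h
      · right; right; left; exact E5
      · exfalso
        have := (h2 ha' hb').1 rfl
        omega

theorem star_oo {a b : ℤ} (ha : Odd a) (hb : Odd b) : Five (P a b) := by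
  have hlo := r3_lo
  have hp := r3_pos
  have ha' : Even (a - 1) := ha.sub_odd odd_one
  have hb' : Even (b - 1) := hb.sub_odd odd_one
  have p1 := P_right_even ha' b
  have p2 := P_up_even a hb'
  have p3 := P_right_even ha' (b - 1)
  rw [sub_add_cancel] at p1 p2 p3
  have E1 : ∀ h, tile a b h = sq (P a b) ρ := fun h => tile_oo ha hb h
  have E2 : tile (a - 1) b true = tri (P a b) (ζ - 1) := by
    rw [tile_eo_true ha' hb]; exact tri_first p1.symm (mul_one _)
  have E3 : tile a (b - 1) true = tri (P a b) (-I) := by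
    rw [tile_oe_true ha hb']
    apply tri_second
    · rw [p2]; linear_combination zeta_rho
    · linear_combination -zeta_rho
  have E4 : tile a (b - 1) false = tri (P a b) ((1 - ζ) * ρ) := by
    rw [tile_oe_false ha hb']
    apply tri_first
    · rw [p2]; ring
    · ring
  have E5 : ∀ h, tile (a - 1) (b - 1) h = sq (P a b) (-1) := by
    intro h
    rw [tile_ee ha' hb']
    apply sq_second
    · rw [p2, p3]; ring
    · rfl
  refine ⟨ζ - 1, -I, (1 - ζ) * ρ, ρ, -1, ⟨zeta_one_norm, nI, nζρ', rho_norm, n1⟩, ⟨?_, ?_, ?_, ?_⟩, ?_,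
    ⟨_, _, _, E2.symm⟩, ⟨_, _, _, E3.symm⟩, ⟨_, _, _, E4.symm⟩, ⟨_, _, true, (E1 _).symm⟩, ⟨_, _, true, (E5 _).symm⟩⟩
  · exact ne_re (by simp [zeta_re]; norm_num)
  · exact ne_re (by simp [zeta_re, zeta_im, rho_re, rho_im]; intro h; linarith)
  · exact ne_re (by simp [zeta_re, zeta_im, rho_re, rho_im]; intro h; linarith)
  · exact ne_re (by simp [rho_re]; intro h; linarith)
  · rintro T ⟨m, n, h, rfl⟩ hv
    obtain ⟨hm, hn, h1, h2⟩ := vertex_mem hv
    rcases hm with rfl | rfl <;> rcases hn with rfl | rfl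
    · right; right; right; left; exact E1 h
    · cases h
      · right; right; left; exact E4
      · right; left; exact E3
    · cases h
      · exfalso
        have := (h1 ha' hb).2 rfl
        omega
      · left; exact E2
    · right; right; right; right; exact E5 h

theorem star (a b : ℤ) : Five (P a b) := by
  rcases Int.even_or_odd a with ha | ha <;> rcases Int.even_or_odd b with hb | hb
  · exact star_ee ha hb
  · exact star_eo ha hb
  · exact star_oe ha hb
  · exact star_oo ha hb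

end Pool.Agent.R175.TriSq
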