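import Mathlib
import Pool.Agent.R175.TriSq.Star
import Pool.Agent.R175.TriSq.Deep
import Pool.Agent.R175.Disk

/-!
# The snub square tiling has a patch that lies in no convex patch
-/

set_option autoImplicit false

namespace Pool.Agent.R175.TriSq

open Set Complex ComplexConjugate Pool.Agent.R175.TriGeo Topology Pool.Agent.R175.Disk

/-- An edge-to-edge tiling of the plane by regular triangles and squares with sides of length one, with exactly
three triangles and two squares at each corner of a tile. -/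
structure IsTiling (F : Set (Set ℂ)) : Prop where
  arr : IsArrangement F
  cover : ⋃₀ F = univ
  species : ∀ v, (∃ T ∈ F, IsCorner T v) →
    {T | T ∈ F ∧ IsTri T ∧ v ∈ T}.encard = 3 ∧ {T | T ∈ F ∧ IsSq T ∧ v ∈ T}.encard = 2

/-- A patch: a finite edge-to-edge family of regular triangles and squares with sides of length one whose union is
a closed topological disk; at each corner of a tile at most three triangles and at most two squares meet, and
exactly three triangles and two squares if the corner is an interior point of the union. -/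
structure IsPatch (A : Set (Set ℂ)) : Prop where
  finite : A.Finite
  arr : IsArrangement A
  disk : IsDisk (⋃₀ A)
  compatible : ∀ v, (∃ T ∈ A, IsCorner T v) →
    {T | T ∈ A ∧ IsTri T ∧ v ∈ T}.encard ≤ 3 ∧ {T | T ∈ A ∧ IsSq T ∧ v ∈ T}.encard ≤ 2
  species : ∀ v, (∃ T ∈ A, IsCorner T v) → v ∈ interior (⋃₀ A) →
    {T | T ∈ A ∧ IsTri T ∧ v ∈ T}.encard = 3 ∧ {T | T ∈ A ∧ IsSq T ∧ v ∈ T}.encard = 2

theorem IsPatch.adm {Q : Set (Set ℂ)} (h : IsPatch Q) : Adm Q :=
  ⟨h.arr, h.finite, fun v hv => (h.compatible v hv).1, fun v hv => (h.compatible v hv).2⟩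

/-! ### Corners -/

theorem corner_extreme {T : Set ℂ} (hT : IsTri T ∨ IsSq T) {v : ℂ} (h : IsCorner T v) : v ∈ extremePoints ℝ T := by
  rw [mem_extremePoints_iff_left]
  refine ⟨corner_mem h, ?_⟩
  rintro x hx y hy ⟨s, t, hs, ht, hst, rfl⟩
  obtain ⟨u, hu, hTu⟩ := h
  have hu0 := ne_zero_of_norm hu
  have hconv := tile_conv hT
  obtain ⟨ε, hε0, hε1, hε2⟩ : ∃ ε : ℝ, 0 < ε ∧ ε ≤ s ∧ ε ≤ t :=
    ⟨min s t, lt_min hs ht, min_le_left _ _, min_le_right _ _⟩
  have m1 := hconv hx hy (by linarith : 0 ≤ s + ε) (by linarith : 0 ≤ t - ε) (by linarith)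
  have m2 := hconv hx hy (by linarith : 0 ≤ s - ε) (by linarith : 0 ≤ t + ε) (by linarith)
  have e1 : (s + ε) • x + (t - ε) • y = s • x + t • y + (ε * (x - y) / u) * u := by
    simp only [Complex.real_smul]; push_cast; field_simp; ring
  have e2 : (s - ε) • x + (t + ε) • y = s • x + t • y - (ε * (x - y) / u) * u := by
    simp only [Complex.real_smul]; push_cast; field_simp; ring
  rw [e1] at m1
  rw [e2] at m2
  have h0 := tile_pointed hu hTu m1 m2
  have hεC : (ε : ℂ) ≠ 0 := by exact_mod_cast hε0.ne'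
  have hxy : x - y = 0 := by
    rcases div_eq_zero_iff.1 h0 with h1 | h1
    · exact (mul_eq_zero.1 h1).resolve_left hεC
    · exact absurd h1 hu0
  have hxy' : y = x := (sub_eq_zero.1 hxy).symm
  rw [hxy', ← add_smul, hst, one_smul]

theorem corner_tri {a u w : ℂ} (hu : ‖u‖ = 1) (h : IsCorner (tri a u) w) : w = a ∨ w = a + u ∨ w = a + ζ * u := by
  have h1 := corner_extreme (Or.inl ⟨a, u, hu, rfl⟩) h
  unfold tri at h1
  have h2 := extremePoints_convexHull_subset h1
  exact h2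

theorem corner_sq {a u w : ℂ} (hu : ‖u‖ = 1) (h : IsCorner (sq a u) w) :
    w = a ∨ w = a + u ∨ w = a + u + I * u ∨ w = a + I * u := by
  have h1 := corner_extreme (Or.inr ⟨a, u, hu, rfl⟩) h
  unfold sq at h1
  have h2 := extremePoints_convexHull_subset h1
  exact h2

theorem tile_kind (m n : ℤ) (h : Bool) : IsTri (tile m n h) ∨ IsSq (tile m n h) := by
  rcases Int.even_or_odd m with hm | hm <;> rcases Int.even_or_odd n with hn | hn
  · right; exact ⟨_, _, norm_one, tile_ee hm hn h⟩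
  · left
    cases h
    · exact ⟨_, _, zeta_norm, tile_eo_false hm hn⟩
    · exact ⟨_, _, norm_one, tile_eo_true hm hn⟩
  · left
    cases h
    · exact ⟨_, _, nρ, tile_oe_false hm hn⟩
    · exact ⟨_, _, rho_norm, tile_oe_true hm hn⟩
  · right; exact ⟨_, _, rho_norm, tile_oo hm hn h⟩

theorem tile_sq_par {m n : ℤ} {h : Bool} (hs : IsSq (tile m n h)) : Even m ↔ Even n := by
  rcases Int.even_or_odd m with hm | hm <;> rcases Int.even_or_odd n with hn | hn
  · exact ⟨fun _ => hn, fun _ => hm⟩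
  · exfalso
    refine tri_ne_sq ?_ hs
    cases h
    · exact ⟨_, _, zeta_norm, tile_eo_false hm hn⟩
    · exact ⟨_, _, norm_one, tile_eo_true hm hn⟩
  · exfalso
    refine tri_ne_sq ?_ hs
    cases h
    · exact ⟨_, _, nρ, tile_oe_false hm hn⟩
    · exact ⟨_, _, rho_norm, tile_oe_true hm hn⟩
  · exact ⟨fun h => (not_even_odd h hm).elim, fun h => (not_even_odd h hn).elim⟩

theorem corner_P {m n : ℤ} {h : Bool} {w : ℂ} (hc : IsCorner (tile m n h) w) : ∃ a b : ℤ, w = P a b := by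
  rcases Int.even_or_odd m with hm | hm <;> rcases Int.even_or_odd n with hn | hn
  · have p1 := P_right_even hm n
    have p2 := P_up_even m hn
    have p3 := P_up_even (m + 1) hn
    rw [tile_ee hm hn] at hc
    rcases corner_sq norm_one hc with h | h | h | h
    · exact ⟨m, n, h⟩
    · exact ⟨m + 1, n, by rw [h, p1]⟩
    · exact ⟨m + 1, n + 1, by rw [h, p3, p1, mul_one]⟩
    · exact ⟨m, n + 1, by rw [h, p2, mul_one]⟩
  · have p1 := P_right_even hm n
    have p2 := P_up_odd m hn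
    have p3 := P_up_odd (m + 1) hn
    cases h
    · rw [tile_eo_false hm hn] at hc
      rcases corner_tri zeta_norm hc with h | h | h
      · exact ⟨m, n, h⟩
      · exact ⟨m + 1, n + 1, by rw [h, p3, p1]; linear_combination -I_rho⟩
      · exact ⟨m, n + 1, by rw [h, p2]; linear_combination zeta_sq - I_rho⟩
    · rw [tile_eo_true hm hn] at hc
      rcases corner_tri norm_one hc with h | h | h
      · exact ⟨m, n, h⟩
      · exact ⟨m + 1, n, by rw [h, p1]⟩
      · exact ⟨m + 1, n + 1, by rw [h, p3, p1]; linear_combination -I_rho⟩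
  · have p1 := P_right_odd hm n
    have p2 := P_up_even m hn
    have p3 := P_up_even (m + 1) hn
    cases h
    · rw [tile_oe_false hm hn] at hc
      rcases corner_tri nρ hc with h | h | h
      · exact ⟨m + 1, n + 1, by rw [h, p3, p1]⟩
      · exact ⟨m, n + 1, by rw [h, p2]; ring⟩
      · exact ⟨m + 1, n, by rw [h, p1]; linear_combination -zeta_rho⟩
    · rw [tile_oe_true hm hn] at hc
      rcases corner_tri rho_norm hc with h | h | h
      · exact ⟨m, n, h⟩
      · exact ⟨m + 1, n, by rw [h, p1]⟩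
      · exact ⟨m, n + 1, by rw [h, p2]; linear_combination zeta_rho⟩
  · have p1 := P_right_odd hm n
    have p2 := P_up_odd m hn
    have p3 := P_up_odd (m + 1) hn
    rw [tile_oo hm hn] at hc
    rcases corner_sq rho_norm hc with h | h | h | h
    · exact ⟨m, n, h⟩
    · exact ⟨m + 1, n, by rw [h, p1]⟩
    · exact ⟨m + 1, n + 1, by rw [h, p3, p1]⟩
    · exact ⟨m, n + 1, by rw [h, p2]⟩

theorem corner_P_of {T : Set ℂ} (hT : T ∈ snub) {a b : ℤ} (h : P a b ∈ T) : IsCorner T (P a b) := by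
  obtain ⟨x1, x2, x3, y1, y2, ⟨h1, h2, h3, h4, h5⟩, -, hall, -⟩ := star a b
  rcases hall T hT h with h | h | h | h | h
  · exact ⟨x1, h1, Or.inl h⟩
  · exact ⟨x2, h2, Or.inl h⟩
  · exact ⟨x3, h3, Or.inl h⟩
  · exact ⟨y1, h4, Or.inr h⟩
  · exact ⟨y2, h5, Or.inr h⟩

/-! ### Disjoint interiors -/

theorem int_disjoint {m n m' n' : ℤ} {h h' : Bool} (hne : tile m n h ≠ tile m' n' h') :
    Disjoint (interior (tile m n h)) (interior (tile m' n' h')) := by
  rw [Set.disjoint_left]
  intro z h1 h2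
  rw [tile, ← Θ.image_interior] at h1 h2
  obtain ⟨w, hw, rfl⟩ := h1
  have hw' : w ∈ interior (Reg m' n' h') := Θ.injective.mem_set_image.1 h2
  obtain ⟨ε, hε, hball⟩ := Metric.isOpen_iff.1 (isOpen_interior.inter isOpen_interior) w ⟨hw, hw'⟩
  obtain ⟨δ, hδ⟩ : ∃ δ : ℝ, δ = ε / 2 := ⟨_, rfl⟩
  have hδ0 : 0 < δ := by rw [hδ]; linarith
  have hmem : ∀ e : ℂ, ‖e‖ = 1 → w + δ * e ∈ Reg m n h ∧ w + δ * e ∈ Reg m' n' h' := by
    intro e he
    have : w + δ * e ∈ Metric.ball w ε := by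
      rw [Metric.mem_ball, dist_eq_norm, add_sub_cancel_left, norm_mul, he, mul_one, Complex.norm_real,
        Real.norm_eq_abs, abs_of_pos hδ0, hδ]
      linarith
    have := hball this
    exact ⟨interior_subset this.1, interior_subset this.2⟩
  obtain ⟨a1, a2⟩ := hmem 1 norm_one
  obtain ⟨b1, b2⟩ := hmem (-1) n1
  obtain ⟨c1, c2⟩ := hmem I Complex.norm_I
  obtain ⟨d1, d2⟩ := hmem (-I) nI
  have w1 := interior_subset hw
  have w2 := interior_subset hw'
  have hm : m = m' := by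
    have i1 := b1.1
    have i2 := b2.1
    have i3 := a1.2.1
    have i4 := a2.2.1
    simp at i1 i2 i3 i4
    have j1 : (m : ℝ) < m' + 1 := by linarith
    have j2 : (m' : ℝ) < m + 1 := by linarith
    have k1 : m < m' + 1 := by exact_mod_cast j1
    have k2 : m' < m + 1 := by exact_mod_cast j2
    omega
  have hn : n = n' := by
    have i1 := d1.2.2.1
    have i2 := d2.2.2.1
    have i3 := c1.2.2.2.1
    have i4 := c2.2.2.2.1
    simp at i1 i2 i3 i4
    have j1 : (n : ℝ) < n' + 1 := by linarith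
    have j2 : (n' : ℝ) < n + 1 := by linarith
    have k1 : n < n' + 1 := by exact_mod_cast j1
    have k2 : n' < n + 1 := by exact_mod_cast j2
    omega
  subst hm hn
  rcases Int.even_or_odd m with hm | hm <;> rcases Int.even_or_odd n with hn | hn
  · apply hne; rw [tile_ee hm hn, tile_ee hm hn]
  · have i1 := w1.2.2.2.2.1 hm hn
    have i2 := w2.2.2.2.2.1 hm hn
    have i3 := a1.2.2.2.2.1 hm hn
    have i4 := a2.2.2.2.2.1 hm hn
    cases h <;> cases h'
    · exact hne rfl
    · have j1 := i1.2 rfl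
      have j2 := i2.1 rfl
      have j3 := i3.2 rfl
      have j4 := i4.1 rfl
      simp at j3 j4
      linarith
    · have j1 := i1.1 rfl
      have j2 := i2.2 rfl
      have j3 := i3.1 rfl
      have j4 := i4.2 rfl
      simp at j3 j4
      linarith
    · exact hne rfl
  · have i1 := w1.2.2.2.2.2 hm hn
    have i2 := w2.2.2.2.2.2 hm hn
    have i3 := a1.2.2.2.2.2 hm hn
    have i4 := a2.2.2.2.2.2 hm hn
    have i5 := b1.2.2.2.2.2 hm hn
    have i6 := b2.2.2.2.2.2 hm hn
    cases h <;> cases h'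
    · exact hne rfl
    · have j1 := i5.2 rfl
      have j2 := i4.1 rfl
      simp at j1 j2
      linarith
    · have j1 := i6.2 rfl
      have j2 := i3.1 rfl
      simp at j1 j2
      linarith
    · exact hne rfl
  · apply hne; rw [tile_oo hm hn, tile_oo hm hn]

theorem area_zero {S T : Set ℂ} (hS : IsTri S ∨ IsSq S) (hT : IsTri T ∨ IsSq T)
    (hd : Disjoint (interior S) (interior T)) : MeasureTheory.volume (S ∩ T) = 0 := by
  have hc : Convex ℝ (S ∩ T) := (tile_conv hS).inter (tile_conv hT)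
  have hcl : IsClosed (S ∩ T) := (tile_isClosed hS).inter (tile_isClosed hT)
  have h := hc.addHaar_frontier (μ := MeasureTheory.volume)
  have he : interior (S ∩ T) = ∅ := by
    rw [interior_inter]
    exact Set.disjoint_iff_inter_eq_empty.1 hd
  rw [hcl.frontier_eq, he, Set.sdiff_empty] at h
  exact h

theorem snub_arr : IsArrangement snub := by
  refine ⟨?_, ?_, ?_⟩
  · rintro T ⟨m, n, h, rfl⟩
    exact tile_kind m n h
  · rintro S ⟨m, n, h, rfl⟩ T ⟨m', n', h', rfl⟩ hne
    exact area_zero (tile_kind _ _ _) (tile_kind _ _ _) (int_disjoint hne)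
  · rintro S ⟨m, n, h, rfl⟩ T ⟨m', n', h', rfl⟩ hne
    refine edge_gen (tile_kind _ _ _) (tile_kind _ _ _) (int_disjoint hne) ?_ ?_
    · intro v hv hvT
      obtain ⟨a, b, rfl⟩ := corner_P hv
      exact corner_P_of ⟨_, _, _, rfl⟩ hvT
    · intro v hv hvT
      obtain ⟨a, b, rfl⟩ := corner_P hv
      exact corner_P_of ⟨_, _, _, rfl⟩ hvT

theorem reg_exists {m n : ℤ} {w : ℂ} (h1 : (m : ℝ) ≤ w.re) (h2 : w.re ≤ m + 1) (h3 : (n : ℝ) ≤ w.im)
    (h4 : w.im ≤ n + 1) : ∃ h, w ∈ Reg m n h := by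
  rcases Int.even_or_odd m with hm | hm
  · rcases le_total (w.im - n) (w.re - m) with hh | hh
    · exact ⟨true, h1, h2, h3, h4, fun _ _ => ⟨fun _ => hh, fun h => by cases h⟩, fun o _ => (not_even_odd hm o).elim⟩
    · exact ⟨false, h1, h2, h3, h4, fun _ _ => ⟨fun h => (by cases h), fun _ => hh⟩, fun o _ => (not_even_odd hm o).elim⟩
  · rcases le_total ((w.re - m) + (w.im - n)) 1 with hh | hh
    · exact ⟨true, h1, h2, h3, h4, fun e _ => (not_even_odd e hm).elim, fun _ _ => ⟨fun _ => hh, fun h => by cases h⟩⟩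
    · exact ⟨false, h1, h2, h3, h4, fun e _ => (not_even_odd e hm).elim, fun _ _ => ⟨fun h => (by cases h), fun _ => hh⟩⟩

theorem snub_cover : ⋃₀ snub = univ := by
  rw [eq_univ_iff_forall]
  intro z
  obtain ⟨w, rfl⟩ := Θ.surjective z
  obtain ⟨h, hw⟩ := reg_exists (Int.floor_le w.re) (Int.lt_floor_add_one w.re).le (Int.floor_le w.im)
    (Int.lt_floor_add_one w.im).le
  exact ⟨_, ⟨_, _, _, rfl⟩, w, hw, rfl⟩

theorem snub_species {v : ℂ} (hv : ∃ T ∈ snub, IsCorner T v) :
    {T | T ∈ snub ∧ IsTri T ∧ v ∈ T}.encard = 3 ∧ {T | T ∈ snub ∧ IsSq T ∧ v ∈ T}.encard = 2 := by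
  obtain ⟨T, ⟨m, n, h, rfl⟩, hc⟩ := hv
  obtain ⟨a, b, rfl⟩ := corner_P hc
  have hfive := star a b
  clear hc
  generalize P a b = v at hfive ⊢
  obtain ⟨x1, x2, x3, y1, y2, ⟨h1, h2, h3, h4, h5⟩, ⟨n12, n13, n23, n45⟩, hall, m1, m2, m3, m4, m5⟩ := hfive
  have hne : ∀ {x y : ℂ}, ‖x‖ = 1 → ‖y‖ = 1 → x ≠ y → tri v x ≠ tri v y := fun hx hy hxy he =>
    hxy (tile_dir hx hy (T := tri v _) (Or.inl rfl) (Or.inl he))
  have hne' : ∀ {x y : ℂ}, ‖x‖ = 1 → ‖y‖ = 1 → x ≠ y → sq v x ≠ sq v y := fun hx hy hxy he =>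
    hxy (tile_dir hx hy (T := sq v _) (Or.inr rfl) (Or.inr he))
  have mem : ∀ {x : ℂ}, ‖x‖ = 1 → v ∈ tri v x := fun hx => (tile_end hx (Or.inl rfl)).1
  have mem' : ∀ {x : ℂ}, ‖x‖ = 1 → v ∈ sq v x := fun hx => (tile_end hx (Or.inr rfl)).1
  constructor
  · have e : {T | T ∈ snub ∧ IsTri T ∧ v ∈ T} = {tri v x1, tri v x2, tri v x3} := by
      ext T
      constructor
      · rintro ⟨hT, ht, hvT⟩
        rcases hall T hT hvT with h | h | h | h | h
        · exact Or.inl h
        · exact Or.inr (Or.inl h)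
        · exact Or.inr (Or.inr h)
        · exact (tri_ne_sq ht ⟨_, _, h4, h⟩).elim
        · exact (tri_ne_sq ht ⟨_, _, h5, h⟩).elim
      · rintro (rfl | rfl | rfl)
        · exact ⟨m1, ⟨_, _, h1, rfl⟩, mem h1⟩
        · exact ⟨m2, ⟨_, _, h2, rfl⟩, mem h2⟩
        · exact ⟨m3, ⟨_, _, h3, rfl⟩, mem h3⟩
    rw [e, Set.encard_eq_three]
    exact ⟨_, _, _, hne h1 h2 n12, hne h1 h3 n13, hne h2 h3 n23, rfl⟩
  · have e : {T | T ∈ snub ∧ IsSq T ∧ v ∈ T} = {sq v y1, sq v y2} := by
      ext T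
      constructor
      · rintro ⟨hT, ht, hvT⟩
        rcases hall T hT hvT with h | h | h | h | h
        · exact (tri_ne_sq ⟨_, _, h1, h⟩ ht).elim
        · exact (tri_ne_sq ⟨_, _, h2, h⟩ ht).elim
        · exact (tri_ne_sq ⟨_, _, h3, h⟩ ht).elim
        · exact Or.inl h
        · exact Or.inr h
      · rintro (rfl | rfl)
        · exact ⟨m4, ⟨_, _, h4, rfl⟩, mem' h4⟩
        · exact ⟨m5, ⟨_, _, h5, rfl⟩, mem' h5⟩
    rw [e, Set.encard_pair (hne' h4 h5 n45)]

theorem snub_tiling : IsTiling snub := ⟨snub_arr, snub_cover, fun _ hv => snub_species hv⟩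

/-! ### The block -/

/-- The tiles of a large square block of the grid. -/
def block : Set (Set ℂ) :=
  {T | ∃ (m n : ℤ) (h : Bool), -20 ≤ m ∧ m < 20 ∧ -20 ≤ n ∧ n < 20 ∧ T = tile m n h}

theorem block_sub : block ⊆ snub := by
  rintro T ⟨m, n, h, -, -, -, -, rfl⟩
  exact ⟨m, n, h, rfl⟩

theorem block_finite : block.Finite := by
  have hf := (((Set.finite_Icc (-20 : ℤ) 20).prod ((Set.finite_Icc (-20 : ℤ) 20).prod
    (Set.finite_univ (α := Bool)))).image fun p : ℤ × ℤ × Bool => tile p.1 p.2.1 p.2.2)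
  refine hf.subset ?_
  rintro T ⟨m, n, h, h1, h2, h3, h4, rfl⟩
  exact ⟨(m, n, h), ⟨⟨h1, h2.le⟩, ⟨h3, h4.le⟩, mem_univ _⟩, rfl⟩

/-- The square that is bent into the union of the block. -/
def box : Set ℂ := {z | -20 ≤ z.re ∧ z.re ≤ 20 ∧ -20 ≤ z.im ∧ z.im ≤ 20}

theorem int_cell {s : ℝ} (h0 : -20 ≤ s) (h1 : s ≤ 20) : ∃ m : ℤ, -20 ≤ m ∧ m < 20 ∧ (m : ℝ) ≤ s ∧ s ≤ m + 1 := by
  rcases lt_or_eq_of_le h1 with h1 | h1
  · refine ⟨⌊s⌋, ?_, ?_, Int.floor_le s, (Int.lt_floor_add_one s).le⟩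
    · rw [Int.le_floor]; push_cast; exact h0
    · rw [Int.floor_lt]; push_cast; exact h1
  · refine ⟨19, by norm_num, by norm_num, ?_, ?_⟩
    · rw [h1]; norm_num
    · rw [h1]; norm_num

theorem block_union : ⋃₀ block = Θ '' box := by
  ext z
  constructor
  · rintro ⟨T, ⟨m, n, h, h1, h2, h3, h4, rfl⟩, w, ⟨r1, r2, r3, r4, -⟩, rfl⟩
    have k1 : (-20 : ℝ) ≤ m := by exact_mod_cast h1
    have k2 : (m : ℝ) + 1 ≤ 20 := by exact_mod_cast h2
    have k3 : (-20 : ℝ) ≤ n := by exact_mod_cast h3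
    have k4 : (n : ℝ) + 1 ≤ 20 := by exact_mod_cast h4
    exact ⟨w, ⟨by linarith, by linarith, by linarith, by linarith⟩, rfl⟩
  · rintro ⟨w, ⟨h1, h2, h3, h4⟩, rfl⟩
    obtain ⟨m, a1, a2, a3, a4⟩ := int_cell h1 h2
    obtain ⟨n, b1, b2, b3, b4⟩ := int_cell h3 h4
    obtain ⟨h, hw⟩ := reg_exists a3 a4 b3 b4
    exact ⟨_, ⟨m, n, h, a1, a2, b1, b2, rfl⟩, w, hw, rfl⟩

theorem box_convex : Convex ℝ box := by
  intro x hx y hy s t hs ht hst
  obtain ⟨x1, x2, x3, x4⟩ := hx
  obtain ⟨y1, y2, y3, y4⟩ := hy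
  have ht' : t = 1 - s := by linarith
  subst ht'
  refine ⟨?_, ?_, ?_, ?_⟩ <;> simp only [add_re, add_im, Complex.real_smul, re_ofReal_mul, im_ofReal_mul] <;> nlinarith

theorem box_compact : IsCompact box := by
  apply Metric.isCompact_of_isClosed_isBounded
  · have e : box = {z : ℂ | -20 ≤ z.re} ∩ ({z : ℂ | z.re ≤ 20} ∩ ({z : ℂ | -20 ≤ z.im} ∩ {z : ℂ | z.im ≤ 20})) := by
      ext z; rfl
    rw [e]
    exact (isClosed_le continuous_const Complex.continuous_re).inter
      ((isClosed_le Complex.continuous_re continuous_const).inter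
        ((isClosed_le continuous_const Complex.continuous_im).inter
          (isClosed_le Complex.continuous_im continuous_const)))
  · rw [Metric.isBounded_iff_subset_closedBall (0 : ℂ)]
    refine ⟨40, ?_⟩
    rintro z ⟨h1, h2, h3, h4⟩
    rw [mem_closedBall_zero_iff]
    refine (Complex.norm_le_abs_re_add_abs_im z).trans ?_
    have := abs_le.2 ⟨h1, h2⟩
    have := abs_le.2 ⟨h3, h4⟩
    linarith

theorem box_int : (interior box).Nonempty := by
  refine ⟨0, ?_⟩
  rw [mem_interior]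
  refine ⟨Metric.ball 0 20, ?_, Metric.isOpen_ball, Metric.mem_ball_self (by norm_num)⟩
  intro z hz
  rw [mem_ball_zero_iff] at hz
  have h1 := abs_le.1 ((Complex.abs_re_le_norm z).trans hz.le)
  have h2 := abs_le.1 ((Complex.abs_im_le_norm z).trans hz.le)
  exact ⟨h1.1, h1.2, h2.1, h2.2⟩

theorem block_disk : IsDisk (⋃₀ block) := by
  rw [block_union]
  obtain ⟨hc, ⟨e⟩⟩ := disk_of_convex box_convex box_compact box_int
  exact ⟨(box_compact.image Θ.continuous).isClosed, ⟨(Θ.image box).symm.trans e⟩⟩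

theorem block_ball : Metric.ball 0 10 ⊆ ⋃₀ block := by
  rw [block_union]
  intro z hz
  obtain ⟨w, rfl⟩ := Θ.surjective z
  refine ⟨w, ?_, rfl⟩
  rw [mem_ball_zero_iff, theta_apply, norm_mul] at hz
  have hlo := r3_lo
  have hhi := r3_hi
  have h0 : Ψ 0 = 0 := by
    have : τ 0 = 0 := by
      have := tau_int_even (m := 0) (by decide)
      simpa using this
    simp [Ψ, this]
  have h1 := psi_sub w 0
  rw [h0, sub_zero, sub_zero] at h1
  have h2 : ‖w‖ ≤ ‖Ψ w‖ + ‖Ψ w - w‖ := by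
    have := norm_sub_norm_le w (w - Ψ w)
    have e : w - (w - Ψ w) = Ψ w := by ring
    rw [e, ← norm_neg (w - Ψ w), neg_sub] at this
    linarith
  have hκ : 0.96 ≤ ‖κ‖ := by
    apply le_of_sq_le_sq _ (norm_nonneg _)
    rw [← Complex.normSq_eq_norm_sq, Complex.normSq_apply]
    have h3 := r3_sq
    simp [κ, rho_re, rho_im]
    nlinarith
  have hw : ‖w‖ < 20 := by
    by_contra hc
    push Not at hc
    have h5 : (r3 - 1) * ‖w‖ ≤ ‖Ψ w‖ := by linarith
    have h6 : 14 ≤ ‖Ψ w‖ := by nlinarith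
    nlinarith
  have h3 := abs_le.1 ((Complex.abs_re_le_norm w).trans hw.le)
  have h4 := abs_le.1 ((Complex.abs_im_le_norm w).trans hw.le)
  exact ⟨h3.1, h3.2, h4.1, h4.2⟩

theorem in_sub {A F : Set (Set ℂ)} (hF : IsArrangement F) (hAF : A ⊆ F) {T : Set ℂ} (hT : T ∈ F) {v : ℂ}
    (hv : v ∈ T) (hi : v ∈ interior (⋃₀ A)) : T ∈ A := by
  rw [← tile_closure (hF.tiles T hT)] at hv
  obtain ⟨y, hy1, hy2⟩ := mem_closure_iff.1 hv _ isOpen_interior hi
  obtain ⟨S, hS, hyS⟩ : y ∈ ⋃₀ A := interior_subset hy1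
  rw [← eq_of_int hF (hAF hS) hT hyS hy2]
  exact hS

theorem arr_mono {A F : Set (Set ℂ)} (hF : IsArrangement F) (hAF : A ⊆ F) : IsArrangement A :=
  ⟨fun T hT => hF.tiles T (hAF hT), fun S hS T hT => hF.area S (hAF hS) T (hAF hT),
    fun S hS T hT => hF.edge S (hAF hS) T (hAF hT)⟩

theorem block_patch : IsPatch block := by
  refine ⟨block_finite, arr_mono snub_arr block_sub, block_disk, ?_, ?_⟩
  · rintro v ⟨T, hT, hv⟩
    obtain ⟨h1, h2⟩ := snub_species ⟨T, block_sub hT, hv⟩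
    rw [← h1, ← h2]
    constructor
    · exact encard_le_encard fun S hS => ⟨block_sub hS.1, hS.2⟩
    · exact encard_le_encard fun S hS => ⟨block_sub hS.1, hS.2⟩
  · rintro v ⟨T, hT, hv⟩ hi
    obtain ⟨h1, h2⟩ := snub_species ⟨T, block_sub hT, hv⟩
    rw [← h1, ← h2]
    constructor
    · congr 1
      ext S
      exact ⟨fun hS => ⟨block_sub hS.1, hS.2⟩, fun hS => ⟨in_sub snub_arr block_sub hS.1 hS.2.2 hi, hS.2⟩⟩
    · congr 1
      ext S
      exact ⟨fun hS => ⟨block_sub hS.1, hS.2⟩, fun hS => ⟨in_sub snub_arr block_sub hS.1 hS.2.2 hi, hS.2⟩⟩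

/-- Two squares of the snub square tiling with two common points are equal. -/
theorem squares_apart {S T : Set ℂ} (hS : S ∈ snub) (hT : T ∈ snub) (hs : IsSq S) (ht : IsSq T) {x y : ℂ}
    (hxy : x ≠ y) (x1 : x ∈ S) (x2 : x ∈ T) (y1 : y ∈ S) (y2 : y ∈ T) : S = T := by
  obtain ⟨m, n, h, rfl⟩ := hS
  obtain ⟨m', n', h', rfl⟩ := hT
  obtain ⟨v, hv, rfl⟩ := x1
  obtain ⟨w, hw, rfl⟩ := y1
  have hv' := mem_tile.1 x2
  have hw' := mem_tile.1 y2
  have hvw : v ≠ w := fun h => hxy (by rw [h])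
  have p1 := tile_sq_par hs
  have p2 := tile_sq_par ht
  obtain ⟨a1, a2, a3, a4, -⟩ := hv
  obtain ⟨b1, b2, b3, b4, -⟩ := hw
  obtain ⟨c1, c2, c3, c4, -⟩ := hv'
  obtain ⟨d1, d2, d3, d4, -⟩ := hw'
  have k1 : m ≤ m' + 1 := by
    have : (m : ℝ) ≤ m' + 1 := by linarith
    exact_mod_cast this
  have k2 : m' ≤ m + 1 := by
    have : (m' : ℝ) ≤ m + 1 := by linarith
    exact_mod_cast this
  have k3 : n ≤ n' + 1 := by
    have : (n : ℝ) ≤ n' + 1 := by linarith
    exact_mod_cast this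
  have k4 : n' ≤ n + 1 := by
    have : (n' : ℝ) ≤ n + 1 := by linarith
    exact_mod_cast this
  by_cases hmm : m = m'
  · by_cases hnn : n = n'
    · subst hmm hnn
      rcases Int.even_or_odd m with hm | hm <;> rcases Int.even_or_odd n with hn | hn
      · rw [tile_ee hm hn, tile_ee hm hn]
      · exact (not_even_odd (p1.1 hm) hn).elim
      · exact (not_even_odd (p1.2 hn) hm).elim
      · rw [tile_oo hm hn, tile_oo hm hn]
    · exfalso
      subst hmm
      have : Even n ↔ Even n' := p1.symm.trans p2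
      rw [Int.even_iff, Int.even_iff] at this
      omega
  · exfalso
    by_cases hnn : n = n'
    · subst hnn
      have : Even m ↔ Even m' := p1.trans p2.symm
      rw [Int.even_iff, Int.even_iff] at this
      omega
    · apply hvw
      apply Complex.ext
      · rcases lt_or_gt_of_ne hmm with hlt | hlt
        · have : m' = m + 1 := by omega
          subst this
          push_cast at c1 d1
          linarith
        · have : m = m' + 1 := by omega
          subst this
          push_cast at a1 b1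
          linarith
      · rcases lt_or_gt_of_ne hnn with hlt | hlt
        · have : n' = n + 1 := by omega
          subst this
          push_cast at c3 d3
          linarith
        · have : n = n' + 1 := by omega
          subst this
          push_cast at a3 b3
          linarith

/-- No convex patch contains the block. -/
theorem block_not_convex {Q : Set (Set ℂ)} (hQ : IsPatch Q) (hA : block ⊆ Q) : ¬ Convex ℝ (⋃₀ Q) := by
  intro hconv
  have hball : Metric.ball (0 : ℂ) 10 ⊆ ⋃₀ Q := block_ball.trans (sUnion_subset_sUnion hA)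
  obtain ⟨a, u, hu, h1, h2, d1, d2⟩ := two_squares hQ.adm hconv hball
  have hu0 := ne_zero_of_norm hu
  have key : ∀ b : ℂ, sq b u ∈ Q → dist (b + (1 / 2 + I / 2) * u) 0 < 10 → sq b u ∈ snub := by
    intro b hb hd
    obtain ⟨T, hT, hcT⟩ := block_ball (Metric.mem_ball.2 hd)
    have hi : b + (1 / 2 + I / 2) * u ∈ interior (sq b u) := by
      apply sq_int hu0 <;> simp <;> norm_num
    have := eq_of_int hQ.arr (hA hT) hb hcT hi
    rw [← this]
    exact block_sub hT
  have s1 := key a h1 d1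
  have s2 := key (a + u) h2 d2
  have hIu : ‖I * u‖ = 1 := by rw [norm_mul, Complex.norm_I, hu, one_mul]
  have hne : sq a u ≠ sq (a + u) u := by
    intro he
    rw [sq_rot] at he
    have := tile_dir hIu hu (T := sq (a + u) (I * u)) (Or.inr rfl) (Or.inr he)
    have h3 : I = 1 := by
      have : I * u = 1 * u := by rw [this, one_mul]
      exact mul_right_cancel₀ hu0 this
    have := congrArg Complex.re h3
    simp at this
  apply hne
  refine squares_apart s1 s2 ⟨_, _, hu, rfl⟩ ⟨_, _, hu, rfl⟩ (x := a + u) (y := a + u + I * u) ?_ ?_ ?_ ?_ ?_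
  · intro h
    have : I * u = 0 := by linear_combination -h
    rw [this, norm_zero] at hIu
    norm_num at hIu
  · exact (tile_end hu (Or.inr rfl)).2
  · exact (tile_end hu (Or.inr rfl)).1
  · rw [sq_rot]; exact (tile_end hIu (Or.inr rfl)).2
  · have := (mem_sq hu0 (a := a + u) I).2 (by simp)
    exact this

end Pool.Agent.R175.TriSq
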